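import Pool.Agent.Lib.MP_d9bc60_nt.EN.Defs

/-! Row M1 (about 100 lines): Mertens' first theorem. -/

set_option autoImplicit false

open Finset

namespace Pool.Agent.Lib.MP_d9bc60_nt.EN

theorem m1_log_sum (N : ℕ) : ∑ n ∈ Ioc 0 N, Real.log n =
    ∑ d ∈ Ioc 0 N, ArithmeticFunction.vonMangoldt d * ((N / d : ℕ) : ℝ) := by
  have h := ArithmeticFunction.sum_Ioc_mul_zeta_eq_sum (ArithmeticFunction.vonMangoldt) N
  rw [ArithmeticFunction.vonMangoldt_mul_zeta] at h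
  rw [← h]
  exact Finset.sum_congr rfl fun n _ => by rw [ArithmeticFunction.log_apply]

theorem m1_lower (N : ℕ) : (N : ℝ) * Real.log N - N ≤ ∑ n ∈ Ioc 0 N, Real.log n := by
  induction N with
  | zero => simp
  | succ N ih =>
    rw [Finset.sum_Ioc_succ_top (Nat.zero_le N)]
    have h1 : (N : ℝ) * (Real.log ((N + 1 : ℕ) : ℝ) - Real.log N) ≤ 1 := by
      rcases Nat.eq_zero_or_pos N with h0 | h0
      · subst h0; simp
      · have hN : (0 : ℝ) < N := by exact_mod_cast h0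
        have h2 : Real.log ((N + 1 : ℕ) : ℝ) - Real.log N = Real.log (((N + 1 : ℕ) : ℝ) / N) := by
          rw [Real.log_div (by positivity) (by positivity)]
        have h3 : Real.log (((N + 1 : ℕ) : ℝ) / N) ≤ ((N + 1 : ℕ) : ℝ) / N - 1 :=
          Real.log_le_sub_one_of_pos (by positivity)
        rw [h2]
        calc (N : ℝ) * Real.log (((N + 1 : ℕ) : ℝ) / N)
            ≤ (N : ℝ) * (((N + 1 : ℕ) : ℝ) / N - 1) := by gcongr
          _ = 1 := by push_cast; field_simp; ring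
    push_cast at h1 ⊢
    nlinarith [ih, h1]

theorem m1_upper (N : ℕ) : ∑ n ∈ Ioc 0 N, Real.log n ≤ (N : ℝ) * Real.log N := by
  have h : ∀ n ∈ Ioc 0 N, Real.log n ≤ Real.log N := by
    intro n hn
    rw [Finset.mem_Ioc] at hn
    have h1 : (0 : ℝ) < n := by exact_mod_cast hn.1
    exact Real.log_le_log h1 (by exact_mod_cast hn.2)
  have := Finset.sum_le_card_nsmul _ _ _ h
  rwa [Nat.card_Ioc, Nat.sub_zero, nsmul_eq_mul] at this

/-- Mertens' first theorem. Proof: `log n! = ∑_{d ≤ n} Λ(d) ⌊n/d⌋` (from `∑_{d ∣ m} Λ d = log m`,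
`ArithmeticFunction.vonMangoldt_sum`; sum over `m ≤ n` and exchange). With
`n/d - 1 ≤ ⌊n/d⌋ ≤ n/d` and `n log n - n ≤ log n! ≤ n log n`:
`n ∑ Λ(d)/d ≥ log n! ≥ n log n - n` and `n ∑ Λ(d)/d ≤ log n! + ψ(n) ≤ n log n + C n`
(`Chebyshev.psi_le_const_mul_self`, `ψ n = ∑_{d ∈ Icc 1 n} Λ d` up to `Chebyshev.psi_eq_sum_Icc`). -/
theorem mertens_one : ∃ C : ℝ, 0 < C ∧ ∀ n : ℕ, 1 ≤ n →
    |∑ d ∈ Icc 1 n, ArithmeticFunction.vonMangoldt d / (d : ℝ) - Real.log n| ≤ C := by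
  have hl4 : 0 < Real.log 4 := Real.log_pos (by norm_num)
  refine ⟨Real.log 4 + 4, by linarith, fun n hn => ?_⟩
  have hn' : (0 : ℝ) < n := by exact_mod_cast hn
  have hIcc : Icc 1 n = Ioc 0 n := by
    ext d; simp only [Finset.mem_Icc, Finset.mem_Ioc]; omega
  rw [hIcc]
  set S := ∑ d ∈ Ioc 0 n, ArithmeticFunction.vonMangoldt d / (d : ℝ) with hS
  have hnS : (n : ℝ) * S = ∑ d ∈ Ioc 0 n, ArithmeticFunction.vonMangoldt d * ((n : ℝ) / d) := by
    rw [hS, Finset.mul_sum]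
    exact Finset.sum_congr rfl fun d _ => by ring
  have h1 : ∑ d ∈ Ioc 0 n, ArithmeticFunction.vonMangoldt d * ((n / d : ℕ) : ℝ) ≤ n * S := by
    rw [hnS]
    refine Finset.sum_le_sum fun d _ => ?_
    exact mul_le_mul_of_nonneg_left Nat.cast_div_le ArithmeticFunction.vonMangoldt_nonneg
  have h2 : n * S ≤ ∑ d ∈ Ioc 0 n, ArithmeticFunction.vonMangoldt d * ((n / d : ℕ) : ℝ) +
      ∑ d ∈ Ioc 0 n, ArithmeticFunction.vonMangoldt d := by
    rw [hnS, ← Finset.sum_add_distrib]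
    refine Finset.sum_le_sum fun d _ => ?_
    rw [← mul_add_one]
    refine mul_le_mul_of_nonneg_left ?_ ArithmeticFunction.vonMangoldt_nonneg
    have h3 := (Nat.lt_floor_add_one ((n : ℝ) / (d : ℝ))).le
    rwa [Nat.floor_div_eq_div] at h3
  have h4 : ∑ d ∈ Ioc 0 n, ArithmeticFunction.vonMangoldt d ≤ (Real.log 4 + 4) * n := by
    have h5 := Chebyshev.psi_le_const_mul_self (x := (n : ℝ)) hn'.le
    have h6 : Chebyshev.psi (n : ℝ) = ∑ d ∈ Ioc 0 n, ArithmeticFunction.vonMangoldt d := by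
      rw [Chebyshev.psi, Nat.floor_natCast]
    rwa [h6] at h5
  rw [← m1_log_sum] at h1 h2
  have h7 := m1_lower n
  have h8 := m1_upper n
  rw [abs_le]
  constructor
  · have h9 : (n : ℝ) * (Real.log n - 1) ≤ n * S := by nlinarith
    have h10 := le_of_mul_le_mul_left h9 hn'
    linarith
  · have h9 : (n : ℝ) * S ≤ n * (Real.log n + (Real.log 4 + 4)) := by nlinarith
    have h10 := le_of_mul_le_mul_left h9 hn'
    linarith

end Pool.Agent.Lib.MP_d9bc60_nt.EN
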