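import Mathlib
import Pool.Agent.Lib.MP_d9bc60_nt.SecondMoment

/-!
Definitions for the theorem for every `n` (folder EN).  Notation: `N = n - c`, `f = x^2 + b x + c`,
`n = f(p) + m` iff `N - p (p + b) = m`.
-/

set_option autoImplicit false

open Finset

namespace Pool.Agent.Lib.MP_d9bc60_nt.EN

/-- The admissible `b`: right parity, not divisible by `3`, and `N` is not of the form
`x^2 + b x`. -/
def adm (N b : ℕ) : Prop :=
  b % 2 = N % 2 ∧ ¬ 3 ∣ b ∧ ¬ ∃ x : ℤ, x ^ 2 + (b : ℤ) * x = (N : ℤ)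

noncomputable instance (N : ℕ) : DecidablePred (adm N) := fun _ => Classical.dec _

/-- Number of representations of `N` as `p (p + b) + m`, `p`, `m` primes. -/
noncomputable def rr (N b : ℕ) : ℕ :=
  ((Icc 1 N).filter fun p => p.Prime ∧ p * (p + b) < N ∧ (N - p * (p + b)).Prime).card

/-- The same with `U < p ≤ 2 U`. -/
noncomputable def rU (N U b : ℕ) : ℕ :=
  ((Ioc U (2 * U)).filter fun p => p.Prime ∧ p * (p + b) < N ∧ (N - p * (p + b)).Prime).card

/-- Number of pairs `(m, p)`, `3 ≤ m ≤ N/2`, `U < p ≤ 2 U`, both prime, `m ≡ a mod 3`,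
`p ∣ N - m`. -/
noncomputable def TT (N U a : ℕ) : ℕ :=
  (((Icc 3 (N / 2)) ×ˢ (Ioc U (2 * U))).filter fun x : ℕ × ℕ =>
    x.1.Prime ∧ x.1 % 3 = a ∧ x.2.Prime ∧ x.2 ∣ N - x.1).card

/-- The number of pairs `(m, p)`, `m ≤ N` and `U < p ≤ 2 U` prime, `p ∣ N - m`. -/
noncomputable def TA (N U : ℕ) : ℕ :=
  (((Icc 1 N) ×ˢ (Ioc U (2 * U))).filter fun x : ℕ × ℕ =>
    x.1.Prime ∧ x.2.Prime ∧ x.2 ∣ N - x.1).card

/-- The nontrivial character modulo `3`. -/
def chi3 (n : ℕ) : ℝ := if n % 3 = 1 then 1 else if n % 3 = 2 then -1 else 0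

end Pool.Agent.Lib.MP_d9bc60_nt.EN
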