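import Pool.Agent.Lib.MP_d9bc60_nt.EN.C3

/-! Row F1 (about 150 lines): final statement. -/

set_option autoImplicit false

open Finset

namespace Pool.Agent.Lib.MP_d9bc60_nt.EN

/-- the set of representations is the image of the finite set counted by `rr` -/
theorem f1_ncard (n c : ℤ) (N b : ℕ) (hN : n - c = (N : ℤ)) :
    ({x : ℕ × ℕ | x.1.Prime ∧ x.2.Prime ∧
      n = ((x.1 : ℤ) ^ 2 + (b : ℤ) * (x.1 : ℤ) + c) + (x.2 : ℤ)}.ncard : ℕ) = rr N b := by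
  classical
  have h1 : {x : ℕ × ℕ | x.1.Prime ∧ x.2.Prime ∧
      n = ((x.1 : ℤ) ^ 2 + (b : ℤ) * (x.1 : ℤ) + c) + (x.2 : ℤ)}
      = ((((Icc 1 N).filter fun p => p.Prime ∧ p * (p + b) < N ∧ (N - p * (p + b)).Prime).image
        fun p => (p, N - p * (p + b)) : Finset (ℕ × ℕ)) : Set (ℕ × ℕ)) := by
    ext x
    obtain ⟨p, m⟩ := x
    simp only [Set.mem_ofPred_eq, Finset.coe_image, Set.mem_image, Finset.mem_coe,
      Finset.mem_filter, Finset.mem_Icc, Prod.mk.injEq]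
    constructor
    · rintro ⟨hp, hm, h⟩
      have h2 : p * (p + b) + m = N := by
        have h3 : ((p * (p + b) + m : ℕ) : ℤ) = (N : ℤ) := by
          push_cast
          rw [← hN, h]
          ring
        exact_mod_cast h3
      have h4 : p ≤ p * (p + b) := Nat.le_mul_of_pos_right _ (by have := hp.pos; omega)
      have h5 := hm.pos
      refine ⟨p, ⟨⟨hp.one_lt.le, by omega⟩, hp, by omega, ?_⟩, rfl, by omega⟩
      rwa [show N - p * (p + b) = m by omega]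
    · rintro ⟨q, ⟨⟨_, _⟩, hq, hlt, hpr⟩, rfl, rfl⟩
      refine ⟨hq, hpr, ?_⟩
      rw [Nat.cast_sub hlt.le]
      push_cast
      rw [← hN]
      ring
  rw [h1, Set.ncard_coe_finset, Finset.card_image_of_injective _ fun p q h => (Prod.mk.inj h).1]
  rfl

/-- Translation of `main` with `N = (n - c).toNat`: for odd `n`, `Odd (b + c) ↔ b % 2 = N % 2`;
`(p₁, p₂) ↔ p₁`, `p₂ = n - f(p₁) = N - p₁ (p₁ + b)`. -/
theorem every_n : ∃ κ : ℝ, 0 < κ ∧ ∃ A N₀ : ℕ, ∀ n c : ℤ, Odd n → (N₀ : ℤ) ≤ n - c → ∀ P : ℕ,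
    Real.log ((n - c : ℤ) : ℝ) * Real.log (Real.log ((n - c : ℤ) : ℝ)) ≤ P →
    (P : ℤ) ^ A ≤ n - c →
    ∃ S : Finset ℤ, (∀ b ∈ S, Odd (b + c) ∧ ¬ (3 : ℤ) ∣ b ∧ (¬ ∃ x : ℤ, x ^ 2 + b * x + c = n) ∧
        n - c ≤ b * (P : ℤ) ^ A ∧ 0 < b ∧ b * (P : ℤ) ≤ n - c ∧
        κ * (((n - c : ℤ) : ℝ) / (b : ℝ)) /
          (Real.log (((n - c : ℤ) : ℝ) / (b : ℝ)) * Real.log ((n - c : ℤ) : ℝ)) ≤
          (({x : ℕ × ℕ | x.1.Prime ∧ x.2.Prime ∧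
            n = ((x.1 : ℤ) ^ 2 + b * (x.1 : ℤ) + c) + (x.2 : ℤ)}.ncard : ℕ) : ℝ)) ∧
      κ * Real.log P ≤ ∑ b ∈ S, ((b : ℝ))⁻¹ := by
  classical
  obtain ⟨κ, hκ, A, N₀, H⟩ := main
  refine ⟨κ, hκ, A, N₀, fun n c hn hN₀ P hP hPA => ?_⟩
  obtain ⟨N, hN⟩ := Int.eq_ofNat_of_zero_le (show 0 ≤ n - c by omega)
  rw [hN] at hN₀ hP hPA ⊢
  rw [Int.cast_natCast] at hP ⊢
  have hN₀' : N₀ ≤ N := by exact_mod_cast hN₀
  have hPA' : P ^ A ≤ N := by exact_mod_cast hPA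
  have h := H N hN₀' P hP hPA'
  refine ⟨((Icc 1 N).filter (fun b => N ≤ b * P ^ A ∧ b * P ≤ N ∧ adm N b ∧
      κ * ((N : ℝ) / b) / (Real.log ((N : ℝ) / b) * Real.log N) ≤ (rr N b : ℝ))).image
        (fun b : ℕ => (b : ℤ)), ?_, ?_⟩
  · intro b hb
    obtain ⟨b0, hb0, rfl⟩ := Finset.mem_image.1 hb
    rw [Finset.mem_filter, Finset.mem_Icc] at hb0
    obtain ⟨⟨hb1, hb2⟩, hb3, hb4, ⟨ha1, ha2, ha3⟩, hb5⟩ := hb0
    refine ⟨?_, ?_, ?_, ?_, ?_, ?_, ?_⟩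
    · rw [Int.odd_iff] at hn ⊢
      omega
    · exact_mod_cast ha2
    · rintro ⟨x, hx⟩
      exact ha3 ⟨x, by rw [← hN]; linarith⟩
    · exact_mod_cast hb3
    · exact_mod_cast hb1
    · exact_mod_cast hb4
    · rw [f1_ncard n c N b0 hN, Int.cast_natCast]
      exact hb5
  · rw [Finset.sum_image fun a _ b _ hab => by exact_mod_cast hab]
    simpa only [Int.cast_natCast] using h

end Pool.Agent.Lib.MP_d9bc60_nt.EN
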