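import Pool.Agent.Lib.MP_d9bc60_nt.EN.M2

/-! Row A1 (about 150 lines): only small primes matter in `v/φ(v)`. -/

set_option autoImplicit false

open Finset

namespace Pool.Agent.Lib.MP_d9bc60_nt.EN

/-- product of the primes `l ≤ w` dividing `v` -/
def sm (w v : ℕ) : ℕ := ∏ l ∈ v.primeFactors.filter (· ≤ w), l

lemma a1_pf (w v : ℕ) : (sm w v).primeFactors = v.primeFactors.filter (· ≤ w) := by
  unfold sm
  exact Nat.primeFactors_prod (fun p hp => Nat.prime_of_mem_primeFactors (Finset.mem_filter.1 hp).1)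

lemma a1_sq (w v : ℕ) : Squarefree (sm w v) := by
  rcases Nat.eq_zero_or_pos v with h0 | h0
  · subst h0; simp [sm]
  have hr := Sieve.rk_props 1 v one_ne_zero
  refine Squarefree.squarefree_of_dvd ?_ hr.2.1
  unfold sm Sieve.rk
  apply Finset.prod_dvd_prod_of_subset
  intro p hp
  simpa using Finset.mem_of_mem_filter p hp

/-- the local factor -/
noncomputable def gg (p : ℕ) : ℝ := (1 - (p : ℝ)⁻¹)⁻¹

lemma a1_gg (p : ℕ) (hp : p.Prime) : 1 ≤ gg p ∧ gg p = (p : ℝ) * ((p : ℝ) - 1)⁻¹ := by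
  have h2 : (2 : ℝ) ≤ p := by exact_mod_cast hp.two_le
  have h3 : gg p = (p : ℝ) * ((p : ℝ) - 1)⁻¹ := by
    unfold gg
    have h4 : (p : ℝ) ≠ 0 := by linarith
    have h5 : (p : ℝ) - 1 ≠ 0 := by linarith
    have h6 : 1 - (p : ℝ)⁻¹ = ((p : ℝ) - 1) * (p : ℝ)⁻¹ := by field_simp
    rw [h6, mul_inv, inv_inv]; ring
  refine ⟨?_, h3⟩
  rw [h3, ← div_eq_mul_inv, le_div_iff₀ (by linarith)]
  linarith

lemma a1_sum (w v : ℕ) : ∑ e ∈ (sm w v).divisors, Sieve.psi e =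
    (∏ p ∈ v.primeFactors.filter (· ≤ w), gg p) ^ 4 := by
  rw [← Sieve.psi_mult.prodPrimeFactors_one_add_of_squarefree (a1_sq w v), a1_pf, ← Finset.prod_pow]
  apply Finset.prod_congr rfl
  intro p hp
  have hpp := Nat.prime_of_mem_primeFactors (Finset.mem_filter.1 hp).1
  rw [Sieve.psi_prime p hpp, (a1_gg p hpp).2]
  ring

lemma a1_prod_mono (S T : Finset ℕ) (h : S ⊆ T) (hT : ∀ p ∈ T, p.Prime) :
    ∏ p ∈ S, gg p ≤ ∏ p ∈ T, gg p := by
  rw [← Finset.prod_sdiff h]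
  have h1 : 1 ≤ ∏ p ∈ T \ S, gg p := by
    have : ∏ p ∈ T \ S, (1 : ℝ) ≤ ∏ p ∈ T \ S, gg p := by
      apply Finset.prod_le_prod
      · intro _ _; norm_num
      · intro p hp
        exact (a1_gg p (hT p (Finset.mem_sdiff.1 hp).1)).1
    simpa using this
  have h2 : 0 ≤ ∏ p ∈ S, gg p := by
    apply Finset.prod_nonneg
    intro p hp
    have := (a1_gg p (hT p (h hp))).1
    linarith
  nlinarith

lemma a1_prod_eq (n : ℕ) : ∏ p ∈ (Icc 1 n).filter Nat.Prime, gg p =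
    (∏ p ∈ (Icc 1 n).filter Nat.Prime, (1 - (p : ℝ)⁻¹))⁻¹ := by
  unfold gg
  rw [Finset.prod_inv_distrib]

/-- `rphi v = ∏_{l ∣ v} (1-1/l)^{-1}` (`Sieve.inv_ratio`), split at `w` and `Y`, `Y ≤ w^8·..`:
primes `l > Y`: at most `log v/log Y` of them, each factor `≤ exp(2/l) ≤ exp(2/Y)`, product
`≤ exp(2 log v/(Y log Y)) ≤ e^4`; primes `w < l ≤ Y`: the product over ALL of them is
`≤ (log Y/c)/log (w+1)` (`prod_lower`, `prod_upper`) `≤ 9/c`; primes `≤ w`: fourth power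
`= ∑_{e ∣ sm w v} ψ(e)` (as `Sieve.rphi_pow`, `psi_prime`). -/
theorem rphi_le_small : ∃ C : ℝ, 0 < C ∧ ∀ Y w v : ℕ, 2 ≤ w → w ≤ Y → Y ≤ (w + 1) ^ 8 → 0 < v →
    Real.log v ≤ 2 * (Y : ℝ) * Real.log Y →
    (Sieve.rphi v) ^ 4 ≤ C * ∑ e ∈ (sm w v).divisors, Sieve.psi e := by
  classical
  obtain ⟨c, hc, -, hlow⟩ := prod_lower
  refine ⟨(8 / c * Real.exp 2) ^ 4, by positivity, ?_⟩
  intro Y w v hw hwY hYw hv hlogv
  rw [a1_sum, ← mul_pow]
  have hY2 : 2 ≤ Y := hw.trans hwY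
  have hYR : (2 : ℝ) ≤ Y := by exact_mod_cast hY2
  have hlogY : 0 < Real.log Y := Real.log_pos (by linarith)
  have hpr : ∀ p ∈ v.primeFactors, p.Prime := fun p hp => Nat.prime_of_mem_primeFactors hp
  have hgpos : ∀ p ∈ v.primeFactors, 0 ≤ gg p := fun p hp => by
    have := (a1_gg p (hpr p hp)).1
    linarith
  have hr : Sieve.rphi v = ∏ p ∈ v.primeFactors, gg p := by
    rw [Sieve.rphi_apply, ← div_eq_mul_inv, ← Sieve.inv_ratio v hv]
    rfl
  rw [hr]
  apply pow_le_pow_left₀ (Finset.prod_nonneg hgpos)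
  rw [← Finset.prod_filter_mul_prod_filter_not v.primeFactors (· ≤ w)]
  set A := ∏ p ∈ v.primeFactors.filter (· ≤ w), gg p with hA
  have hA0 : 0 ≤ A := Finset.prod_nonneg fun p hp => hgpos p (Finset.mem_filter.1 hp).1
  rw [mul_comm]
  apply mul_le_mul_of_nonneg_right _ hA0
  rw [← Finset.prod_filter_mul_prod_filter_not (v.primeFactors.filter (fun p => ¬ p ≤ w)) (· ≤ Y)]
  have hB : ∏ p ∈ (v.primeFactors.filter (fun p => ¬ p ≤ w)).filter (· ≤ Y), gg p ≤ 8 / c := by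
    set T := ((Icc 1 Y).filter Nat.Prime).filter (fun p => ¬ p ≤ w) with hT
    have h1 : ∏ p ∈ (v.primeFactors.filter (fun p => ¬ p ≤ w)).filter (· ≤ Y), gg p ≤
        ∏ p ∈ T, gg p := by
      apply a1_prod_mono
      · intro p hp
        rw [Finset.mem_filter, Finset.mem_filter] at hp
        rw [hT, Finset.mem_filter, Finset.mem_filter, Finset.mem_Icc]
        exact ⟨⟨⟨(hpr p hp.1.1).one_le, hp.2⟩, hpr p hp.1.1⟩, hp.1.2⟩
      · intro p hp
        rw [hT, Finset.mem_filter, Finset.mem_filter] at hp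
        exact hp.1.2
    refine h1.trans ?_
    have h2 := Finset.prod_filter_mul_prod_filter_not ((Icc 1 Y).filter Nat.Prime) (· ≤ w) gg
    have h3 : ((Icc 1 Y).filter Nat.Prime).filter (· ≤ w) = (Icc 1 w).filter Nat.Prime := by
      ext p
      simp only [Finset.mem_filter, Finset.mem_Icc]
      constructor
      · rintro ⟨⟨⟨a, b⟩, c⟩, d⟩; exact ⟨⟨a, d⟩, c⟩
      · rintro ⟨⟨a, b⟩, c⟩; exact ⟨⟨⟨a, b.trans hwY⟩, c⟩, b⟩
    rw [h3, a1_prod_eq, a1_prod_eq] at h2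
    set Pw := ∏ p ∈ (Icc 1 w).filter Nat.Prime, (1 - (p : ℝ)⁻¹) with hPw
    set PY := ∏ p ∈ (Icc 1 Y).filter Nat.Prime, (1 - (p : ℝ)⁻¹) with hPY
    have hfac : ∀ p : ℕ, p.Prime → 0 < 1 - (p : ℝ)⁻¹ := by
      intro p hp
      have h2 : (2 : ℝ) ≤ p := by exact_mod_cast hp.two_le
      have : (p : ℝ)⁻¹ < 1 := inv_lt_one_of_one_lt₀ (by linarith)
      linarith
    have hPw0 : 0 < Pw := Finset.prod_pos fun p hp => hfac p (Finset.mem_filter.1 hp).2
    have hPY0 : 0 < PY := Finset.prod_pos fun p hp => hfac p (Finset.mem_filter.1 hp).2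
    have h4 : Pw * Real.log ((w : ℝ) + 1) ≤ 1 := prod_upper w
    have h5 : c / Real.log Y ≤ PY := hlow Y hY2
    have hT2 : ∏ p ∈ T, gg p = Pw * PY⁻¹ := by
      have : (∏ x ∈ T, gg x) * Pw⁻¹ = PY⁻¹ := by rw [← h2, mul_comm]
      field_simp at this ⊢
      linarith
    rw [hT2]
    have hwR : (2 : ℝ) ≤ w := by exact_mod_cast hw
    have hlw : 0 < Real.log ((w : ℝ) + 1) := Real.log_pos (by linarith)
    have h6 : Real.log Y ≤ 8 * Real.log ((w : ℝ) + 1) := by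
      have : (Y : ℝ) ≤ ((w : ℝ) + 1) ^ 8 := by exact_mod_cast hYw
      calc Real.log Y ≤ Real.log (((w : ℝ) + 1) ^ 8) := Real.log_le_log (by linarith) this
        _ = 8 * Real.log ((w : ℝ) + 1) := by rw [Real.log_pow]; norm_num
    have h7 : c ≤ PY * Real.log Y := by rwa [div_le_iff₀ hlogY] at h5
    rw [← div_eq_mul_inv, div_le_div_iff₀ hPY0 hc]
    calc Pw * c ≤ Pw * (PY * Real.log Y) := by gcongr
      _ ≤ Pw * (PY * (8 * Real.log ((w : ℝ) + 1))) := by gcongr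
      _ = 8 * PY * (Pw * Real.log ((w : ℝ) + 1)) := by ring
      _ ≤ 8 * PY * 1 := by gcongr
      _ = 8 * PY := by ring
  have hC : ∏ p ∈ (v.primeFactors.filter (fun p => ¬ p ≤ w)).filter (fun p => ¬ p ≤ Y), gg p ≤
      Real.exp 2 := by
    set R := (v.primeFactors.filter (fun p => ¬ p ≤ w)).filter (fun p => ¬ p ≤ Y) with hR
    have h1 : ∀ p ∈ R, p.Prime ∧ Y < p ∧ p ∈ v.primeFactors := by
      intro p hp
      rw [hR, Finset.mem_filter, Finset.mem_filter] at hp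
      exact ⟨hpr p hp.1.1, by omega, hp.1.1⟩
    have h2 : ∏ p ∈ R, gg p ≤ ∏ p ∈ R, Real.exp (1 / (Y : ℝ)) := by
      apply Finset.prod_le_prod
      · intro p hp
        exact hgpos p (h1 p hp).2.2
      · intro p hp
        rw [(a1_gg p (h1 p hp).1).2]
        have hpY : (Y : ℝ) + 1 ≤ p := by exact_mod_cast (h1 p hp).2.1
        have e1 : (p : ℝ) * ((p : ℝ) - 1)⁻¹ = 1 + 1 / ((p : ℝ) - 1) := by
          have : (p : ℝ) - 1 ≠ 0 := by linarith
          field_simp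
          ring
        rw [e1]
        have e2 : 1 / ((p : ℝ) - 1) ≤ 1 / (Y : ℝ) := by
          apply one_div_le_one_div_of_le <;> linarith
        have e3 := Real.add_one_le_exp (1 / (Y : ℝ))
        linarith
    rw [Finset.prod_const, ← Real.exp_nat_mul] at h2
    refine h2.trans (Real.exp_le_exp.2 ?_)
    have h3 : Y ^ R.card ≤ v := by
      calc Y ^ R.card = ∏ p ∈ R, Y := by rw [Finset.prod_const]
        _ ≤ ∏ p ∈ R, p := Finset.prod_le_prod' fun p hp => (h1 p hp).2.1.le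
        _ ≤ v := Nat.le_of_dvd hv ((Finset.prod_dvd_prod_of_subset _ _ _
            (fun p hp => (h1 p hp).2.2)).trans (Nat.prod_primeFactors_dvd v))
    have h4 : (R.card : ℝ) * Real.log Y ≤ Real.log v := by
      rw [← Real.log_pow]
      apply Real.log_le_log (by positivity)
      exact_mod_cast h3
    have h5 : (R.card : ℝ) ≤ 2 * Y := by
      have : (R.card : ℝ) * Real.log Y ≤ 2 * (Y : ℝ) * Real.log Y := h4.trans hlogv
      exact le_of_mul_le_mul_right this hlogY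
    have hY0 : (0 : ℝ) < Y := by linarith
    rw [mul_one_div, div_le_iff₀ hY0]
    exact h5
  apply mul_le_mul hB hC _ (by positivity)
  apply Finset.prod_nonneg
  intro p hp
  rw [Finset.mem_filter, Finset.mem_filter] at hp
  exact hgpos p hp.1.1

/-- `∑_{e ∣ sm w v} ψ(e) = ∏_{l ∣ v, l ≤ w} (1-1/l)^{-4} ≤ ∏_{l ≤ w} (1 - 1/l)^{-4} ≤ (log w/c)^4`. -/
theorem sum_psi_sm_le : ∃ C : ℝ, 0 < C ∧ ∀ w v : ℕ, 2 ≤ w → 0 < v →
    ∑ e ∈ (sm w v).divisors, Sieve.psi e ≤ C * (Real.log w) ^ 4 := by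
  obtain ⟨c, hc, -, hlow⟩ := prod_lower
  refine ⟨(1 / c) ^ 4, by positivity, ?_⟩
  intro w v hw hv
  rw [a1_sum, ← mul_pow]
  have hwR : (2 : ℝ) ≤ w := by exact_mod_cast hw
  have hlw : 0 < Real.log w := Real.log_pos (by linarith)
  apply pow_le_pow_left₀
  · apply Finset.prod_nonneg
    intro p hp
    have := (a1_gg p (Nat.prime_of_mem_primeFactors (Finset.mem_filter.1 hp).1)).1
    linarith
  · have h1 : ∏ p ∈ v.primeFactors.filter (· ≤ w), gg p ≤ ∏ p ∈ (Icc 1 w).filter Nat.Prime, gg p := by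
      apply a1_prod_mono
      · intro p hp
        rw [Finset.mem_filter] at hp ⊢
        have hpp := Nat.prime_of_mem_primeFactors hp.1
        rw [Finset.mem_Icc]
        exact ⟨⟨hpp.one_le, hp.2⟩, hpp⟩
      · intro p hp
        exact (Finset.mem_filter.1 hp).2
    refine h1.trans ?_
    rw [a1_prod_eq]
    have h2 := hlow w hw
    have h3 : 0 < c / Real.log w := by positivity
    calc (∏ p ∈ (Icc 1 w).filter Nat.Prime, (1 - (p : ℝ)⁻¹))⁻¹ ≤ (c / Real.log w)⁻¹ := inv_anti₀ h3 h2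
      _ = 1 / c * Real.log w := by rw [inv_div]; ring

end Pool.Agent.Lib.MP_d9bc60_nt.EN
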