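import Pool.Agent.Lib.MP_d9bc60_nt.EN.A1

/-! Row A2 (about 120 lines): large smooth divisors. -/

set_option autoImplicit false

open Finset

namespace Pool.Agent.Lib.MP_d9bc60_nt.EN

theorem a2_exists (w B : ℕ) (hB : 1 ≤ B) : ∀ e : ℕ, B < e → (∀ l ∈ e.primeFactors, l ≤ w) →
    ∃ d, d ∣ e ∧ B < d ∧ d ≤ B * w := by
  intro e
  induction e using Nat.strong_induction_on with
  | _ e ih =>
    intro he hw
    by_cases h : e ≤ B * w
    · exact ⟨e, dvd_refl e, he, h⟩
    · have he1 : e ≠ 1 := by omega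
      obtain ⟨l, hl, hle⟩ := Nat.exists_prime_and_dvd he1
      have hlw : l ≤ w := hw l (Nat.mem_primeFactors.mpr ⟨hl, hle, by omega⟩)
      obtain ⟨f, rfl⟩ := hle
      have hl2 := hl.two_le
      have hf0 : f ≠ 0 := by
        rintro rfl
        simp at he
      have h1 : B < f := by
        by_contra hf
        have : l * f ≤ w * B := Nat.mul_le_mul hlw (by omega)
        rw [Nat.mul_comm w B] at this
        omega
      have h2 : f < l * f := by nlinarith [Nat.pos_of_ne_zero hf0]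
      obtain ⟨d, hd, hd1, hd2⟩ := ih f h2 h1 (fun p hp => hw p (by
        rw [Nat.mem_primeFactors] at hp ⊢
        exact ⟨hp.1, hp.2.1.mul_left l, by positivity⟩))
      exact ⟨d, hd.mul_left l, hd1, hd2⟩

/-- Let `s` be squarefree with all prime factors `≤ w`. Every divisor `e > B` of `s` (`B ≥ 1`) has a
divisor `d` with `B < d ≤ B w` (multiply the primes of `e` until the product exceeds `B`). So
`∑_{e ∣ s, e > B} ψ(e) ≤ ∑_{d ∣ s, B < d ≤ B w} ψ(d) · ∑_{g ∣ s} ψ(g)` (`e = d g`, `ψ(e) = ψ(d) ψ(g)`,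
`d`, `g` coprime; `ψ ≥ 0` on squarefree numbers, `Sieve.psi_nonneg_of_sq`). -/
theorem sum_large_divisors (s w B : ℕ) (hs : Squarefree s) (hw : ∀ l ∈ s.primeFactors, l ≤ w)
    (hB : 1 ≤ B) :
    ∑ e ∈ s.divisors.filter (fun e => B < e), Sieve.psi e ≤
      (∑ d ∈ s.divisors.filter (fun d => B < d ∧ d ≤ B * w), Sieve.psi d) *
        ∑ g ∈ s.divisors, Sieve.psi g := by
  have hs0 : s ≠ 0 := hs.ne_zero
  have hex : ∀ e : ℕ, ∃ d, e ∈ s.divisors.filter (fun e => B < e) →
      (d ∣ e ∧ B < d ∧ d ≤ B * w) := by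
    intro e
    by_cases he : e ∈ s.divisors.filter (fun e => B < e)
    · rw [Finset.mem_filter, Nat.mem_divisors] at he
      obtain ⟨d, hd⟩ := a2_exists w B hB e he.2 (fun l hl => hw l (by
        rw [Nat.mem_primeFactors] at hl ⊢
        exact ⟨hl.1, hl.2.1.trans he.1.1, hs0⟩))
      exact ⟨d, fun _ => hd⟩
    · exact ⟨0, fun h => absurd h he⟩
  choose δ hδ using hex
  set F := s.divisors.filter (fun e => B < e) with hF
  set D := s.divisors.filter (fun d => B < d ∧ d ≤ B * w) with hD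
  have hFs : ∀ e ∈ F, e ∣ s := fun e he => (Nat.mem_divisors.mp (Finset.mem_filter.mp he).1).1
  have hmul : ∀ e ∈ F, δ e * (e / δ e) = e := fun e he => Nat.mul_div_cancel' (hδ e he).1
  have h1 : ∀ e ∈ F, Sieve.psi e = Sieve.psi (δ e) * Sieve.psi (e / δ e) := by
    intro e he
    have hsq : Squarefree (δ e * (e / δ e)) := by
      rw [hmul e he]
      exact hs.squarefree_of_dvd (hFs e he)
    have hco : Nat.Coprime (δ e) (e / δ e) := Nat.coprime_of_squarefree_mul hsq
    rw [← Sieve.psi_mult.map_mul_of_coprime hco, hmul e he]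
  rw [Finset.sum_congr rfl h1]
  have hinj : Set.InjOn (fun e => (δ e, e / δ e)) (F : Set ℕ) := by
    intro e he f hf hef
    have hef1 : δ e = δ f := congrArg Prod.fst hef
    have hef2 : e / δ e = f / δ f := congrArg Prod.snd hef
    calc e = δ e * (e / δ e) := (hmul e he).symm
      _ = δ f * (f / δ f) := by rw [hef2, hef1]
      _ = f := hmul f hf
  have h2 : ∑ e ∈ F, Sieve.psi (δ e) * Sieve.psi (e / δ e) =
      ∑ x ∈ F.image (fun e => (δ e, e / δ e)), Sieve.psi x.1 * Sieve.psi x.2 :=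
    (Finset.sum_image (f := fun x : ℕ × ℕ => Sieve.psi x.1 * Sieve.psi x.2) hinj).symm
  rw [h2, Finset.sum_mul_sum, ← Finset.sum_product']
  apply Finset.sum_le_sum_of_subset_of_nonneg
  · intro x hx
    rw [Finset.mem_image] at hx
    obtain ⟨e, he, rfl⟩ := hx
    obtain ⟨d1, d2, d3⟩ := hδ e he
    rw [Finset.mem_product, hD, Finset.mem_filter, Nat.mem_divisors, Nat.mem_divisors]
    exact ⟨⟨⟨d1.trans (hFs e he), hs0⟩, d2, d3⟩,
      ((Nat.div_dvd_of_dvd d1).trans (hFs e he)), hs0⟩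
  · intro x hx _
    rw [Finset.mem_product, hD, Finset.mem_filter, Nat.mem_divisors, Nat.mem_divisors] at hx
    exact mul_nonneg (Sieve.psi_nonneg_of_sq _ (hs.squarefree_of_dvd hx.1.1.1))
      (Sieve.psi_nonneg_of_sq _ (hs.squarefree_of_dvd hx.2.1))

end Pool.Agent.Lib.MP_d9bc60_nt.EN
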