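import Pool.Agent.Lib.MP_d9bc60_nt.EN.A2

/-! Row A3 (about 250 lines): average of `(v/φ(v))^4`, `v = M + u q`, over primes `q ≤ Y`. -/

set_option autoImplicit false

open Finset

namespace Pool.Agent.Lib.MP_d9bc60_nt.EN

lemma a3_class (u M d : ℕ) (h : Nat.Coprime u M) : ∃ a : ℕ, ∀ q : ℕ, d ∣ M + u * q → q ≡ a [MOD d] := by
  by_cases hex : ∃ q0, d ∣ M + u * q0
  · obtain ⟨q0, h0⟩ := hex
    refine ⟨q0, fun q hq => ?_⟩
    have hcop : Nat.gcd d u = 1 := by
      have h1 : Nat.gcd d u ∣ M := by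
        have h2 : Nat.gcd d u ∣ M + u * q0 := (Nat.gcd_dvd_left d u).trans h0
        have h3 : Nat.gcd d u ∣ u * q0 := (Nat.gcd_dvd_right d u).trans (dvd_mul_right _ _)
        exact (Nat.dvd_add_left h3).1 h2
      have h4 : Nat.gcd d u ∣ Nat.gcd u M := Nat.dvd_gcd (Nat.gcd_dvd_right d u) h1
      rw [Nat.coprime_iff_gcd_eq_one.1 h] at h4
      exact Nat.dvd_one.1 h4
    have h5 : M + u * q ≡ M + u * q0 [MOD d] :=
      ((Nat.modEq_zero_iff_dvd).2 hq).trans ((Nat.modEq_zero_iff_dvd).2 h0).symm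
    have h6 : u * q ≡ u * q0 [MOD d] := Nat.ModEq.add_left_cancel' M h5
    exact Nat.ModEq.cancel_left_of_coprime hcop h6
  · exact ⟨0, fun q hq => (hex ⟨q, hq⟩).elim⟩

lemma a3_sm_pf (w v : ℕ) : (sm w v).primeFactors = v.primeFactors.filter (· ≤ w) := by
  unfold sm
  exact Nat.primeFactors_prod (fun p hp => Nat.prime_of_mem_primeFactors (Finset.mem_filter.1 hp).1)

lemma a3_sm_ne (w v : ℕ) : sm w v ≠ 0 := by
  unfold sm
  rw [Finset.prod_ne_zero_iff]
  intro p hp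
  exact (Nat.prime_of_mem_primeFactors (Finset.mem_filter.1 hp).1).ne_zero

lemma a3_sm_sq (w v : ℕ) : Squarefree (sm w v) := by
  rcases Nat.eq_zero_or_pos v with h0 | h0
  · subst h0; simp [sm]
  have hr := Sieve.rk_props 1 v one_ne_zero
  refine Squarefree.squarefree_of_dvd ?_ hr.2.1
  unfold sm Sieve.rk
  apply Finset.prod_dvd_prod_of_subset
  intro p hp
  simpa using Finset.mem_of_mem_filter p hp

lemma a3_sm_dvd (w v : ℕ) : sm w v ∣ v := by
  unfold sm
  exact (Finset.prod_dvd_prod_of_subset _ _ _ (Finset.filter_subset _ _)).trans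
    (Nat.prod_primeFactors_dvd v)

lemma a3_part1 (Y w M u N₁ : ℕ)
    (hbt : ∀ N : ℕ, N₁ ≤ N → ∀ q a : ℕ, 0 < q → q * q ≤ N →
      (((Finset.Icc 1 N).filter (fun p => p.Prime ∧ p ≡ a [MOD q])).card : ℝ) ≤
        10 * (N : ℝ) / (q.totient * Real.log N))
    (hY1 : N₁ ≤ Y) (hY2 : 2 ≤ Y) (hw8 : w ^ 8 ≤ Y) (hM : 1 ≤ M) (hcop : Nat.Coprime u M) :
    ∑ q ∈ (Icc 1 Y).filter Nat.Prime,
      ∑ e ∈ (sm w (M + u * q)).divisors.filter (fun e => e ≤ w ^ 4), Sieve.psi e ≤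
      10 * Sieve.KK * (Y : ℝ) / Real.log Y := by
  classical
  set E := (Icc 1 (w ^ 4)).filter Squarefree with hE
  have hYR : (2 : ℝ) ≤ Y := by exact_mod_cast hY2
  have hlogpos : 0 < Real.log Y := Real.log_pos (by linarith)
  have hpsi : ∀ e ∈ E, 0 ≤ Sieve.psi e := fun e he =>
    Sieve.psi_nonneg_of_sq e (Finset.mem_filter.1 he).2
  have h1 : ∀ q ∈ (Icc 1 Y).filter Nat.Prime,
      ∑ e ∈ (sm w (M + u * q)).divisors.filter (fun e => e ≤ w ^ 4), Sieve.psi e ≤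
      ∑ e ∈ E, if e ∣ M + u * q then Sieve.psi e else 0 := by
    intro q _
    rw [← Finset.sum_filter]
    apply Finset.sum_le_sum_of_subset_of_nonneg
    · intro e he
      rw [Finset.mem_filter, Nat.mem_divisors] at he
      rw [Finset.mem_filter, hE, Finset.mem_filter, Finset.mem_Icc]
      refine ⟨⟨⟨Nat.pos_of_dvd_of_pos he.1.1 (Nat.pos_of_ne_zero he.1.2), he.2⟩,
        Squarefree.squarefree_of_dvd he.1.1 (a3_sm_sq _ _)⟩, he.1.1.trans (a3_sm_dvd _ _)⟩
    · intro e he _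
      exact hpsi e (Finset.mem_filter.1 he).1
  refine (Finset.sum_le_sum h1).trans ?_
  rw [Finset.sum_comm]
  have h2 : ∀ e ∈ E, ∑ q ∈ (Icc 1 Y).filter Nat.Prime,
      (if e ∣ M + u * q then Sieve.psi e else 0) ≤
      10 * (Y : ℝ) / Real.log Y * (Sieve.psi e * Sieve.iphi e) := by
    intro e he
    have he' := he
    rw [hE, Finset.mem_filter, Finset.mem_Icc] at he'
    obtain ⟨⟨he1, he2⟩, hsq⟩ := he'
    rw [← Finset.sum_filter, Finset.sum_const, nsmul_eq_mul, Finset.filter_filter]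
    obtain ⟨a, ha⟩ := a3_class u M e hcop
    have h3 : ((Icc 1 Y).filter (fun q => q.Prime ∧ e ∣ M + u * q)).card ≤
        ((Icc 1 Y).filter (fun q => q.Prime ∧ q ≡ a [MOD e])).card := by
      apply Finset.card_le_card
      intro q hq
      rw [Finset.mem_filter] at hq ⊢
      exact ⟨hq.1, hq.2.1, ha q hq.2.2⟩
    have hee : e * e ≤ Y := by
      calc e * e ≤ w ^ 4 * w ^ 4 := Nat.mul_le_mul he2 he2
        _ = w ^ 8 := by ring
        _ ≤ Y := hw8
    have h4 := hbt Y hY1 e a (by omega) hee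
    have h5 : (((Icc 1 Y).filter (fun q => q.Prime ∧ e ∣ M + u * q)).card : ℝ) ≤
        10 * (Y : ℝ) / (e.totient * Real.log Y) := by
      refine le_trans ?_ h4
      exact_mod_cast h3
    have h6 : 10 * (Y : ℝ) / (e.totient * Real.log Y) = 10 * (Y : ℝ) / Real.log Y * Sieve.iphi e := by
      rw [Sieve.iphi_apply]
      have : (e.totient : ℝ) ≠ 0 := by
        have := Nat.totient_pos.2 (show 0 < e by omega)
        positivity
      field_simp
    rw [h6] at h5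
    have h7 := mul_le_mul_of_nonneg_right h5 (hpsi e he)
    calc _ ≤ _ := h7
      _ = _ := by ring
  refine (Finset.sum_le_sum h2).trans ?_
  rw [← Finset.mul_sum]
  have h8 := Sieve.sum_psi_iphi (w ^ 4)
  calc 10 * (Y : ℝ) / Real.log Y * ∑ e ∈ E, Sieve.psi e * Sieve.iphi e
      ≤ 10 * (Y : ℝ) / Real.log Y * Sieve.KK := by
        apply mul_le_mul_of_nonneg_left h8; positivity
    _ = _ := by ring

lemma a3_part2 (Y w M u : ℕ) (hw : 1 ≤ w) (hw3 : w ^ 2 * w ≤ Y) (hM : 1 ≤ M)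
    (hcop : Nat.Coprime u M) :
    ∑ q ∈ (Icc 1 Y).filter Nat.Prime,
      ∑ d ∈ (sm w (M + u * q)).divisors.filter (fun d => w ^ 2 < d ∧ d ≤ w ^ 2 * w), Sieve.psi d ≤
      2 * Sieve.KK * (Y : ℝ) / w := by
  classical
  set E := ((Icc 1 (w ^ 2 * w)).filter Squarefree).filter (fun d => w ^ 2 < d) with hE
  have hwR : (1 : ℝ) ≤ w := by exact_mod_cast hw
  have hpsi : ∀ e ∈ E, 0 ≤ Sieve.psi e := fun e he =>
    Sieve.psi_nonneg_of_sq e (Finset.mem_filter.1 (Finset.mem_filter.1 he).1).2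
  have h1 : ∀ q ∈ (Icc 1 Y).filter Nat.Prime,
      ∑ d ∈ (sm w (M + u * q)).divisors.filter (fun d => w ^ 2 < d ∧ d ≤ w ^ 2 * w), Sieve.psi d ≤
      ∑ e ∈ E, if e ∣ M + u * q then Sieve.psi e else 0 := by
    intro q _
    rw [← Finset.sum_filter]
    apply Finset.sum_le_sum_of_subset_of_nonneg
    · intro e he
      rw [Finset.mem_filter, Nat.mem_divisors] at he
      rw [Finset.mem_filter, hE, Finset.mem_filter, Finset.mem_filter, Finset.mem_Icc]
      refine ⟨⟨⟨⟨Nat.pos_of_dvd_of_pos he.1.1 (Nat.pos_of_ne_zero he.1.2), he.2.2⟩,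
        Squarefree.squarefree_of_dvd he.1.1 (a3_sm_sq _ _)⟩, he.2.1⟩,
        he.1.1.trans (a3_sm_dvd _ _)⟩
    · intro e he _
      exact hpsi e (Finset.mem_filter.1 he).1
  refine (Finset.sum_le_sum h1).trans ?_
  rw [Finset.sum_comm]
  have h2 : ∀ e ∈ E, ∑ q ∈ (Icc 1 Y).filter Nat.Prime,
      (if e ∣ M + u * q then Sieve.psi e else 0) ≤
      2 * (Y : ℝ) / w * (Sieve.psi e * Sieve.sinv e) := by
    intro e he
    have he' := he
    rw [hE, Finset.mem_filter, Finset.mem_filter, Finset.mem_Icc] at he'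
    obtain ⟨⟨⟨he1, he2⟩, hsq⟩, he3⟩ := he'
    rw [← Finset.sum_filter, Finset.sum_const, nsmul_eq_mul, Finset.filter_filter]
    obtain ⟨a, ha⟩ := a3_class u M e hcop
    have h3 : ((Icc 1 Y).filter (fun q => q.Prime ∧ e ∣ M + u * q)).card ≤
        ((Icc 1 Y).filter (fun q => q ≡ a [MOD e])).card := by
      apply Finset.card_le_card
      intro q hq
      rw [Finset.mem_filter] at hq ⊢
      exact ⟨hq.1, ha q hq.2.2⟩
    have h4 := Sieve.count_ap Y e a (by omega)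
    rw [abs_le] at h4
    have heR : (0 : ℝ) < e := by exact_mod_cast (show 0 < e by omega)
    have heY : (e : ℝ) ≤ Y := by exact_mod_cast he2.trans hw3
    have h5 : (((Icc 1 Y).filter (fun q => q.Prime ∧ e ∣ M + u * q)).card : ℝ) ≤
        2 * (Y : ℝ) / e := by
      have h6 : (((Icc 1 Y).filter (fun q => q.Prime ∧ e ∣ M + u * q)).card : ℝ) ≤
        (((Icc 1 Y).filter (fun q => q ≡ a [MOD e])).card : ℝ) := by exact_mod_cast h3
      have h7 : (1 : ℝ) ≤ (Y : ℝ) / e := by rw [le_div_iff₀ heR]; linarith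
      have h8 : 2 * (Y : ℝ) / e = (Y : ℝ) / e + (Y : ℝ) / e := by ring
      rw [h8]; linarith [h4.2]
    have h9 : 2 * (Y : ℝ) / e ≤ 2 * (Y : ℝ) / w * Sieve.sinv e := by
      rw [Sieve.sinv_apply]
      have hs : (w : ℝ) ≤ Real.sqrt e := by
        apply Real.le_sqrt_of_sq_le
        have : ((w ^ 2 : ℕ) : ℝ) ≤ e := by exact_mod_cast he3.le
        push_cast at this
        exact this
      have hs0 : 0 < Real.sqrt e := Real.sqrt_pos.2 heR
      have hee : Real.sqrt e * Real.sqrt e = e := Real.mul_self_sqrt heR.le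
      rw [← div_eq_mul_inv, div_div]
      apply div_le_div_of_nonneg_left (by positivity) (by positivity)
      nlinarith
    have h10 := mul_le_mul_of_nonneg_right (h5.trans h9) (hpsi e he)
    calc _ ≤ _ := h10
      _ = _ := by ring
  refine (Finset.sum_le_sum h2).trans ?_
  rw [← Finset.mul_sum]
  have h8 := Sieve.sum_psi_sinv (w ^ 2 * w)
  have h9 : ∑ e ∈ E, Sieve.psi e * Sieve.sinv e ≤ Sieve.KK := by
    refine le_trans ?_ h8
    apply Finset.sum_le_sum_of_subset_of_nonneg (Finset.filter_subset _ _)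
    intro e he _
    have h10 := Sieve.psi_nonneg_of_sq e (Finset.mem_filter.1 he).2
    have h11 : 0 ≤ Sieve.sinv e := by rw [Sieve.sinv_apply]; positivity
    positivity
  calc 2 * (Y : ℝ) / w * ∑ e ∈ E, Sieve.psi e * Sieve.sinv e
      ≤ 2 * (Y : ℝ) / w * Sieve.KK := by
        apply mul_le_mul_of_nonneg_left h9; positivity
    _ = _ := by ring

/-- `w = ⌊Y^{1/8}⌋`. By `rphi_le_small` it is enough to bound `∑_q ∑_{e ∣ sm w v} ψ(e)`, `v = M + u q`.
(i) `e ≤ √Y` (`e * e ≤ Y`): `e ∣ M + u q` forces `gcd(e,u) = 1` (as `gcd(u,M) = 1`), so `q` is in one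
class modulo `e`: at most `10 Y/(φ(e) log Y)` primes `q ≤ Y` (`Sieve.bt`), and
`∑ ψ(e)/φ(e) ≤ KK` (`Sieve.sum_psi_iphi`).
(ii) `e > √Y`: so `e > B := ⌊Y^{1/4}⌋`, `sum_large_divisors` and `sum_psi_sm_le` bound the sum over these
`e` by `C (log Y)^4 ∑_{d ∣ v, B < d ≤ B w} ψ(d)`, `B w ≤ Y^{3/8}`. The number of integers `q ≤ Y` with
`d ∣ M + u q` is at most `Y/d + 1 ≤ 2 Y/d`, and `1/d ≤ (1/√d) B^{-1/2}`, so the total is at most
`C (log Y)^4 2 Y B^{-1/2} ∑ ψ(d)/√d ≤ C' (log Y)^4 Y^{7/8 + ..} ≤ Y/log Y` (`Sieve.sum_psi_sinv`;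
`B ≥ Y^{1/4}/2`). -/
theorem avg_coprime : ∃ C : ℝ, 0 < C ∧ ∃ Y₀ : ℕ, ∀ Y : ℕ, Y₀ ≤ Y → ∀ M u : ℕ, 1 ≤ M → 1 ≤ u →
    Nat.Coprime u M → Real.log ((M : ℝ) + u * Y) ≤ 2 * (Y : ℝ) * Real.log Y →
    ∑ q ∈ (Icc 1 Y).filter Nat.Prime, (Sieve.rphi (M + u * q)) ^ 4 ≤ C * (Y : ℝ) / Real.log Y := by
  classical
  obtain ⟨C₁, hC₁, h1⟩ := rphi_le_small
  obtain ⟨C₂, hC₂, h2⟩ := sum_psi_sm_le
  obtain ⟨N₁, -, hbt⟩ := Sieve.bt
  have hKK := Sieve.KK_pos
  -- asymptotics: `2 (log Y)^5 ≤ Y^{1/8}`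
  have hasym : ∀ᶠ x : ℝ in Filter.atTop, 2 * Real.log x ^ 5 ≤ x ^ (1 / 8 : ℝ) := by
    have h := isLittleO_log_rpow_rpow_atTop (s := 1 / 8) 5 (by norm_num)
    have h' := h.bound (c := 1 / 2) (by norm_num)
    filter_upwards [h', Filter.eventually_ge_atTop 1] with x hx hx1
    have hl : 0 ≤ Real.log x := Real.log_nonneg hx1
    rw [Real.norm_of_nonneg (by positivity), Real.norm_of_nonneg (by positivity)] at hx
    have : Real.log x ^ (5 : ℝ) = Real.log x ^ 5 := by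
      rw [← Real.rpow_natCast]; norm_num
    rw [this] at hx
    linarith
  rw [Filter.eventually_atTop] at hasym
  obtain ⟨X₀, hX₀⟩ := hasym
  refine ⟨C₁ * (10 * Sieve.KK + 2 * C₂ * Sieve.KK), by positivity,
    max (max N₁ 256) ⌈X₀⌉₊, ?_⟩
  intro Y hY M u hM hu hcop hlogv
  have hYN : N₁ ≤ Y := (le_max_left _ _).trans ((le_max_left _ _).trans hY)
  have hY256 : 256 ≤ Y := (le_max_right _ _).trans ((le_max_left _ _).trans hY)
  have hYX : X₀ ≤ (Y : ℝ) := (Nat.le_ceil X₀).trans (by exact_mod_cast (le_max_right _ _).trans hY)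
  have hYR : (256 : ℝ) ≤ Y := by exact_mod_cast hY256
  have hY0 : (0 : ℝ) < Y := by linarith
  have hlogpos : 0 < Real.log Y := Real.log_pos (by linarith)
  set w := ⌊(Y : ℝ) ^ (1 / 8 : ℝ)⌋₊ with hw
  set x := (Y : ℝ) ^ (1 / 8 : ℝ) with hx
  have hx8 : x ^ 8 = Y := by
    rw [hx, ← Real.rpow_natCast, ← Real.rpow_mul hY0.le]; norm_num
  have hxpos : 0 < x := by rw [hx]; positivity
  have hx2 : 2 ≤ x := by
    by_contra hcon
    push Not at hcon
    have : x ^ 8 < 2 ^ 8 := by gcongr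
    rw [hx8] at this
    norm_num at this
    linarith
  have hw2 : 2 ≤ w := Nat.le_floor (by exact_mod_cast hx2)
  have hwx : (w : ℝ) ≤ x := Nat.floor_le hxpos.le
  have hxw : x < (w : ℝ) + 1 := Nat.lt_floor_add_one x
  have hw8 : w ^ 8 ≤ Y := by
    have : (w : ℝ) ^ 8 ≤ x ^ 8 := by gcongr
    rw [hx8] at this
    exact_mod_cast this
  have hYw : Y ≤ (w + 1) ^ 8 := by
    have : x ^ 8 ≤ ((w : ℝ) + 1) ^ 8 := by gcongr
    rw [hx8] at this
    exact_mod_cast this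
  have hw1 : 1 ≤ w := by omega
  have hwY : w ≤ Y := (Nat.le_self_pow (by norm_num) w).trans hw8
  have hw3 : w ^ 2 * w ≤ Y := by
    calc w ^ 2 * w = w ^ 3 := by ring
      _ ≤ w ^ 8 := Nat.pow_le_pow_right hw1 (by norm_num)
      _ ≤ Y := hw8
  have hwR : (1 : ℝ) ≤ w := by exact_mod_cast hw1
  have hlogw0 : 0 ≤ Real.log w := Real.log_nonneg hwR
  have hlogw : Real.log w ≤ Real.log Y := Real.log_le_log (by linarith) (by exact_mod_cast hwY)
  -- pointwise bound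
  have h3 : ∀ q ∈ (Icc 1 Y).filter Nat.Prime, (Sieve.rphi (M + u * q)) ^ 4 ≤
      C₁ * ((∑ e ∈ (sm w (M + u * q)).divisors.filter (fun e => e ≤ w ^ 4), Sieve.psi e) +
        C₂ * Real.log w ^ 4 * ∑ d ∈ (sm w (M + u * q)).divisors.filter
          (fun d => w ^ 2 < d ∧ d ≤ w ^ 2 * w), Sieve.psi d) := by
    intro q hq
    rw [Finset.mem_filter, Finset.mem_Icc] at hq
    have hv0 : 0 < M + u * q := by omega
    have hlv : Real.log ((M + u * q : ℕ) : ℝ) ≤ 2 * (Y : ℝ) * Real.log Y := by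
      refine le_trans (Real.log_le_log (by exact_mod_cast hv0) ?_) hlogv
      push_cast
      have : (q : ℝ) ≤ Y := by exact_mod_cast hq.1.2
      have hu0 : (0 : ℝ) ≤ u := by positivity
      nlinarith
    have h4 := h1 Y w (M + u * q) hw2 hwY hYw hv0 hlv
    refine h4.trans ?_
    apply mul_le_mul_of_nonneg_left _ hC₁.le
    rw [← Finset.sum_filter_add_sum_filter_not (sm w (M + u * q)).divisors (fun e => e ≤ w ^ 4)]
    apply add_le_add le_rfl
    have h5 : ∑ e ∈ (sm w (M + u * q)).divisors.filter (fun e => ¬ e ≤ w ^ 4), Sieve.psi e ≤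
        ∑ e ∈ (sm w (M + u * q)).divisors.filter (fun e => w ^ 2 < e), Sieve.psi e := by
      apply Finset.sum_le_sum_of_subset_of_nonneg
      · intro e he
        rw [Finset.mem_filter] at he ⊢
        refine ⟨he.1, ?_⟩
        have : w ^ 2 ≤ w ^ 4 := Nat.pow_le_pow_right hw1 (by norm_num)
        omega
      · intro e he _
        rw [Finset.mem_filter, Nat.mem_divisors] at he
        exact Sieve.psi_nonneg_of_sq e (Squarefree.squarefree_of_dvd he.1.1 (a3_sm_sq _ _))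
    have h6 := sum_large_divisors (sm w (M + u * q)) w (w ^ 2) (a3_sm_sq _ _) (by
      intro l hl
      rw [a3_sm_pf, Finset.mem_filter] at hl
      exact hl.2) (Nat.one_le_pow _ _ hw1)
    have h7 := h2 w (M + u * q) hw2 hv0
    have h8 : 0 ≤ ∑ d ∈ (sm w (M + u * q)).divisors.filter
          (fun d => w ^ 2 < d ∧ d ≤ w ^ 2 * w), Sieve.psi d := by
      apply Finset.sum_nonneg
      intro e he
      rw [Finset.mem_filter, Nat.mem_divisors] at he
      exact Sieve.psi_nonneg_of_sq e (Squarefree.squarefree_of_dvd he.1.1 (a3_sm_sq _ _))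
    calc _ ≤ _ := h5
      _ ≤ _ := h6
      _ ≤ (∑ d ∈ (sm w (M + u * q)).divisors.filter
          (fun d => w ^ 2 < d ∧ d ≤ w ^ 2 * w), Sieve.psi d) * (C₂ * Real.log w ^ 4) :=
          mul_le_mul_of_nonneg_left h7 h8
      _ = _ := by ring
  refine (Finset.sum_le_sum h3).trans ?_
  rw [← Finset.mul_sum, Finset.sum_add_distrib, ← Finset.mul_sum]
  have h9 := a3_part1 Y w M u N₁ hbt hYN (by omega) hw8 hM hcop
  have h10 := a3_part2 Y w M u hw1 hw3 hM hcop
  have h11 : C₂ * Real.log w ^ 4 * (2 * Sieve.KK * (Y : ℝ) / w) ≤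
      2 * C₂ * Sieve.KK * (Y : ℝ) / Real.log Y := by
    have h12 := hX₀ Y hYX
    have h13 : Real.log Y ^ 5 ≤ w := by
      have : x ≤ 2 * w := by linarith
      nlinarith
    have h14 : Real.log w ^ 4 ≤ Real.log Y ^ 4 := by gcongr
    have hw0 : (0 : ℝ) < w := by linarith
    rw [mul_div_assoc', div_le_div_iff₀ hw0 hlogpos]
    have h15 : Real.log w ^ 4 * Real.log Y ≤ w := by
      calc Real.log w ^ 4 * Real.log Y ≤ Real.log Y ^ 4 * Real.log Y := by gcongr
        _ = Real.log Y ^ 5 := by ring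
        _ ≤ w := h13
    have h16 : 0 ≤ 2 * C₂ * Sieve.KK * (Y : ℝ) := by positivity
    nlinarith [mul_le_mul_of_nonneg_left h15 h16]
  have h17 : C₂ * Real.log w ^ 4 * ∑ q ∈ (Icc 1 Y).filter Nat.Prime,
      ∑ d ∈ (sm w (M + u * q)).divisors.filter (fun d => w ^ 2 < d ∧ d ≤ w ^ 2 * w), Sieve.psi d ≤
      C₂ * Real.log w ^ 4 * (2 * Sieve.KK * (Y : ℝ) / w) := by
    apply mul_le_mul_of_nonneg_left h10; positivity
  calc _ ≤ C₁ * (10 * Sieve.KK * (Y : ℝ) / Real.log Y +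
        2 * C₂ * Sieve.KK * (Y : ℝ) / Real.log Y) := by
        apply mul_le_mul_of_nonneg_left _ hC₁.le
        exact add_le_add h9 (h17.trans h11)
    _ = _ := by ring

/-- If `p ∤ N` use `avg_coprime` with `M = N`, `u = p`. If `N = p M`: `rphi (p (M + q)) ≤ 2 rphi (M + q)`
(`Sieve.rphi_mul_le`) and `avg_coprime` with `u = 1`. `log (N + p Y) ≤ log (2 N) ≤ 2 Y log Y`. -/
theorem avg_form : ∃ C : ℝ, 0 < C ∧ ∃ Y₀ : ℕ, ∀ Y : ℕ, Y₀ ≤ Y → ∀ N p : ℕ, p.Prime → p ≤ Y →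
    Y * Y ≤ N → Real.log N ≤ (Y : ℝ) * Real.log Y →
    ∑ q ∈ (Icc 1 Y).filter Nat.Prime, (Sieve.rphi (N + p * q)) ^ 4 ≤ C * (Y : ℝ) / Real.log Y := by
  classical
  obtain ⟨C, hC, Y₀, h⟩ := avg_coprime
  refine ⟨16 * C, by positivity, max Y₀ 3, ?_⟩
  intro Y hY N p hp hpY hYN hlog
  have hY0 : Y₀ ≤ Y := (le_max_left _ _).trans hY
  have hY3 : 3 ≤ Y := (le_max_right _ _).trans hY
  have hYR : (3 : ℝ) ≤ Y := by exact_mod_cast hY3
  have hlogpos : 1 ≤ Real.log Y := by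
    rw [Real.le_log_iff_exp_le (by linarith)]
    have := Real.exp_one_lt_d9
    linarith
  have hNpos : 0 < N := lt_of_lt_of_le (by positivity) hYN
  have hNR : (0 : ℝ) < N := by exact_mod_cast hNpos
  have hYNR : (Y : ℝ) * Y ≤ N := by exact_mod_cast hYN
  have hlog2 : Real.log (2 * (N : ℝ)) ≤ 2 * (Y : ℝ) * Real.log Y := by
    rw [Real.log_mul (by norm_num) hNR.ne']
    have h1 := Real.log_two_lt_d9
    nlinarith
  by_cases hpN : p ∣ N
  · obtain ⟨M, rfl⟩ := hpN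
    have hM : 1 ≤ M := Nat.one_le_iff_ne_zero.2 (by rintro rfl; simp at hNpos)
    have hMR : (1 : ℝ) ≤ M := by exact_mod_cast hM
    have hp1 : (1 : ℝ) ≤ p := by exact_mod_cast hp.one_le
    have hMN : (M : ℝ) ≤ ((p * M : ℕ) : ℝ) := by push_cast; nlinarith
    have h1 := h Y hY0 M 1 hM le_rfl (Nat.coprime_one_left M) (by
      refine le_trans (Real.log_le_log (by positivity) ?_) hlog2
      push_cast at hMN hYNR ⊢
      nlinarith)
    have h2 : ∀ q ∈ (Icc 1 Y).filter Nat.Prime, (Sieve.rphi (p * M + p * q)) ^ 4 ≤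
        16 * (Sieve.rphi (M + 1 * q)) ^ 4 := by
      intro q hq
      have e1 : p * M + p * q = p * (M + 1 * q) := by ring
      rw [e1]
      have h3 := Sieve.rphi_mul_le p (M + 1 * q) hp.pos (by omega)
      have h4 : Sieve.rphi p ≤ 2 := by
        rw [Sieve.rphi_prime p hp]
        have : (2 : ℝ) ≤ p := by exact_mod_cast hp.two_le
        rw [← div_eq_mul_inv, div_le_iff₀ (by linarith)]
        linarith
      have h5 := Sieve.rphi_nonneg (M + 1 * q)
      have h6 := Sieve.rphi_nonneg (p * (M + 1 * q))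
      calc (Sieve.rphi (p * (M + 1 * q))) ^ 4 ≤ (2 * Sieve.rphi (M + 1 * q)) ^ 4 := by
            gcongr
            exact h3.trans (by gcongr)
        _ = _ := by ring
    refine (Finset.sum_le_sum h2).trans ?_
    rw [← Finset.mul_sum]
    calc 16 * ∑ q ∈ (Icc 1 Y).filter Nat.Prime, (Sieve.rphi (M + 1 * q)) ^ 4
        ≤ 16 * (C * (Y : ℝ) / Real.log Y) := by
          apply mul_le_mul_of_nonneg_left h1; norm_num
      _ = _ := by ring
  · have hcop : Nat.Coprime p N := (Nat.Prime.coprime_iff_not_dvd hp).2 hpN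
    have h1 := h Y hY0 N p hNpos hp.one_le hcop (by
      refine le_trans (Real.log_le_log (by positivity) ?_) hlog2
      have hpYR : (p : ℝ) ≤ Y := by exact_mod_cast hpY
      nlinarith)
    refine h1.trans ?_
    have : 0 ≤ C * (Y : ℝ) / Real.log Y := by positivity
    have e : 16 * C * (Y : ℝ) / Real.log Y = 16 * (C * (Y : ℝ) / Real.log Y) := by ring
    rw [e]; linarith

end Pool.Agent.Lib.MP_d9bc60_nt.EN
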