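import Pool.Agent.Lib.MP_d9bc60_nt.EN.Defs

/-! Row B1 (about 120 lines): upper bound for the number of pairs in a block. -/

set_option autoImplicit false

open Finset

namespace Pool.Agent.Lib.MP_d9bc60_nt.EN

/-- Number of primes up to `x`, from `Sieve.bt` or Mathlib (auxiliary form). -/
theorem b1_primes : ∃ U₀ : ℕ, 3 ≤ U₀ ∧ ∀ U : ℕ, U₀ ≤ U →
    (((Ioc U (2 * U)).filter Nat.Prime).card : ℝ) ≤ 20 * (U : ℝ) / Real.log U := by
  obtain ⟨N₀, hN₀, hbt⟩ := Sieve.bt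
  refine ⟨max 3 N₀, le_max_left _ _, fun U hU => ?_⟩
  have hU3 : 3 ≤ U := (le_max_left _ _).trans hU
  have hUN : N₀ ≤ U := (le_max_right _ _).trans hU
  have h1 := hbt (2 * U) (by omega) 1 0 one_pos (by omega)
  have hsub : (Ioc U (2 * U)).filter Nat.Prime ⊆
      (Finset.Icc 1 (2 * U)).filter (fun p => p.Prime ∧ p ≡ 0 [MOD 1]) := by
    intro p hp
    rw [Finset.mem_filter, Finset.mem_Ioc] at hp
    rw [Finset.mem_filter, Finset.mem_Icc]
    exact ⟨⟨by omega, hp.1.2⟩, hp.2, Nat.modEq_one⟩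
  have h2 : (((Ioc U (2 * U)).filter Nat.Prime).card : ℝ) ≤
      (((Finset.Icc 1 (2 * U)).filter (fun p => p.Prime ∧ p ≡ 0 [MOD 1])).card : ℝ) := by
    exact_mod_cast Finset.card_le_card hsub
  have hU3' : (3 : ℝ) ≤ U := by exact_mod_cast hU3
  have hlog : 0 < Real.log U := Real.log_pos (by linarith)
  have hlog2 : Real.log U ≤ Real.log (2 * U) := Real.log_le_log (by linarith) (by linarith)
  calc (((Ioc U (2 * U)).filter Nat.Prime).card : ℝ) ≤ _ := h2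
    _ ≤ 10 * ((2 * U : ℕ) : ℝ) / (Nat.totient 1 * Real.log ((2 * U : ℕ) : ℝ)) := h1
    _ = 20 * (U : ℝ) / Real.log (2 * U) := by
        rw [Nat.totient_one]
        push_cast
        ring_nf
    _ ≤ 20 * (U : ℝ) / Real.log U := by
        apply div_le_div_of_nonneg_left (by positivity) hlog hlog2

/-- For each prime `p ∈ (U, 2U]`: `p ∣ N - m`, `m ≤ N`, means `m ≡ N mod p`; `Sieve.bt` (`p² ≤ N`) gives at
most `10 N/((p-1) log N) ≤ 10 N/(U log N)` primes `m`. The number of primes `p ≤ 2U` is at most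
`20 U/log U` (`Sieve.bt` with modulus `1`, `U` large). -/
theorem TA_le : ∃ C : ℝ, 0 < C ∧ ∃ U₀ : ℕ, 3 ≤ U₀ ∧ ∀ N U : ℕ, U₀ ≤ U → (2 * U) ^ 2 ≤ N →
    (TA N U : ℝ) ≤ C * (N : ℝ) / (Real.log N * Real.log U) := by
  classical
  obtain ⟨N₀, hN₀, hbt⟩ := Sieve.bt
  obtain ⟨U₁, hU₁, hpr⟩ := b1_primes
  refine ⟨200, by norm_num, max U₁ N₀, hU₁.trans (le_max_left _ _), fun N U hU hUN => ?_⟩
  have hU1 : U₁ ≤ U := (le_max_left _ _).trans hU
  have hU0 : N₀ ≤ U := (le_max_right _ _).trans hU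
  have hU3 : 3 ≤ U := hU₁.trans hU1
  have hNU : U ≤ N := by nlinarith
  have hU3' : (3 : ℝ) ≤ U := by exact_mod_cast hU3
  have hN3' : (3 : ℝ) ≤ N := hU3'.trans (by exact_mod_cast hNU)
  have hlogU : 0 < Real.log U := Real.log_pos (by linarith)
  have hlogN : 0 < Real.log N := Real.log_pos (by linarith)
  have h1 : (TA N U : ℝ) ≤ ∑ p ∈ (Ioc U (2 * U)).filter Nat.Prime, 10 * (N : ℝ) / (U * Real.log N) := by
    have h2 : TA N U ≤ ∑ p ∈ (Ioc U (2 * U)).filter Nat.Prime,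
        ((Finset.Icc 1 N).filter (fun m => m.Prime ∧ m ≡ N [MOD p])).card := by
      rw [TA]
      rw [← Finset.card_sigma]
      refine Finset.card_le_card_of_injOn (fun x : ℕ × ℕ => (⟨x.2, x.1⟩ : (_ : ℕ) × ℕ)) ?_ ?_
      · intro x hx
        simp only [Finset.coe_filter, Finset.mem_product, Finset.mem_Icc, Finset.mem_Ioc,
          Set.mem_ofPred_eq] at hx
        simp only [Finset.coe_sigma, Set.mem_sigma_iff, Finset.coe_filter, Finset.mem_Icc,
          Finset.mem_Ioc, Set.mem_ofPred_eq]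
        obtain ⟨⟨⟨a1, a2⟩, a3, a4⟩, a5, a6, a7⟩ := hx
        exact ⟨⟨⟨a3, a4⟩, a6⟩, ⟨a1, a2⟩, a5, (Nat.modEq_iff_dvd' a2).2 a7⟩
      · intro x _ y _ hxy
        simp only [Sigma.mk.injEq, heq_eq_eq] at hxy
        exact Prod.ext hxy.2 hxy.1
    have h3 : (TA N U : ℝ) ≤ ∑ p ∈ (Ioc U (2 * U)).filter Nat.Prime,
        (((Finset.Icc 1 N).filter (fun m => m.Prime ∧ m ≡ N [MOD p])).card : ℝ) := by
      exact_mod_cast h2
    refine h3.trans (Finset.sum_le_sum fun p hp => ?_)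
    rw [Finset.mem_filter, Finset.mem_Ioc] at hp
    obtain ⟨⟨hp1, hp2⟩, hpp⟩ := hp
    have h4 := hbt N (hU0.trans hNU) p N hpp.pos (by nlinarith)
    refine h4.trans ?_
    rw [Nat.totient_prime hpp]
    have h5 : (U : ℝ) ≤ ((p - 1 : ℕ) : ℝ) := by exact_mod_cast (by omega : U ≤ p - 1)
    apply div_le_div_of_nonneg_left (by positivity) (by positivity)
    exact mul_le_mul_of_nonneg_right h5 hlogN.le
  have h6 := hpr U hU1
  calc (TA N U : ℝ) ≤ _ := h1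
    _ = (((Ioc U (2 * U)).filter Nat.Prime).card : ℝ) * (10 * (N : ℝ) / (U * Real.log N)) := by
        rw [Finset.sum_const, nsmul_eq_mul]
    _ ≤ (20 * (U : ℝ) / Real.log U) * (10 * (N : ℝ) / (U * Real.log N)) :=
        mul_le_mul_of_nonneg_right h6 (by positivity)
    _ = 200 * (N : ℝ) / (Real.log N * Real.log U) := by
        field_simp
        ring

/-- `TT ≤ TA` -/
theorem TT_le_TA (N U a : ℕ) : TT N U a ≤ TA N U := by
  classical
  rw [TT, TA]
  apply Finset.card_le_card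
  intro x hx
  rw [Finset.mem_filter, Finset.mem_product, Finset.mem_Icc] at hx ⊢
  obtain ⟨⟨⟨a1, a2⟩, a3⟩, a5, -, a6, a7⟩ := hx
  exact ⟨⟨⟨by omega, by omega⟩, a3⟩, a5, a6, a7⟩

/-- Number of primes up to `x`, from `Sieve.bt` or Mathlib. -/
theorem card_primes_le : ∃ U₀ : ℕ, 3 ≤ U₀ ∧ ∀ U : ℕ, U₀ ≤ U →
    (((Ioc U (2 * U)).filter Nat.Prime).card : ℝ) ≤ 20 * (U : ℝ) / Real.log U :=
  b1_primes

end Pool.Agent.Lib.MP_d9bc60_nt.EN
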