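import Pool.Agent.Lib.MP_d9bc60_nt.EN.P1

/-! Row P2 (about 120 lines): the pair sieve, clean form. -/

set_option autoImplicit false

open Finset

namespace Pool.Agent.Lib.MP_d9bc60_nt.EN

lemma p2_rphi_one_le (v : ℕ) (hv : 0 < v) : 1 ≤ Sieve.rphi v := by
  rw [Sieve.rphi_apply]
  have ht : (0 : ℝ) < v.totient := by exact_mod_cast Nat.totient_pos.2 hv
  have : (v.totient : ℝ) ≤ v := by exact_mod_cast Nat.totient_le v
  rw [← div_eq_mul_inv, le_div_iff₀ ht]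
  linarith

lemma p2_rphi_prime (p : ℕ) (hp : p.Prime) : Sieve.rphi p ≤ 2 := by
  rw [Sieve.rphi_prime p hp]
  have : (2 : ℝ) ≤ p := by exact_mod_cast hp.two_le
  rw [← div_eq_mul_inv, div_le_iff₀ (by linarith)]
  linarith

/-- `X = (N - q² - 1)/q` (natural division), so `q (q+b) < N ↔ b ≤ X` and `√N ≤ N/(2q) ≤ X ≤ N/q`
(`q⁴ ≤ N`, `N` large). `y = ⌊X^{1/16}⌋` as in `Sieve.pp` (Clean.lean): `log (y+1) ≥ (log X)/16 ≥ (log N)/32`,
`2 y² + y⁸ ≤ 3 X^{1/2} ≤ X/log² X`. And `rphi(2 p q (q-p)(N+pq)) ≤ 8 rphi(q-p) rphi(N+pq)`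
(`Sieve.rphi_mul_le`, `rphi 2 = 2`, `rphi p = p/(p-1) ≤ 2`), `(8 a b)² ≤ 32 (a⁴ + b⁴)`, `a, b ≥ 1`. -/
theorem pair_clean : ∃ C : ℝ, 0 < C ∧ ∃ N₀ : ℕ, ∀ N : ℕ, N₀ ≤ N → ∀ p q : ℕ, p.Prime → q.Prime →
    p < q → q ^ 4 ≤ N →
    (((Icc 1 N).filter fun b => q * (q + b) < N ∧ (N - p * (p + b)).Prime ∧
      (N - q * (q + b)).Prime).card : ℝ) ≤
      C * ((N : ℝ) / q) / (Real.log N) ^ 2 *
        ((Sieve.rphi (q - p)) ^ 4 + (Sieve.rphi (N + p * q)) ^ 4) := by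
  classical
  obtain ⟨N₀, hN₀, hlog⟩ := Sieve.log_le_rpow
  refine ⟨32771, by norm_num, max N₀ 3, ?_⟩
  intro N hN p q hp hq hpq hq4
  have hN2 : N₀ ≤ N := (le_max_left _ _).trans hN
  have hN3 : 3 ≤ N := (le_max_right _ _).trans hN
  have hNR : (3 : ℝ) ≤ N := by exact_mod_cast hN3
  have hNpos : (0 : ℝ) < N := by linarith
  have hL := hlog N hN2
  have hlogpos : 0 < Real.log N := Real.log_pos (by linarith)
  have hq2 := hq.two_le
  have hq0 : 0 < q := hq.pos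
  have hqR : (2 : ℝ) ≤ q := by exact_mod_cast hq2
  have hqq : q * q + 1 ≤ N := by
    have h1 : q ^ 4 = (q * q) * (q * q) := by ring
    have h2 : 4 ≤ q * q := Nat.mul_le_mul hq2 hq2
    nlinarith
  set X := (N - q * q - 1) / q with hX
  have hqX : q * q + q * X < N := by
    have := Nat.mul_div_le (N - q * q - 1) q
    rw [← hX] at this
    omega
  set y := ⌊(N : ℝ) ^ (1 / 32 : ℝ)⌋₊ with hy
  set v := (N : ℝ) ^ (1 / 32 : ℝ) with hv
  have h1 : (1 : ℝ) ≤ v := Real.one_le_rpow (by linarith) (by norm_num)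
  have hy1 : 1 ≤ y := Nat.one_le_floor_iff _ |>.2 h1
  have hyle : (y : ℝ) ≤ v := Nat.floor_le (by positivity)
  have hlty : v < (y : ℝ) + 1 := Nat.lt_floor_add_one _
  have hlogy : (1 / 32 : ℝ) * Real.log N ≤ Real.log ((y : ℝ) + 1) := by
    rw [← Real.log_rpow hNpos]
    exact Real.log_le_log (by positivity) hlty.le
  have hmain := pair_forms N p q X y hp hq hpq hqX hy1
  -- the set
  have hset : (((Icc 1 N).filter fun b => q * (q + b) < N ∧ (N - p * (p + b)).Prime ∧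
      (N - q * (q + b)).Prime).card : ℝ) ≤
      (((Icc 1 X).filter fun b => (N - p * (p + b)).Prime ∧ (N - q * (q + b)).Prime).card : ℝ) := by
    have : ((Icc 1 N).filter fun b => q * (q + b) < N ∧ (N - p * (p + b)).Prime ∧
      (N - q * (q + b)).Prime) ⊆
      ((Icc 1 X).filter fun b => (N - p * (p + b)).Prime ∧ (N - q * (q + b)).Prime) := by
      intro b hb
      rw [Finset.mem_filter, Finset.mem_Icc] at hb ⊢
      refine ⟨⟨hb.1.1, ?_⟩, hb.2.2⟩
      rw [hX, Nat.le_div_iff_mul_le hq0]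
      have h3 : q * (q + b) = q * q + b * q := by ring
      have := hb.2.1
      omega
    exact_mod_cast Finset.card_le_card this
  -- the ratio
  set a := Sieve.rphi (q - p) with ha
  set b := Sieve.rphi (N + p * q) with hb
  have ha1 : 1 ≤ a := p2_rphi_one_le _ (by omega)
  have hb1 : 1 ≤ b := p2_rphi_one_le _ (by omega)
  have hR : Sieve.rphi (2 * p * q * (q - p) * (N + p * q)) ≤ 8 * a * b := by
    have hqp : 0 < q - p := by omega
    have hp0 := hp.pos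
    have e1 := Sieve.rphi_mul_le (2 * p * q * (q - p)) (N + p * q) (by positivity) (by positivity)
    have e2 := Sieve.rphi_mul_le (2 * p * q) (q - p) (by positivity) hqp
    have e3 := Sieve.rphi_mul_le (2 * p) q (by positivity) hq0
    have e4 := Sieve.rphi_mul_le 2 p (by norm_num) hp0
    have f1 := p2_rphi_prime 2 Nat.prime_two
    have f2 := p2_rphi_prime p hp
    have f3 := p2_rphi_prime q hq
    have g1 := Sieve.rphi_nonneg 2
    have g2 := Sieve.rphi_nonneg p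
    have g3 := Sieve.rphi_nonneg q
    have g4 := Sieve.rphi_nonneg (2 * p)
    have g5 := Sieve.rphi_nonneg (2 * p * q)
    have k1 : Sieve.rphi (2 * p) ≤ 4 := by nlinarith
    have k2 : Sieve.rphi (2 * p * q) ≤ 8 := by nlinarith
    have k3 : Sieve.rphi (2 * p * q * (q - p)) ≤ 8 * a := by
      refine e2.trans ?_
      apply mul_le_mul_of_nonneg_right k2; linarith
    refine e1.trans ?_
    apply mul_le_mul_of_nonneg_right k3; linarith
  have hR0 := Sieve.rphi_nonneg (2 * p * q * (q - p) * (N + p * q))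
  have hR2 : (Sieve.rphi (2 * p * q * (q - p) * (N + p * q))) ^ 2 ≤ 32 * (a ^ 4 + b ^ 4) := by
    have h2 : (Sieve.rphi (2 * p * q * (q - p) * (N + p * q))) ^ 2 ≤ (8 * a * b) ^ 2 := by gcongr
    nlinarith [sq_nonneg (a ^ 2 - b ^ 2)]
  have hab : 1 ≤ a ^ 4 + b ^ 4 := by
    have : 1 ≤ a ^ 4 := one_le_pow₀ ha1
    have : 0 ≤ b ^ 4 := by positivity
    linarith
  have hXle : (X : ℝ) ≤ (N : ℝ) / q := by
    rw [le_div_iff₀ (by linarith)]
    have : X * q ≤ N := by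
      have := hqX
      nlinarith
    exact_mod_cast this
  have e1 : (X : ℝ) * (Sieve.rphi (2 * p * q * (q - p) * (N + p * q))) ^ 2 /
        (Real.log ((y : ℝ) + 1)) ^ 2 ≤
      32768 * ((N : ℝ) / q) / (Real.log N) ^ 2 * (a ^ 4 + b ^ 4) := by
    have a2 : ((1 / 32 : ℝ) * Real.log N) ^ 2 ≤ (Real.log ((y : ℝ) + 1)) ^ 2 := by gcongr
    calc (X : ℝ) * (Sieve.rphi (2 * p * q * (q - p) * (N + p * q))) ^ 2 /
        (Real.log ((y : ℝ) + 1)) ^ 2
        ≤ ((N : ℝ) / q) * (32 * (a ^ 4 + b ^ 4)) / ((1 / 32 : ℝ) * Real.log N) ^ 2 := by gcongr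
      _ = 32768 * ((N : ℝ) / q) / (Real.log N) ^ 2 * (a ^ 4 + b ^ 4) := by
          field_simp
          ring
  -- errors
  set w := (N : ℝ) ^ (1 / 8 : ℝ) with hw
  have hroot : w ^ 8 = (N : ℝ) := by
    rw [hw, ← Real.rpow_natCast, ← Real.rpow_mul hNpos.le]
    norm_num
  have hsm : v ^ 4 = w := by
    rw [hw, hv, ← Real.rpow_natCast, ← Real.rpow_mul hNpos.le]
    norm_num
  have hw1 : 1 ≤ w := Real.one_le_rpow (by linarith) (by norm_num)
  have hqw : (q : ℝ) ≤ w ^ 2 := by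
    have h2 : (q : ℝ) ^ 4 ≤ (w ^ 2) ^ 4 := by
      have : ((q ^ 4 : ℕ) : ℝ) ≤ N := by exact_mod_cast hq4
      push_cast at this
      calc (q : ℝ) ^ 4 ≤ N := this
        _ = (w ^ 2) ^ 4 := by rw [← hroot]; ring
    exact le_of_pow_le_pow_left₀ (by norm_num) (by positivity) h2
  have e2 : w ^ 4 ≤ ((N : ℝ) / q) / (Real.log N) ^ 2 := by
    rw [le_div_iff₀ (by positivity), le_div_iff₀ (by linarith)]
    calc w ^ 4 * (Real.log N) ^ 2 * q ≤ w ^ 4 * w ^ 2 * w ^ 2 := by gcongr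
      _ = w ^ 8 := by ring
      _ = N := hroot
  have e3 : (y : ℝ) ^ 2 ≤ w ^ 4 := by
    calc (y : ℝ) ^ 2 ≤ v ^ 2 := by gcongr
      _ ≤ v ^ 4 := pow_le_pow_right₀ h1 (by norm_num)
      _ = w ^ 1 := by rw [hsm]; ring
      _ ≤ w ^ 4 := pow_le_pow_right₀ hw1 (by norm_num)
  have e4 : (y : ℝ) ^ 8 ≤ w ^ 4 := by
    calc (y : ℝ) ^ 8 ≤ v ^ 8 := by gcongr
      _ = (v ^ 4) ^ 2 := by ring
      _ = w ^ 2 := by rw [hsm]
      _ ≤ w ^ 4 := pow_le_pow_right₀ hw1 (by norm_num)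
  have e5 : ((N : ℝ) / q) / (Real.log N) ^ 2 ≤
      ((N : ℝ) / q) / (Real.log N) ^ 2 * (a ^ 4 + b ^ 4) := by
    have : 0 ≤ ((N : ℝ) / q) / (Real.log N) ^ 2 := by positivity
    nlinarith
  calc (((Icc 1 N).filter fun b => q * (q + b) < N ∧ (N - p * (p + b)).Prime ∧
      (N - q * (q + b)).Prime).card : ℝ) ≤ _ := hset
    _ ≤ _ := hmain
    _ ≤ 32768 * ((N : ℝ) / q) / (Real.log N) ^ 2 * (a ^ 4 + b ^ 4) +
        3 * (((N : ℝ) / q) / (Real.log N) ^ 2 * (a ^ 4 + b ^ 4)) := by linarith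
    _ = _ := by ring

end Pool.Agent.Lib.MP_d9bc60_nt.EN
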