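import Pool.Agent.Lib.MP_d9bc60_nt.EN.B1
import Pool.Agent.Lib.MP_d9bc60_nt.EN.P2
import Pool.Agent.Lib.MP_d9bc60_nt.EN.A3

/-! Row B2 (about 220 lines): second moment. -/

set_option autoImplicit false

open Finset

namespace Pool.Agent.Lib.MP_d9bc60_nt.EN

/-- the primes counted by `rU` -/
def b2_F (N U b : ℕ) : Finset ℕ :=
  (Ioc U (2 * U)).filter fun p => p.Prime ∧ p * (p + b) < N ∧ (N - p * (p + b)).Prime

theorem b2_rU (N U b : ℕ) : rU N U b = (b2_F N U b).card := rfl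

theorem b2_mem {N U b p : ℕ} (h : p ∈ b2_F N U b) :
    (U < p ∧ p ≤ 2 * U) ∧ p.Prime ∧ p * (p + b) < N ∧ (N - p * (p + b)).Prime := by
  unfold b2_F at h
  rw [Finset.mem_filter, Finset.mem_Ioc] at h
  exact h

theorem b2_sq (F : Finset ℕ) :
    F.card ^ 2 ≤ F.card + 2 * ((F ×ˢ F).filter fun x : ℕ × ℕ => x.1 < x.2).card := by
  have h1 : (F ×ˢ F) ⊆ (F.image fun p => (p, p)) ∪
      (((F ×ˢ F).filter fun x : ℕ × ℕ => x.1 < x.2) ∪
        ((F ×ˢ F).filter fun x : ℕ × ℕ => x.1 < x.2).image Prod.swap) := by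
    rintro ⟨p, q⟩ h
    rw [Finset.mem_product] at h
    rw [Finset.mem_union, Finset.mem_union]
    rcases lt_trichotomy p q with hlt | heq | hgt
    · right; left
      rw [Finset.mem_filter, Finset.mem_product]
      exact ⟨h, hlt⟩
    · left
      rw [Finset.mem_image]
      refine ⟨p, h.1, ?_⟩
      rw [heq]
    · right; right
      rw [Finset.mem_image]
      refine ⟨(q, p), ?_, rfl⟩
      rw [Finset.mem_filter, Finset.mem_product]
      exact ⟨⟨h.2, h.1⟩, hgt⟩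
  have h2 := Finset.card_le_card h1
  have h3 := Finset.card_union_le (F.image fun p => (p, p))
    (((F ×ˢ F).filter fun x : ℕ × ℕ => x.1 < x.2) ∪
        ((F ×ˢ F).filter fun x : ℕ × ℕ => x.1 < x.2).image Prod.swap)
  have h4 := Finset.card_union_le ((F ×ˢ F).filter fun x : ℕ × ℕ => x.1 < x.2)
    (((F ×ˢ F).filter fun x : ℕ × ℕ => x.1 < x.2).image Prod.swap)
  have h5 : (F.image fun p => (p, p)).card ≤ F.card := Finset.card_image_le
  have h6 : (((F ×ˢ F).filter fun x : ℕ × ℕ => x.1 < x.2).image Prod.swap).card ≤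
    ((F ×ˢ F).filter fun x : ℕ × ℕ => x.1 < x.2).card := Finset.card_image_le
  rw [Finset.card_product] at h2
  rw [sq]
  omega

/-- the first moment -/
theorem b2_first (N U : ℕ) : ∑ b ∈ Icc 1 N, (b2_F N U b).card ≤ TA N U := by
  rw [← Finset.card_sigma]
  unfold TA
  apply Finset.card_le_card_of_injOn
    (fun x : (Σ _ : ℕ, ℕ) => ((N - x.2 * (x.2 + x.1), x.2) : ℕ × ℕ))
  · rintro ⟨b, p⟩ hx
    rw [Finset.mem_coe, Finset.mem_sigma] at hx
    obtain ⟨hb, hp⟩ := hx
    have hp' := b2_mem hp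
    simp only at hb hp'
    rw [Finset.mem_coe, Finset.mem_filter, Finset.mem_product, Finset.mem_Icc, Finset.mem_Ioc]
    refine ⟨⟨⟨?_, ?_⟩, hp'.1⟩, hp'.2.2.2, hp'.2.1, ?_⟩
    · have := hp'.2.2.1
      simp only
      omega
    · exact Nat.sub_le _ _
    · simp only
      rw [Nat.sub_sub_self hp'.2.2.1.le]
      exact Dvd.intro _ rfl
  · rintro ⟨b, p⟩ hx ⟨b', p'⟩ hx' heq
    rw [Finset.mem_coe, Finset.mem_sigma] at hx hx'
    have hp := b2_mem hx.2
    have hp' := b2_mem hx'.2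
    simp only [Prod.mk.injEq] at heq hp hp'
    obtain ⟨h1, h2⟩ := heq
    subst h2
    have h3 : p * (p + b) = p * (p + b') := by
      have := hp.2.2.1
      have := hp'.2.2.1
      omega
    have h4 : p + b = p + b' := Nat.eq_of_mul_eq_mul_left hp.2.1.pos h3
    have h5 : b = b' := by omega
    rw [h5]

/-- the pairs -/
theorem b2_pairs (N U : ℕ) :
    ∑ b ∈ Icc 1 N, ((b2_F N U b ×ˢ b2_F N U b).filter fun x : ℕ × ℕ => x.1 < x.2).card ≤
      ∑ x ∈ (((Ioc U (2 * U)).filter Nat.Prime) ×ˢ ((Ioc U (2 * U)).filter Nat.Prime)).filter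
        (fun x : ℕ × ℕ => x.1 < x.2),
        ((Icc 1 N).filter fun b => x.2 * (x.2 + b) < N ∧ (N - x.1 * (x.1 + b)).Prime ∧
          (N - x.2 * (x.2 + b)).Prime).card := by
  rw [← Finset.card_sigma, ← Finset.card_sigma]
  apply Finset.card_le_card_of_injOn
    (fun x : (Σ _ : ℕ, ℕ × ℕ) => (⟨x.2, x.1⟩ : Σ _ : ℕ × ℕ, ℕ))
  · rintro ⟨b, p, q⟩ hx
    rw [Finset.mem_coe, Finset.mem_sigma, Finset.mem_filter, Finset.mem_product] at hx
    obtain ⟨hb, ⟨hp, hq⟩, hpq⟩ := hx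
    have hp' := b2_mem hp
    have hq' := b2_mem hq
    simp only at hb hp' hq' hpq
    rw [Finset.mem_coe, Finset.mem_sigma, Finset.mem_filter, Finset.mem_product,
      Finset.mem_filter, Finset.mem_filter, Finset.mem_filter, Finset.mem_Ioc, Finset.mem_Ioc]
    exact ⟨⟨⟨⟨hp'.1, hp'.2.1⟩, ⟨hq'.1, hq'.2.1⟩⟩, hpq⟩, hb, hq'.2.2.1, hp'.2.2.2, hq'.2.2.2⟩
  · rintro ⟨b, p⟩ _ ⟨b', p'⟩ _ heq
    simp only [Sigma.mk.injEq, heq_eq_eq] at heq
    rw [heq.1, heq.2]

theorem b2_log (L U : ℝ) (hL : 1 < L) (hU : 1 < U) (h : L * Real.log L ≤ U) :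
    L * Real.log U ≤ 4 * U := by
  have hlogL : 0 < Real.log L := Real.log_pos hL
  have hlogU : 0 < Real.log U := Real.log_pos hU
  by_cases hc : Real.log U ≤ 2 * Real.log L
  · nlinarith
  · push Not at hc
    have hU0 : 0 < U := by linarith
    have h1 : L < Real.sqrt U := by
      have h2 : Real.log (L ^ 2) < Real.log U := by
        rw [Real.log_pow]
        push_cast
        exact hc
      have h3 : L ^ 2 < U := (Real.log_lt_log_iff (by positivity) hU0).1 h2
      exact (Real.lt_sqrt (by linarith)).2 h3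
    have h4 : Real.log U ≤ 2 * Real.sqrt U := by
      have h5 : Real.log (Real.sqrt U) ≤ Real.sqrt U - 1 :=
        Real.log_le_sub_one_of_pos (Real.sqrt_pos.2 hU0)
      rw [Real.log_sqrt hU0.le] at h5
      linarith
    have h6 : Real.sqrt U * Real.sqrt U = U := Real.mul_self_sqrt hU0.le
    have h7 : 0 < Real.sqrt U := Real.sqrt_pos.2 hU0
    calc L * Real.log U ≤ Real.sqrt U * (2 * Real.sqrt U) :=
          mul_le_mul h1.le h4 hlogU.le h7.le
      _ = 2 * (Real.sqrt U * Real.sqrt U) := by ring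
      _ = 2 * U := by rw [h6]
      _ ≤ 4 * U := by linarith

/-- `∑_b rU² = ∑_b rU + 2 ∑_{p<q} #{b : both prime}` (`p, q ∈ (U, 2U]`; if `q (q+b) < N` then
`p (p+b) < N`). First sum: `(b, p) ↦ (m, p)`, `m = N - p(p+b)`, is injective into the set of `TA N U`,
so it is `≤ C N/(log N log U) ≤ C N U/(log N log U)²`, because `log N log U ≤ 4 U`
(`U ≥ log N log log N`: for `U ≤ log² N`, `log U ≤ 2 log log N`; for `U ≥ log² N`, `log N ≤ √U` and
`log U ≤ 2 √U`). Second: `pair_clean` (`(2U)⁴ ≤ N`), `N/q ≤ N/U`,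
`∑_p ∑_q rphi(q-p)⁴ ≤ 20 (U/log U) · 14 KK (2U)/log (2U)` (`Sieve.avg` with `t = p`) and the same for
`rphi (N + p q)⁴` (`avg_form` with `Y = 2U`; `log N ≤ Y log Y`). -/
theorem second : ∃ C : ℝ, 0 < C ∧ ∃ N₀ : ℕ, ∀ N : ℕ, N₀ ≤ N → ∀ U : ℕ,
    Real.log N * Real.log (Real.log N) ≤ U → (2 * U) ^ 4 ≤ N →
    ∑ b ∈ Icc 1 N, ((rU N U b : ℝ)) ^ 2 ≤ C * (N : ℝ) * U / (Real.log N * Real.log U) ^ 2 := by
  obtain ⟨C₁, hC₁, U₁, hU₁, hTA⟩ := TA_le
  obtain ⟨U₂, hU₂, hcard⟩ := card_primes_le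
  obtain ⟨C₂, hC₂, N₂, hpair⟩ := pair_clean
  obtain ⟨C₃, hC₃, Y₃, hform⟩ := avg_form
  obtain ⟨Y₄, hY₄, havg⟩ := Sieve.avg
  have hKK : 0 < Sieve.KK := Real.exp_pos _
  set M : ℝ := max 3 (max (U₁ : ℝ) (max (U₂ : ℝ) (max (Y₃ : ℝ) (Y₄ : ℝ)))) with hM
  refine ⟨4 * C₁ + 80 * C₂ * (14 * Sieve.KK + C₃), by positivity, max N₂ ⌈Real.exp M⌉₊, ?_⟩
  intro N hN U hU hUN
  have hN2 : N₂ ≤ N := (le_max_left _ _).trans hN
  have hNe : Real.exp M ≤ N := (Nat.le_ceil _).trans (by exact_mod_cast (le_max_right _ _).trans hN)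
  have hN0 : (0 : ℝ) < N := (Real.exp_pos _).trans_le hNe
  have hLM : M ≤ Real.log N := by
    rw [← Real.log_exp M]
    exact Real.log_le_log (Real.exp_pos _) hNe
  have hM3 : (3 : ℝ) ≤ M := le_max_left _ _
  set L : ℝ := Real.log N with hL
  have hL3 : 3 ≤ L := hM3.trans hLM
  have hlogL : 1 ≤ Real.log L := by
    rw [Real.le_log_iff_exp_le (by linarith)]
    have := Real.exp_one_lt_d9
    linarith
  have hUL : L ≤ U := by nlinarith
  have hUM : M ≤ U := hLM.trans hUL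
  have hU3 : (3 : ℝ) ≤ U := hM3.trans hUM
  have hU1' : U₁ ≤ U := by
    have : (U₁ : ℝ) ≤ U := le_trans (le_trans (le_max_left _ _) (le_max_right _ _)) hUM
    exact_mod_cast this
  have hU2' : U₂ ≤ U := by
    have : (U₂ : ℝ) ≤ U := le_trans (le_trans (le_trans (le_max_left _ _) (le_max_right _ _))
      (le_max_right _ _)) hUM
    exact_mod_cast this
  have hY3' : Y₃ ≤ U := by
    have : (Y₃ : ℝ) ≤ U := le_trans (le_trans (le_trans (le_trans (le_max_left _ _)
      (le_max_right _ _)) (le_max_right _ _)) (le_max_right _ _)) hUM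
    exact_mod_cast this
  have hY4' : Y₄ ≤ U := by
    have : (Y₄ : ℝ) ≤ U := le_trans (le_trans (le_trans (le_trans (le_max_right _ _)
      (le_max_right _ _)) (le_max_right _ _)) (le_max_right _ _)) hUM
    exact_mod_cast this
  have hUpos : 0 < U := by
    have : (0 : ℝ) < U := by linarith
    exact_mod_cast this
  have hU2N : (2 * U) ^ 2 ≤ N := le_trans (Nat.pow_le_pow_right (by omega) (by norm_num)) hUN
  have hlogU : 1 ≤ Real.log U := by
    rw [Real.le_log_iff_exp_le (by linarith)]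
    have := Real.exp_one_lt_d9
    linarith
  have hlog2U : Real.log U ≤ Real.log ((2 * U : ℕ) : ℝ) := by
    apply Real.log_le_log (by linarith)
    push_cast
    linarith
  -- first moment
  have hfirst : ∑ b ∈ Icc 1 N, ((b2_F N U b).card : ℝ) ≤
      4 * C₁ * (N : ℝ) * U / (L * Real.log U) ^ 2 := by
    have h1 : ∑ b ∈ Icc 1 N, ((b2_F N U b).card : ℝ) ≤ (TA N U : ℝ) := by
      exact_mod_cast b2_first N U
    have h2 := hTA N U hU1' hU2N
    have h3 := b2_log L U (by linarith) (by linarith) hU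
    refine h1.trans (h2.trans ?_)
    have hLU : 0 < L * Real.log U := by positivity
    rw [div_le_div_iff₀ hLU (by positivity)]
    have : 0 ≤ C₁ * (N : ℝ) * (L * Real.log U) := by positivity
    nlinarith
  -- pairs
  set P := (Ioc U (2 * U)).filter Nat.Prime with hP
  have hpairs : ∑ b ∈ Icc 1 N,
      (((b2_F N U b ×ˢ b2_F N U b).filter fun x : ℕ × ℕ => x.1 < x.2).card : ℝ) ≤
      40 * C₂ * (14 * Sieve.KK + C₃) * (N : ℝ) * U / (L * Real.log U) ^ 2 := by
    have h1 : ∑ b ∈ Icc 1 N,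
        (((b2_F N U b ×ˢ b2_F N U b).filter fun x : ℕ × ℕ => x.1 < x.2).card : ℝ) ≤
        ∑ x ∈ (P ×ˢ P).filter (fun x : ℕ × ℕ => x.1 < x.2),
        (((Icc 1 N).filter fun b => x.2 * (x.2 + b) < N ∧ (N - x.1 * (x.1 + b)).Prime ∧
          (N - x.2 * (x.2 + b)).Prime).card : ℝ) := by
      exact_mod_cast b2_pairs N U
    have h2 : ∀ x ∈ (P ×ˢ P).filter (fun x : ℕ × ℕ => x.1 < x.2),
        (((Icc 1 N).filter fun b => x.2 * (x.2 + b) < N ∧ (N - x.1 * (x.1 + b)).Prime ∧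
          (N - x.2 * (x.2 + b)).Prime).card : ℝ) ≤
        C₂ * ((N : ℝ) / U) / L ^ 2 *
          ((Sieve.rphi (x.2 - x.1)) ^ 4 + (Sieve.rphi (N + x.1 * x.2)) ^ 4) := by
      rintro ⟨p, q⟩ hx
      rw [Finset.mem_filter, Finset.mem_product, hP, Finset.mem_filter, Finset.mem_filter,
        Finset.mem_Ioc, Finset.mem_Ioc] at hx
      obtain ⟨⟨⟨⟨hp1, hp2⟩, hp⟩, ⟨⟨hq1, hq2⟩, hq⟩⟩, hpq⟩ := hx
      simp only at hp1 hp2 hp hq1 hq2 hq hpq ⊢
      have h3 := hpair N hN2 p q hp hq hpq (le_trans (Nat.pow_le_pow_left hq2 4) hUN)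
      refine h3.trans ?_
      have h4 : (0 : ℝ) ≤ (Sieve.rphi (q - p)) ^ 4 + (Sieve.rphi (N + p * q)) ^ 4 := by positivity
      apply mul_le_mul_of_nonneg_right _ h4
      apply div_le_div_of_nonneg_right _ (by positivity)
      apply mul_le_mul_of_nonneg_left _ hC₂.le
      apply div_le_div_of_nonneg_left hN0.le (by linarith)
      exact_mod_cast hq1.le
    refine h1.trans ((Finset.sum_le_sum h2).trans ?_)
    rw [← Finset.mul_sum]
    -- inner sums
    have h5 : ∀ p ∈ P, ∑ q ∈ P, (if p < q then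
        ((Sieve.rphi (q - p)) ^ 4 + (Sieve.rphi (N + p * q)) ^ 4) else 0) ≤
        (14 * Sieve.KK + C₃) * ((2 * U : ℕ) : ℝ) / Real.log ((2 * U : ℕ) : ℝ) := by
      intro p hp
      have hp' := hp
      rw [hP, Finset.mem_filter, Finset.mem_Ioc] at hp'
      have hY : Y₃ ≤ 2 * U := by omega
      have hY' : Y₄ ≤ 2 * U := by omega
      have ha := havg (2 * U) hY' (p : ℤ) (by
        rw [abs_of_nonneg (by positivity)]
        have := hp'.1.2
        push_cast
        omega)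
      have hb := hform (2 * U) hY N p hp'.2 hp'.1.2 (by
        calc 2 * U * (2 * U) = (2 * U) ^ 2 := by ring
          _ ≤ N := hU2N) (by
        have h7 : (1 : ℝ) ≤ Real.log ((2 * U : ℕ) : ℝ) := hlogU.trans hlog2U
        push_cast at h7 ⊢
        nlinarith)
      have h6 : ∑ q ∈ P, (if p < q then
          ((Sieve.rphi (q - p)) ^ 4 + (Sieve.rphi (N + p * q)) ^ 4) else 0) ≤
          ∑ p' ∈ (Finset.Icc 1 (2 * U)).filter (fun p' : ℕ => p'.Prime ∧ (p' : ℤ) ≠ (p : ℤ)),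
            (Sieve.rphi ((p' : ℤ) - (p : ℤ)).natAbs) ^ 4 +
          ∑ q ∈ (Icc 1 (2 * U)).filter Nat.Prime, (Sieve.rphi (N + p * q)) ^ 4 := by
        rw [← Finset.sum_filter, Finset.sum_add_distrib]
        apply add_le_add
        · have h8 : ∑ q ∈ P.filter (fun q => p < q), (Sieve.rphi (q - p)) ^ 4 =
              ∑ q ∈ P.filter (fun q => p < q), (Sieve.rphi ((q : ℤ) - (p : ℤ)).natAbs) ^ 4 := by
            refine Finset.sum_congr rfl fun q hq => ?_
            rw [Finset.mem_filter] at hq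
            have : ((q : ℤ) - (p : ℤ)).natAbs = q - p := by omega
            rw [this]
          rw [h8]
          apply Finset.sum_le_sum_of_subset_of_nonneg
          · intro q hq
            rw [Finset.mem_filter, hP, Finset.mem_filter, Finset.mem_Ioc] at hq
            rw [Finset.mem_filter, Finset.mem_Icc]
            refine ⟨⟨hq.1.2.pos, hq.1.1.2⟩, hq.1.2, ?_⟩
            have := hq.2
            omega
          · intro q _ _
            positivity
        · apply Finset.sum_le_sum_of_subset_of_nonneg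
          · intro q hq
            rw [Finset.mem_filter, hP, Finset.mem_filter, Finset.mem_Ioc] at hq
            rw [Finset.mem_filter, Finset.mem_Icc]
            exact ⟨⟨hq.1.2.pos, hq.1.1.2⟩, hq.1.2⟩
          · intro q _ _
            positivity
      calc _ ≤ _ := h6
        _ ≤ 14 * Sieve.KK * ((2 * U : ℕ) : ℝ) / Real.log ((2 * U : ℕ) : ℝ) +
            C₃ * ((2 * U : ℕ) : ℝ) / Real.log ((2 * U : ℕ) : ℝ) := add_le_add ha hb
        _ = _ := by ring
    have h9 : ∑ x ∈ (P ×ˢ P).filter (fun x : ℕ × ℕ => x.1 < x.2),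
        ((Sieve.rphi (x.2 - x.1)) ^ 4 + (Sieve.rphi (N + x.1 * x.2)) ^ 4) ≤
        (20 * (U : ℝ) / Real.log U) * ((14 * Sieve.KK + C₃) * (2 * U) / Real.log U) := by
      rw [Finset.sum_filter, Finset.sum_product]
      refine (Finset.sum_le_sum h5).trans ?_
      rw [Finset.sum_const, nsmul_eq_mul]
      have hc := hcard U hU2'
      rw [← hP] at hc
      apply mul_le_mul hc _ (by positivity) (by positivity)
      have h10 : (14 * Sieve.KK + C₃) * ((2 * U : ℕ) : ℝ) / Real.log ((2 * U : ℕ) : ℝ) ≤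
          (14 * Sieve.KK + C₃) * ((2 * U : ℕ) : ℝ) / Real.log U :=
        div_le_div_of_nonneg_left (by positivity) (by linarith) hlog2U
      refine h10.trans (le_of_eq ?_)
      push_cast
      ring
    calc C₂ * ((N : ℝ) / U) / L ^ 2 * ∑ x ∈ (P ×ˢ P).filter (fun x : ℕ × ℕ => x.1 < x.2),
        ((Sieve.rphi (x.2 - x.1)) ^ 4 + (Sieve.rphi (N + x.1 * x.2)) ^ 4)
        ≤ C₂ * ((N : ℝ) / U) / L ^ 2 *
          ((20 * (U : ℝ) / Real.log U) * ((14 * Sieve.KK + C₃) * (2 * U) / Real.log U)) := by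
          apply mul_le_mul_of_nonneg_left h9
          positivity
      _ = 40 * C₂ * (14 * Sieve.KK + C₃) * (N : ℝ) * U / (L * Real.log U) ^ 2 := by
          have hU0 : (U : ℝ) ≠ 0 := by linarith
          have hlU0 : Real.log U ≠ 0 := by linarith
          have hL0 : L ≠ 0 := by linarith
          field_simp
          ring
  -- conclusion
  have hsq : ∀ b ∈ Icc 1 N, ((rU N U b : ℝ)) ^ 2 ≤ ((b2_F N U b).card : ℝ) +
      2 * (((b2_F N U b ×ˢ b2_F N U b).filter fun x : ℕ × ℕ => x.1 < x.2).card : ℝ) := by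
    intro b _
    rw [b2_rU]
    exact_mod_cast b2_sq (b2_F N U b)
  refine (Finset.sum_le_sum hsq).trans ?_
  rw [Finset.sum_add_distrib, ← Finset.mul_sum]
  calc _ ≤ 4 * C₁ * (N : ℝ) * U / (L * Real.log U) ^ 2 +
      2 * (40 * C₂ * (14 * Sieve.KK + C₃) * (N : ℝ) * U / (L * Real.log U) ^ 2) :=
        add_le_add hfirst (mul_le_mul_of_nonneg_left hpairs (by norm_num))
    _ = _ := by ring

end Pool.Agent.Lib.MP_d9bc60_nt.EN
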