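import Pool.Agent.Lib.MP_d9bc60_nt.EN.Defs

/-! Row B3 (about 200 lines): from pairs `(m, p)` to pairs `(b, p)`. -/

set_option autoImplicit false

open Finset

namespace Pool.Agent.Lib.MP_d9bc60_nt.EN

lemma b3_exists (N U m p : ℕ) (hU : 3 ≤ U) (hN : 16 * U ^ 2 ≤ N)
    (hm : m ≤ N / 2) (hp1 : U < p) (hp2 : p ≤ 2 * U) (hd : p ∣ N - m) :
    ∃ b : ℕ, 1 ≤ b ∧ p * (p + b) = N - m ∧ m + p * (p + b) = N ∧ N ≤ 8 * U * b ∧ U * b ≤ N ∧
      b ≤ N ∧ (N - m) / p - p = b := by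
  obtain ⟨k, hk⟩ := hd
  have hp0 : 0 < p := by omega
  have h2m : 2 * m ≤ N := by omega
  have hmN : m ≤ N := by omega
  have h1 : m + p * k = N := by omega
  have h2 : N ≤ 2 * (p * k) := by omega
  have hpp : p * p ≤ (2 * U) * (2 * U) := Nat.mul_le_mul hp2 hp2
  have h3 : 2 * (p * p) ≤ p * k := by nlinarith
  have h4 : 2 * p ≤ k := by
    have : p * (2 * p) ≤ p * k := by nlinarith
    exact Nat.le_of_mul_le_mul_left this hp0
  obtain ⟨b, rfl⟩ : ∃ b, k = p + b := ⟨k - p, by omega⟩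
  have hb1 : 1 ≤ b := by omega
  refine ⟨b, hb1, hk.symm, h1, ?_, ?_, ?_, ?_⟩
  · have h5 : N ≤ 4 * U * (p + b) := by nlinarith
    nlinarith
  · nlinarith
  · nlinarith
  · rw [hk, Nat.mul_div_cancel_left _ hp0]
    omega

lemma b3_mod (N m p b a : ℕ) (hm : m.Prime) (hm3 : 3 ≤ m) (hp : p.Prime) (hp3 : 3 < p)
    (h : m + p * (p + b) = N) (hma : m % 3 = a) (ha : (a + 1) % 3 ≠ N % 3) :
    b % 2 = N % 2 ∧ ¬ 3 ∣ b := by
  have hm2 : m % 2 = 1 := by
    rcases hm.eq_two_or_odd with h1 | h1 <;> omega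
  have hp2 : p % 2 = 1 := by
    rcases hp.eq_two_or_odd with h1 | h1 <;> omega
  constructor
  · have h1 : N % 2 = (m % 2 + (p % 2) * ((p % 2 + b % 2) % 2) % 2) % 2 := by
      rw [← h]; simp [Nat.add_mod, Nat.mul_mod]
    rw [h1, hm2, hp2]
    have : b % 2 = 0 ∨ b % 2 = 1 := by omega
    rcases this with h2 | h2 <;> rw [h2]
  · intro hb
    apply ha
    have hb0 : b % 3 = 0 := Nat.mod_eq_zero_of_dvd hb
    have h1 : N % 3 = (m % 3 + (p % 3) * ((p % 3 + b % 3) % 3) % 3) % 3 := by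
      rw [← h]; simp [Nat.add_mod, Nat.mul_mod]
    have hp30 : p % 3 ≠ 0 := by
      intro h0
      have := (Nat.prime_dvd_prime_iff_eq Nat.prime_three hp).1 (Nat.dvd_of_mod_eq_zero h0)
      omega
    have : p % 3 = 1 ∨ p % 3 = 2 := by omega
    rw [h1, hma, hb0]
    rcases this with h2 | h2 <;> rw [h2]

lemma b3_factor (N m p b : ℕ) (hm : m.Prime) (h : m + p * (p + b) = N) (hb : 1 ≤ b)
    (hx : ∃ x : ℤ, x ^ 2 + (b : ℤ) * x = (N : ℤ)) : N = (p + 1) * (p + 1 + b) := by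
  have hm0 : 0 < m := hm.pos
  have hN0 : (0 : ℤ) < N := by
    have : 0 < N := by omega
    exact_mod_cast this
  obtain ⟨x, hx⟩ := hx
  have hcast : (m : ℤ) + p * (p + b) = N := by exact_mod_cast h
  have hb' : (1 : ℤ) ≤ b := by exact_mod_cast hb
  -- positive root
  obtain ⟨y, hy0, hy⟩ : ∃ y : ℤ, 0 < y ∧ y ^ 2 + (b : ℤ) * y = (N : ℤ) := by
    by_cases hx0 : 0 < x
    · exact ⟨x, hx0, hx⟩
    · push Not at hx0
      refine ⟨-b - x, ?_, by rw [← hx]; ring⟩
      by_contra hcon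
      push Not at hcon
      have h1 : x ^ 2 + (b : ℤ) * x = x * (x + b) := by ring
      have h2 : x * (x + b) ≤ 0 := mul_nonpos_of_nonpos_of_nonneg hx0 (by linarith)
      linarith
  have hp0 : (0 : ℤ) ≤ p := by positivity
  have hfac : (m : ℤ) = (y - p) * (y + p + b) := by
    have : (m : ℤ) = N - p * (p + b) := by linarith
    rw [this, ← hy]; ring
  have hpos2 : 0 < y + p + b := by linarith
  have hpos1 : 0 < y - p := by
    by_contra hcon
    push Not at hcon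
    have : (y - p) * (y + p + b) ≤ 0 := mul_nonpos_of_nonpos_of_nonneg hcon hpos2.le
    have : (0 : ℤ) < m := by exact_mod_cast hm0
    linarith
  obtain ⟨u, hu⟩ : ∃ u : ℕ, (u : ℤ) = y - p := ⟨(y - p).toNat, Int.toNat_of_nonneg hpos1.le⟩
  obtain ⟨v, hv⟩ : ∃ v : ℕ, (v : ℤ) = y + p + b := ⟨(y + p + b).toNat, Int.toNat_of_nonneg hpos2.le⟩
  have hmuv : m = u * v := by
    have : (m : ℤ) = u * v := by rw [hu, hv]; exact hfac
    exact_mod_cast this
  have hv2 : 2 ≤ v := by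
    have : (2 : ℤ) ≤ v := by rw [hv]; linarith
    exact_mod_cast this
  have hu1 : u = 1 := by
    rw [hmuv] at hm
    rcases Nat.prime_mul_iff.1 hm with h1 | h1
    · omega
    · exact h1.2
  have hy1 : y = p + 1 := by
    rw [hu1] at hu
    push_cast at hu
    linarith
  have : (N : ℤ) = (p + 1) * (p + 1 + b) := by rw [← hy, hy1]; ring
  exact_mod_cast this

/-- For a pair `(m, p)` counted by `TT N U a` put `b = (N - m)/p - p`. Then `m = N - p (p + b)`,
`N ≤ 8 U b`, `U b ≤ N` (`p ≤ 2U`, `16 U² ≤ N`), `b % 2 = N % 2` (`m`, `p` odd), `¬ 3 ∣ b`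
(`p b = N - m - p² ≡ N - a - 1 mod 3`, `p ≠ 3`, and `(a+1) % 3 ≠ N % 3`). If `b` is not admissible then
`N = x² + b x`, `x > 0` without loss (else replace `x` by `-b-x`), `m = (x-p)(x+p+b)` is prime, so
`x = p+1` and `m = 2p+1+b`, `N = (p+1)(p+1+b)`: for given `p` at most one `m`; these pairs are at most
`U`. The remaining pairs inject into the pairs `(b, p)` counted on the right. -/
theorem TT_le_sum (N U a : ℕ) (hU : 3 ≤ U) (hN : 16 * U ^ 2 ≤ N) (ha : (a + 1) % 3 ≠ N % 3) :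
    (TT N U a : ℝ) ≤ U +
      ∑ b ∈ (Icc 1 N).filter (fun b => N ≤ 8 * U * b ∧ U * b ≤ N ∧ adm N b), (rU N U b : ℝ) := by
  classical
  set S := ((Icc 3 (N / 2)) ×ˢ (Ioc U (2 * U))).filter fun x : ℕ × ℕ =>
    x.1.Prime ∧ x.1 % 3 = a ∧ x.2.Prime ∧ x.2 ∣ N - x.1 with hS
  set bb : ℕ × ℕ → ℕ := fun x => (N - x.1) / x.2 - x.2 with hbb
  have hfacts : ∀ x ∈ S, 1 ≤ bb x ∧ x.2 * (x.2 + bb x) = N - x.1 ∧ x.1 + x.2 * (x.2 + bb x) = N ∧
      N ≤ 8 * U * bb x ∧ U * bb x ≤ N ∧ bb x ≤ N ∧ bb x % 2 = N % 2 ∧ ¬ 3 ∣ bb x ∧ x.1.Prime ∧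
      x.2.Prime ∧ U < x.2 ∧ x.2 ≤ 2 * U := by
    intro x hx
    rw [hS, Finset.mem_filter, Finset.mem_product, Finset.mem_Icc, Finset.mem_Ioc] at hx
    obtain ⟨⟨⟨h1, h2⟩, h3, h4⟩, h5, h6, h7, h8⟩ := hx
    obtain ⟨b, e1, e2, e3, e4, e5, e6, e7⟩ := b3_exists N U x.1 x.2 hU hN h2 h3 h4 h8
    have hbx : bb x = b := e7
    rw [hbx]
    have h9 := b3_mod N x.1 x.2 b a h5 h1 h7 (by omega) e3 h6 ha
    exact ⟨e1, e2, e3, e4, e5, e6, h9.1, h9.2, h5, h7, h3, h4⟩
  have hTT : TT N U a = S.card := rfl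
  have hsplit := Finset.card_filter_add_card_filter_not (s := S) (fun x => adm N (bb x))
  -- bad part
  have hbad : (S.filter (fun x => ¬ adm N (bb x))).card ≤ U := by
    have h1 : (S.filter (fun x => ¬ adm N (bb x))).card ≤ (Ioc U (2 * U)).card := by
      apply Finset.card_le_card_of_injOn (fun x => x.2)
      · intro x hx
        rw [Finset.mem_coe, Finset.mem_filter] at hx
        have h2 := hfacts x hx.1
        rw [Finset.mem_coe, Finset.mem_Ioc]
        exact ⟨h2.2.2.2.2.2.2.2.2.2.2.1, h2.2.2.2.2.2.2.2.2.2.2.2⟩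
      · intro x hx y hy hxy
        rw [Finset.mem_coe, Finset.mem_filter] at hx hy
        have hkey : ∀ z : ℕ × ℕ, z ∈ S → ¬ adm N (bb z) → N = (z.2 + 1) * (z.2 + 1 + bb z) := by
          intro z hz hna
          obtain ⟨f1, -, f3, -, -, -, f7, f8, f9, -⟩ := hfacts z hz
          apply b3_factor N z.1 z.2 (bb z) f9 f3 f1
          by_contra hcon
          exact hna ⟨f7, f8, hcon⟩
        have k1 := hkey x hx.1 hx.2
        have k2 := hkey y hy.1 hy.2
        have hxy' : x.2 = y.2 := hxy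
        have f1 := (hfacts x hx.1).2.2.1
        have f2 := (hfacts y hy.1).2.2.1
        rw [← hxy'] at k2 f2
        have hbeq : bb x = bb y := by
          have : (x.2 + 1) * (x.2 + 1 + bb x) = (x.2 + 1) * (x.2 + 1 + bb y) := by
            rw [← k1, ← k2]
          have := Nat.eq_of_mul_eq_mul_left (Nat.succ_pos _) this
          omega
        rw [← hbeq] at f2
        have : x.1 = y.1 := by omega
        exact Prod.ext this hxy'
    rw [Nat.card_Ioc] at h1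
    omega
  -- good part
  set B := (Icc 1 N).filter (fun b => N ≤ 8 * U * b ∧ U * b ≤ N ∧ adm N b) with hB
  have hgood : (S.filter (fun x => adm N (bb x))).card ≤ ∑ b ∈ B, rU N U b := by
    have h1 : ∑ b ∈ B, rU N U b = (B.sigma (fun b => (Ioc U (2 * U)).filter fun p =>
        p.Prime ∧ p * (p + b) < N ∧ (N - p * (p + b)).Prime)).card := by
      rw [Finset.card_sigma]; rfl
    rw [h1]
    apply Finset.card_le_card_of_injOn (fun x => (⟨bb x, x.2⟩ : (_ : ℕ) × ℕ))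
    · intro x hx
      rw [Finset.mem_coe, Finset.mem_filter] at hx
      obtain ⟨f1, f2, f3, f4, f5, f6, f7, f8, f9, f10, f11, f12⟩ := hfacts x hx.1
      rw [Finset.mem_coe, Finset.mem_sigma, hB, Finset.mem_filter, Finset.mem_Icc,
        Finset.mem_filter, Finset.mem_Ioc]
      have hpos := f9.pos
      refine ⟨⟨⟨f1, f6⟩, f4, f5, hx.2⟩, ⟨f11, f12⟩, f10, by simp only; omega, ?_⟩
      simp only
      have : N - x.2 * (x.2 + bb x) = x.1 := by omega
      rw [this]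
      exact f9
    · intro x hx y hy hxy
      rw [Finset.mem_coe, Finset.mem_filter] at hx hy
      simp only [Sigma.mk.injEq, heq_eq_eq] at hxy
      have f1 := (hfacts x hx.1).2.2.1
      have f2 := (hfacts y hy.1).2.2.1
      rw [← hxy.1, ← hxy.2] at f2
      have : x.1 = y.1 := by omega
      exact Prod.ext this hxy.2
  have hfin : TT N U a ≤ U + ∑ b ∈ B, rU N U b := by
    rw [hTT, ← hsplit]
    omega
  exact_mod_cast hfin

theorem rU_le_rr (N U b : ℕ) : rU N U b ≤ rr N b := by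
  unfold rU rr
  apply Finset.card_le_card
  intro p hp
  rw [Finset.mem_filter, Finset.mem_Ioc] at hp
  rw [Finset.mem_filter, Finset.mem_Icc]
  refine ⟨⟨hp.2.1.one_le, ?_⟩, hp.2⟩
  have h1 : p ≤ p * (p + b) := Nat.le_mul_of_pos_right p (by have := hp.2.1.pos; omega)
  omega

end Pool.Agent.Lib.MP_d9bc60_nt.EN
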