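import Pool.Agent.Lib.MP_d9bc60_nt.EN.B2
import Pool.Agent.Lib.MP_d9bc60_nt.EN.B3

/-! Row B4 (about 150 lines): one block. -/

set_option autoImplicit false

open Finset

namespace Pool.Agent.Lib.MP_d9bc60_nt.EN

theorem b4_log (L U : ℝ) (hL : 1 < L) (hU : 1 < U) (h : L * Real.log L ≤ U) :
    L * Real.log U ≤ 4 * U := by
  have hlogL : 0 < Real.log L := Real.log_pos hL
  have hlogU : 0 < Real.log U := Real.log_pos hU
  by_cases hc : Real.log U ≤ 2 * Real.log L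
  · nlinarith
  · push Not at hc
    have hU0 : 0 < U := by linarith
    have h1 : L < Real.sqrt U := by
      have h2 : Real.log (L ^ 2) < Real.log U := by
        rw [Real.log_pow]
        push_cast
        exact hc
      have h3 : L ^ 2 < U := (Real.log_lt_log_iff (by positivity) hU0).1 h2
      exact (Real.lt_sqrt (by linarith)).2 h3
    have h4 : Real.log U ≤ 2 * Real.sqrt U := by
      have h5 : Real.log (Real.sqrt U) ≤ Real.sqrt U - 1 :=
        Real.log_le_sub_one_of_pos (Real.sqrt_pos.2 hU0)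
      rw [Real.log_sqrt hU0.le] at h5
      linarith
    have h6 : Real.sqrt U * Real.sqrt U = U := Real.mul_self_sqrt hU0.le
    have h7 : 0 < Real.sqrt U := Real.sqrt_pos.2 hU0
    calc L * Real.log U ≤ Real.sqrt U * (2 * Real.sqrt U) :=
          mul_le_mul h1.le h4 hlogU.le h7.le
      _ = 2 * (Real.sqrt U * Real.sqrt U) := by ring
      _ = 2 * U := by rw [h6]
      _ ≤ 4 * U := by linarith

/-- `S := (c/2) N/(log N log U) ≤ TT - U ≤ ∑_{b ∈ 𝓑} rU` (`U ≤ N^{1/4}`, `N` large), `𝓑` the filter of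
`TT_le_sum`. The `b ∈ 𝓑` with `rU < t := κ U/(log U log N)` are at most `N/U`, they contribute at most
`κ N/(log U log N) ≤ S/2` if `κ ≤ c/4`. Cauchy-Schwarz for the others and `second`:
`(S/2)² ≤ # · C N U/(log N log U)²`, so `# ≥ (c²/16) N/(C U)`. `rU ≤ rr`. -/
theorem block (c : ℝ) (hc : 0 < c) : ∃ κ : ℝ, 0 < κ ∧ ∃ N₀ : ℕ, ∀ N : ℕ, N₀ ≤ N → ∀ U a : ℕ,
    Real.log N * Real.log (Real.log N) ≤ U → (2 * U) ^ 4 ≤ N → (a + 1) % 3 ≠ N % 3 →
    c * (N : ℝ) / (Real.log N * Real.log U) ≤ (TT N U a : ℝ) →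
    κ * (N : ℝ) / U ≤ (((Icc 1 N).filter (fun b => N ≤ 8 * U * b ∧ U * b ≤ N ∧ adm N b ∧
      κ * (U : ℝ) / (Real.log U * Real.log N) ≤ (rr N b : ℝ))).card : ℝ) := by
  obtain ⟨C, hC, N₁, hsec⟩ := second
  set κ : ℝ := min (c / 4) (c ^ 2 / (16 * C)) with hκ
  have hκ0 : 0 < κ := lt_min (by positivity) (by positivity)
  have hκ1 : κ ≤ c / 4 := min_le_left _ _
  have hκ2 : κ ≤ c ^ 2 / (16 * C) := min_le_right _ _
  set M : ℝ := max 3 (1 / c) with hM
  refine ⟨κ, hκ0, max N₁ ⌈Real.exp M⌉₊, ?_⟩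
  intro N hN U a hU hUN ha hTT
  have hN1 : N₁ ≤ N := (le_max_left _ _).trans hN
  have hNe : Real.exp M ≤ N := (Nat.le_ceil _).trans (by exact_mod_cast (le_max_right _ _).trans hN)
  have hN0 : (0 : ℝ) < N := (Real.exp_pos _).trans_le hNe
  have hsec' := hsec N hN1 U hU hUN
  have hLM : M ≤ Real.log N := by
    rw [← Real.log_exp M]
    exact Real.log_le_log (Real.exp_pos _) hNe
  have hM3 : (3 : ℝ) ≤ M := le_max_left _ _
  set L : ℝ := Real.log N with hL
  have hL3 : 3 ≤ L := hM3.trans hLM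
  have hlogL : 1 ≤ Real.log L := by
    rw [Real.le_log_iff_exp_le (by linarith)]
    have := Real.exp_one_lt_d9
    linarith
  have hUL : L ≤ U := by nlinarith
  have hUM : M ≤ U := hLM.trans hUL
  have hU3 : (3 : ℝ) ≤ U := hM3.trans hUM
  have hUc : 1 / c ≤ U := (le_max_right _ _).trans hUM
  have hU3' : 3 ≤ U := by exact_mod_cast hU3
  have hU0 : (0 : ℝ) < U := by linarith
  have hlogU : 1 ≤ Real.log U := by
    rw [Real.le_log_iff_exp_le (by linarith)]
    have := Real.exp_one_lt_d9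
    linarith
  have hlog := b4_log L U (by linarith) (by linarith) hU
  have hLU : 0 < L * Real.log U := by positivity
  have hNU : (16 : ℝ) * U ^ 4 ≤ N := by
    have : (((2 * U) ^ 4 : ℕ) : ℝ) ≤ N := by exact_mod_cast hUN
    push_cast at this
    nlinarith
  have hN16 : 16 * U ^ 2 ≤ N := by
    refine le_trans ?_ hUN
    have h1 : 1 ≤ U ^ 2 := Nat.one_le_pow _ _ (by omega)
    calc 16 * U ^ 2 = 16 * (U ^ 2 * 1) := by ring
      _ ≤ 16 * (U ^ 2 * U ^ 2) := by gcongr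
      _ = (2 * U) ^ 4 := by ring
  have hsum := TT_le_sum N U a hU3' hN16 ha
  set 𝓑 := (Icc 1 N).filter (fun b => N ≤ 8 * U * b ∧ U * b ≤ N ∧ adm N b) with h𝓑
  -- the term `U` is negligible
  have hcU : 1 ≤ c * U := by
    rw [div_le_iff₀ hc] at hUc
    linarith
  have hUsmall : (U : ℝ) ≤ (c / 2) * (N : ℝ) / (L * Real.log U) := by
    rw [le_div_iff₀ hLU]
    have h1 : (U : ℝ) * (L * Real.log U) ≤ U * (4 * U) :=
      mul_le_mul_of_nonneg_left hlog hU0.le
    have h2 : (U : ℝ) * (4 * U) ≤ c / 2 * (16 * U ^ 4) := by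
      have h3 : (1 : ℝ) ≤ U ^ 1 := by linarith
      have h4 : (0 : ℝ) ≤ U ^ 2 := by positivity
      have h5 : (1 : ℝ) ≤ c * U * U := by nlinarith
      nlinarith
    have h3 : c / 2 * (16 * (U : ℝ) ^ 4) ≤ c / 2 * N := by
      apply mul_le_mul_of_nonneg_left hNU (by positivity)
    linarith
  have hS : (c / 2) * (N : ℝ) / (L * Real.log U) ≤ ∑ b ∈ 𝓑, (rU N U b : ℝ) := by
    have h1 : c * (N : ℝ) / (L * Real.log U) =
        (c / 2) * (N : ℝ) / (L * Real.log U) + (c / 2) * (N : ℝ) / (L * Real.log U) := by ring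
    linarith
  set t : ℝ := κ * (U : ℝ) / (Real.log U * L) with ht
  have ht0 : 0 ≤ t := by positivity
  set G := 𝓑.filter (fun b => t ≤ (rU N U b : ℝ)) with hG
  have hsplit : ∑ b ∈ 𝓑, (rU N U b : ℝ) =
      ∑ b ∈ G, (rU N U b : ℝ) + ∑ b ∈ 𝓑.filter (fun b => ¬ t ≤ (rU N U b : ℝ)), (rU N U b : ℝ) :=
    (Finset.sum_filter_add_sum_filter_not _ _ _).symm
  have hcardB : (𝓑.card : ℝ) ≤ (N : ℝ) / U := by
    have h1 : 𝓑 ⊆ Icc 1 (N / U) := by
      intro b hb
      rw [h𝓑, Finset.mem_filter, Finset.mem_Icc] at hb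
      rw [Finset.mem_Icc]
      refine ⟨hb.1.1, ?_⟩
      rw [Nat.le_div_iff_mul_le (by omega)]
      rw [mul_comm]
      exact hb.2.2.1
    have h2 := Finset.card_le_card h1
    rw [Nat.card_Icc, Nat.add_sub_cancel] at h2
    calc (𝓑.card : ℝ) ≤ ((N / U : ℕ) : ℝ) := by exact_mod_cast h2
      _ ≤ (N : ℝ) / U := Nat.cast_div_le
  have hsmall : ∑ b ∈ 𝓑.filter (fun b => ¬ t ≤ (rU N U b : ℝ)), (rU N U b : ℝ) ≤
      (c / 4) * (N : ℝ) / (L * Real.log U) := by
    have h1 : ∑ b ∈ 𝓑.filter (fun b => ¬ t ≤ (rU N U b : ℝ)), (rU N U b : ℝ) ≤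
        ∑ b ∈ 𝓑.filter (fun b => ¬ t ≤ (rU N U b : ℝ)), t := by
      apply Finset.sum_le_sum
      intro b hb
      rw [Finset.mem_filter] at hb
      exact (not_le.1 hb.2).le
    rw [Finset.sum_const, nsmul_eq_mul] at h1
    have h2 : ((𝓑.filter (fun b => ¬ t ≤ (rU N U b : ℝ))).card : ℝ) ≤ (N : ℝ) / U := by
      refine le_trans ?_ hcardB
      exact_mod_cast Finset.card_filter_le _ _
    calc _ ≤ _ := h1
      _ ≤ (N : ℝ) / U * t := mul_le_mul_of_nonneg_right h2 ht0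
      _ = κ * (N : ℝ) / (L * Real.log U) := by
          rw [ht]
          have : Real.log U ≠ 0 := by linarith
          have : L ≠ 0 := by linarith
          field_simp
      _ ≤ (c / 4) * (N : ℝ) / (L * Real.log U) := by
          apply div_le_div_of_nonneg_right _ hLU.le
          exact mul_le_mul_of_nonneg_right hκ1 hN0.le
  have hGsum : (c / 4) * (N : ℝ) / (L * Real.log U) ≤ ∑ b ∈ G, (rU N U b : ℝ) := by
    have h1 : (c / 2) * (N : ℝ) / (L * Real.log U) =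
        (c / 4) * (N : ℝ) / (L * Real.log U) + (c / 4) * (N : ℝ) / (L * Real.log U) := by ring
    linarith
  have hCS : (∑ b ∈ G, (rU N U b : ℝ)) ^ 2 ≤ (G.card : ℝ) * ∑ b ∈ G, (rU N U b : ℝ) ^ 2 :=
    sq_sum_le_card_mul_sum_sq
  have hGsub : G ⊆ Icc 1 N := by
    intro b hb
    rw [hG, Finset.mem_filter, h𝓑, Finset.mem_filter] at hb
    exact hb.1.1
  have hsq : ∑ b ∈ G, (rU N U b : ℝ) ^ 2 ≤ C * (N : ℝ) * U / (L * Real.log U) ^ 2 :=
    (Finset.sum_le_sum_of_subset_of_nonneg hGsub fun b _ _ => by positivity).trans hsec'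
  have hmain : κ * (N : ℝ) / U ≤ (G.card : ℝ) := by
    have h1 : ((c / 4) * (N : ℝ) / (L * Real.log U)) ^ 2 ≤
        (G.card : ℝ) * (C * (N : ℝ) * U / (L * Real.log U) ^ 2) := by
      calc _ ≤ (∑ b ∈ G, (rU N U b : ℝ)) ^ 2 := by
            apply pow_le_pow_left₀ (by positivity) hGsum
        _ ≤ _ := hCS
        _ ≤ _ := mul_le_mul_of_nonneg_left hsq (by positivity)
    have h2 : ((c / 4) * (N : ℝ)) ^ 2 ≤ (G.card : ℝ) * (C * (N : ℝ) * U) := by
      rw [div_pow, mul_div_assoc', div_le_div_iff_of_pos_right (by positivity)] at h1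
      exact h1
    have h3 : κ * (16 * C) ≤ c ^ 2 := by
      rw [le_div_iff₀ (by positivity)] at hκ2
      exact hκ2
    rw [div_le_iff₀ hU0]
    have h4 : (0 : ℝ) < 16 * C * N := by positivity
    refine le_of_mul_le_mul_left ?_ h4
    calc 16 * C * (N : ℝ) * (κ * N) = (κ * (16 * C)) * (N : ℝ) ^ 2 := by ring
      _ ≤ c ^ 2 * (N : ℝ) ^ 2 := mul_le_mul_of_nonneg_right h3 (by positivity)
      _ = 16 * ((c / 4) * (N : ℝ)) ^ 2 := by ring
      _ ≤ 16 * ((G.card : ℝ) * (C * (N : ℝ) * U)) := mul_le_mul_of_nonneg_left h2 (by norm_num)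
      _ = 16 * C * (N : ℝ) * ((G.card : ℝ) * U) := by ring
  refine hmain.trans ?_
  have hsub : G ⊆ (Icc 1 N).filter (fun b => N ≤ 8 * U * b ∧ U * b ≤ N ∧ adm N b ∧
      κ * (U : ℝ) / (Real.log U * L) ≤ (rr N b : ℝ)) := by
    intro b hb
    rw [hG, Finset.mem_filter, h𝓑, Finset.mem_filter] at hb
    rw [Finset.mem_filter]
    refine ⟨hb.1.1, hb.1.2.1, hb.1.2.2.1, hb.1.2.2.2, hb.2.trans ?_⟩
    exact_mod_cast rU_le_rr N U b
  exact_mod_cast Finset.card_le_card hsub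

end Pool.Agent.Lib.MP_d9bc60_nt.EN
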