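import Pool.Agent.Lib.MP_d9bc60_nt.EN.D1a

/-! Row D1b (about 120 lines): Chebyshev lower bound for the primes `≡ a mod 3`. -/

set_option autoImplicit false

open Finset

namespace Pool.Agent.Lib.MP_d9bc60_nt.EN

theorem d1b_geom (m : ℕ) : ∑ j ∈ Finset.range m, (1 / 3 : ℝ) ^ j ≤ 3 / 2 := by
  rw [geom_sum_eq (by norm_num)]
  have : (0 : ℝ) ≤ (1 / 3 : ℝ) ^ m := by positivity
  rw [div_le_iff_of_neg (by norm_num)]
  linarith

theorem d1b_three (n : ℕ) :
    ∑ d ∈ Ioc 0 n, (if d % 3 = 0 then ArithmeticFunction.vonMangoldt d / (d : ℝ) else 0) ≤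
      3 / 2 * Real.log 3 := by
  have hl3 : 0 < Real.log 3 := Real.log_pos (by norm_num)
  rw [← Finset.sum_filter, ← Finset.sum_filter_ne_zero]
  have hsub : ((Ioc 0 n).filter (fun d => d % 3 = 0)).filter
      (fun d => ArithmeticFunction.vonMangoldt d / (d : ℝ) ≠ 0) ⊆
      (Finset.range (n + 1)).image (fun j => 3 ^ j) := by
    intro d hd
    rw [Finset.mem_filter, Finset.mem_filter, Finset.mem_Ioc] at hd
    obtain ⟨⟨⟨hd0, hdn⟩, hd3⟩, hne⟩ := hd
    have h1 : ArithmeticFunction.vonMangoldt d ≠ 0 := fun h => hne (by rw [h, zero_div])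
    rw [ArithmeticFunction.vonMangoldt_ne_zero_iff, isPrimePow_nat_iff] at h1
    obtain ⟨p, k, hp, hk, rfl⟩ := h1
    have h3 : 3 ∣ p := Nat.Prime.dvd_of_dvd_pow Nat.prime_three (Nat.dvd_of_mod_eq_zero hd3)
    have h3' : 3 = p := (Nat.prime_dvd_prime_iff_eq Nat.prime_three hp).1 h3
    rw [Finset.mem_image]
    refine ⟨k, ?_, by rw [h3']⟩
    rw [Finset.mem_range]
    have : k < p ^ k := Nat.lt_pow_self hp.one_lt
    omega
  have hinj : Set.InjOn (fun j : ℕ => 3 ^ j) (↑(Finset.range (n + 1)) : Set ℕ) :=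
    fun a _ b _ h => Nat.pow_right_injective (by norm_num : 2 ≤ 3) h
  calc _ ≤ ∑ d ∈ (Finset.range (n + 1)).image (fun j => 3 ^ j),
        ArithmeticFunction.vonMangoldt d / (d : ℝ) :=
        Finset.sum_le_sum_of_subset_of_nonneg hsub fun d _ _ =>
          div_nonneg ArithmeticFunction.vonMangoldt_nonneg (Nat.cast_nonneg d)
    _ = ∑ j ∈ Finset.range (n + 1),
        ArithmeticFunction.vonMangoldt (3 ^ j) / ((3 ^ j : ℕ) : ℝ) := Finset.sum_image hinj
    _ ≤ ∑ j ∈ Finset.range (n + 1), Real.log 3 * (1 / 3 : ℝ) ^ j := by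
        refine Finset.sum_le_sum fun j _ => ?_
        have h1 : ArithmeticFunction.vonMangoldt (3 ^ j) ≤ Real.log 3 := by
          rcases Nat.eq_zero_or_pos j with hj | hj
          · subst hj
            rw [pow_zero, ArithmeticFunction.vonMangoldt_apply_one]
            exact hl3.le
          · rw [ArithmeticFunction.vonMangoldt_apply_pow hj.ne',
              ArithmeticFunction.vonMangoldt_apply_prime Nat.prime_three]
            norm_num
        push_cast
        rw [one_div, inv_pow, ← div_eq_mul_inv]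
        gcongr
    _ = Real.log 3 * ∑ j ∈ Finset.range (n + 1), (1 / 3 : ℝ) ^ j := by rw [Finset.mul_sum]
    _ ≤ Real.log 3 * (3 / 2) := by
        gcongr
        exact d1b_geom _
    _ = 3 / 2 * Real.log 3 := by ring

/-- `∑_{d ≤ n, d ≡ a} Λ(d)/d` is `(1/2) log n + O(1)` -/
theorem d1b_A : ∃ C : ℝ, 0 < C ∧ ∀ n : ℕ, 1 ≤ n → ∀ a : ℕ, a = 1 ∨ a = 2 →
    |∑ d ∈ Ioc 0 n, (if d % 3 = a then ArithmeticFunction.vonMangoldt d / (d : ℝ) else 0) -
      Real.log n / 2| ≤ C := by
  obtain ⟨C₁, hC₁, h1⟩ := mertens_one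
  obtain ⟨C₂, hC₂, h2⟩ := chi3_sum_mangoldt
  have hl3 : 0 < Real.log 3 := Real.log_pos (by norm_num)
  refine ⟨C₁ + C₂ + 3 / 2 * Real.log 3, by positivity, fun n hn a ha => ?_⟩
  have hIcc : Icc 1 n = Ioc 0 n := by
    ext d; simp only [Finset.mem_Icc, Finset.mem_Ioc]; omega
  have h1n := h1 n hn
  have h2n := h2 n
  rw [hIcc] at h1n h2n
  have h3n := d1b_three n
  have h3n0 : 0 ≤ ∑ d ∈ Ioc 0 n,
      (if d % 3 = 0 then ArithmeticFunction.vonMangoldt d / (d : ℝ) else 0) :=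
    Finset.sum_nonneg fun d _ => by
      split_ifs
      · exact div_nonneg ArithmeticFunction.vonMangoldt_nonneg (Nat.cast_nonneg d)
      · exact le_rfl
  rw [abs_le] at h1n h2n ⊢
  rcases ha with rfl | rfl
  · have hA : 2 * ∑ d ∈ Ioc 0 n,
        (if d % 3 = 1 then ArithmeticFunction.vonMangoldt d / (d : ℝ) else 0) =
        ∑ d ∈ Ioc 0 n, ArithmeticFunction.vonMangoldt d / (d : ℝ) -
        ∑ d ∈ Ioc 0 n, (if d % 3 = 0 then ArithmeticFunction.vonMangoldt d / (d : ℝ) else 0) +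
        ∑ d ∈ Ioc 0 n, chi3 d * ArithmeticFunction.vonMangoldt d / (d : ℝ) := by
      rw [Finset.mul_sum, ← Finset.sum_sub_distrib, ← Finset.sum_add_distrib]
      refine Finset.sum_congr rfl fun d _ => ?_
      have hd : d % 3 = 0 ∨ d % 3 = 1 ∨ d % 3 = 2 := by omega
      unfold chi3
      rcases hd with h | h | h <;> rw [h] <;> norm_num <;> ring
    constructor <;> linarith [h1n.1, h1n.2, h2n.1, h2n.2]
  · have hA : 2 * ∑ d ∈ Ioc 0 n,
        (if d % 3 = 2 then ArithmeticFunction.vonMangoldt d / (d : ℝ) else 0) =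
        ∑ d ∈ Ioc 0 n, ArithmeticFunction.vonMangoldt d / (d : ℝ) -
        ∑ d ∈ Ioc 0 n, (if d % 3 = 0 then ArithmeticFunction.vonMangoldt d / (d : ℝ) else 0) -
        ∑ d ∈ Ioc 0 n, chi3 d * ArithmeticFunction.vonMangoldt d / (d : ℝ) := by
      rw [Finset.mul_sum, ← Finset.sum_sub_distrib, ← Finset.sum_sub_distrib]
      refine Finset.sum_congr rfl fun d _ => ?_
      have hd : d % 3 = 0 ∨ d % 3 = 1 ∨ d % 3 = 2 := by omega
      unfold chi3
      rcases hd with h | h | h <;> rw [h] <;> norm_num <;> ring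
    constructor <;> linarith [h1n.1, h1n.2, h2n.1, h2n.2]

/-- From `mertens_one` and `chi3_sum_mangoldt`: for `a = 1, 2`,
`∑_{d ≤ n, d ≡ a (3)} Λ(d)/d = (1/2)(∑_{3 ∤ d} Λ(d)/d ± ∑ χ(d) Λ(d)/d) = (1/2) log n + O(1)`
(the powers of `3` contribute at most `∑ log 3/3^j ≤ 1`). Hence with a constant `K` large
`∑_{n/K < d ≤ n, d ≡ a} Λ(d)/d ≥ 1`, so `∑_{d ≤ n, d ≡ a} Λ(d) ≥ n/K`; the non-primes contribute
at most `ψ(n) - θ(n) ≤ C √n` (`Chebyshev.psi_sub_theta_le_mul_sqrt`); and
`∑_{p ≤ n, p ≡ a} log p ≤ log n · #`. -/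
theorem primes_mod3 : ∃ c : ℝ, 0 < c ∧ ∃ N₀ : ℕ, ∀ N : ℕ, N₀ ≤ N → ∀ a : ℕ, a = 1 ∨ a = 2 →
    c * (N : ℝ) / Real.log N ≤ (((Icc 1 N).filter fun m => m.Prime ∧ m % 3 = a).card : ℝ) := by
  obtain ⟨C, hC, hA⟩ := d1b_A
  obtain ⟨C', hC'⟩ := Chebyshev.psi_sub_theta_le_mul_sqrt
  -- the constant `K`
  obtain ⟨K, hK⟩ := exists_nat_gt (Real.exp (2 + 4 * C))
  have hKpos : (0 : ℝ) < K := (Real.exp_pos _).trans hK
  have hK0 : 0 < K := by exact_mod_cast hKpos
  have hlogK : 2 + 4 * C ≤ Real.log K := by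
    rw [Real.le_log_iff_exp_le hKpos]
    exact hK.le
  obtain ⟨N₁, hN₁⟩ := exists_nat_gt ((2 * K * |C'|) ^ 2)
  refine ⟨1 / (2 * K), by positivity, max (K + 2) N₁, fun N hN a ha => ?_⟩
  have hNK : K + 2 ≤ N := (le_max_left _ _).trans hN
  have hNN₁ : N₁ ≤ N := (le_max_right _ _).trans hN
  have hNpos : (0 : ℝ) < N := by exact_mod_cast (by omega : 0 < N)
  have hN2 : (2 : ℝ) ≤ N := by exact_mod_cast (by omega : 2 ≤ N)
  have hlogN : 0 < Real.log N := Real.log_pos (by linarith)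
  set m := N / K with hm
  have hm1 : 1 ≤ m := by
    rw [hm, Nat.one_le_div_iff hK0]; omega
  have hmN : m ≤ N := Nat.div_le_self N K
  have hmpos : (0 : ℝ) < m := by exact_mod_cast hm1
  -- the window `(m, N]`
  have hcons := Finset.sum_Ioc_consecutive
    (fun d : ℕ => if d % 3 = a then ArithmeticFunction.vonMangoldt d / (d : ℝ) else 0)
    (Nat.zero_le m) hmN
  have hlog : Real.log m + Real.log K ≤ Real.log N := by
    rw [← Real.log_mul hmpos.ne' hKpos.ne']
    refine Real.log_le_log (by positivity) ?_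
    exact_mod_cast Nat.div_mul_le_self N K
  have hAN := hA N (by omega) a ha
  have hAm := hA m hm1 a ha
  rw [abs_le] at hAN hAm
  have hwin : 1 ≤ ∑ d ∈ Ioc m N,
      (if d % 3 = a then ArithmeticFunction.vonMangoldt d / (d : ℝ) else 0) := by
    linarith [hAN.1, hAm.2]
  have hwin2 : ∑ d ∈ Ioc m N,
      (if d % 3 = a then ArithmeticFunction.vonMangoldt d / (d : ℝ) else 0) ≤
      (K / N : ℝ) * ∑ d ∈ Ioc 0 N, (if d % 3 = a then ArithmeticFunction.vonMangoldt d else 0) := by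
    rw [Finset.mul_sum]
    have hsub : Ioc m N ⊆ Ioc 0 N := Finset.Ioc_subset_Ioc_left (Nat.zero_le m)
    calc ∑ d ∈ Ioc m N, (if d % 3 = a then ArithmeticFunction.vonMangoldt d / (d : ℝ) else 0)
        ≤ ∑ d ∈ Ioc m N, (K / N : ℝ) *
          (if d % 3 = a then ArithmeticFunction.vonMangoldt d else 0) := by
          refine Finset.sum_le_sum fun d hd => ?_
          rw [Finset.mem_Ioc] at hd
          split_ifs
          · have hd0 : (0 : ℝ) < d := by exact_mod_cast (by omega : 0 < d)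
            have h1 : N < d * K := (Nat.div_lt_iff_lt_mul hK0).1 hd.1
            have h2 : (N : ℝ) ≤ d * K := by exact_mod_cast h1.le
            have h3 : 1 / (d : ℝ) ≤ K / N := by
              rw [div_le_div_iff₀ hd0 hNpos]
              linarith
            calc ArithmeticFunction.vonMangoldt d / (d : ℝ)
                = (1 / (d : ℝ)) * ArithmeticFunction.vonMangoldt d := by ring
              _ ≤ (K / N : ℝ) * ArithmeticFunction.vonMangoldt d :=
                mul_le_mul_of_nonneg_right h3 ArithmeticFunction.vonMangoldt_nonneg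
          · rw [mul_zero]
      _ ≤ ∑ d ∈ Ioc 0 N, (K / N : ℝ) *
          (if d % 3 = a then ArithmeticFunction.vonMangoldt d else 0) := by
          refine Finset.sum_le_sum_of_subset_of_nonneg hsub fun d _ _ => ?_
          refine mul_nonneg (by positivity) ?_
          split_ifs
          · exact ArithmeticFunction.vonMangoldt_nonneg
          · exact le_rfl
  have hsum : (N : ℝ) / K ≤
      ∑ d ∈ Ioc 0 N, (if d % 3 = a then ArithmeticFunction.vonMangoldt d else 0) := by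
    have h1 := hwin.trans hwin2
    rw [div_le_iff₀ hKpos]
    have h2 : (N : ℝ) * 1 ≤ N * ((K / N : ℝ) *
        ∑ d ∈ Ioc 0 N, (if d % 3 = a then ArithmeticFunction.vonMangoldt d else 0)) := by
      gcongr
    have h3 : (N : ℝ) * ((K / N : ℝ) *
        ∑ d ∈ Ioc 0 N, (if d % 3 = a then ArithmeticFunction.vonMangoldt d else 0)) =
        (∑ d ∈ Ioc 0 N, (if d % 3 = a then ArithmeticFunction.vonMangoldt d else 0)) * K := by
      field_simp
    linarith
  -- primes and non-primes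
  have hnp : ∑ d ∈ (Ioc 0 N).filter (fun d => ¬ d.Prime), ArithmeticFunction.vonMangoldt d ≤
      |C'| * Real.sqrt N := by
    have h1 := Chebyshev.psi_sub_theta_eq_sum_not_prime (N : ℝ)
    rw [Nat.floor_natCast] at h1
    rw [← h1]
    exact (hC' N).trans (mul_le_mul_of_nonneg_right (le_abs_self _) (Real.sqrt_nonneg _))
  have hsplit : ∑ d ∈ Ioc 0 N, (if d % 3 = a then ArithmeticFunction.vonMangoldt d else 0) ≤
      ∑ d ∈ (Ioc 0 N).filter (fun m => m.Prime ∧ m % 3 = a), Real.log N +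
      ∑ d ∈ (Ioc 0 N).filter (fun d => ¬ d.Prime), ArithmeticFunction.vonMangoldt d := by
    rw [Finset.sum_filter, Finset.sum_filter, ← Finset.sum_add_distrib]
    refine Finset.sum_le_sum fun d hd => ?_
    rw [Finset.mem_Ioc] at hd
    by_cases hp : d.Prime
    · by_cases h3 : d % 3 = a
      · rw [if_pos h3, if_pos ⟨hp, h3⟩, if_neg (not_not.2 hp), add_zero,
          ArithmeticFunction.vonMangoldt_apply_prime hp]
        exact Real.log_le_log (by exact_mod_cast hd.1) (by exact_mod_cast hd.2)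
      · rw [if_neg h3, if_neg (fun h => h3 h.2), if_neg (not_not.2 hp), add_zero]
    · rw [if_neg (fun h : d.Prime ∧ d % 3 = a => hp h.1), if_pos hp, zero_add]
      split_ifs
      · exact le_rfl
      · exact ArithmeticFunction.vonMangoldt_nonneg
  rw [Finset.sum_const, nsmul_eq_mul] at hsplit
  have hIcc : Icc 1 N = Ioc 0 N := by
    ext d; simp only [Finset.mem_Icc, Finset.mem_Ioc]; omega
  rw [hIcc]
  -- `|C'| √N ≤ N / (2 K)`
  have hsq : |C'| * Real.sqrt N ≤ N / (2 * K) := by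
    have h1 : 2 * K * |C'| ≤ Real.sqrt N := by
      refine Real.le_sqrt_of_sq_le ?_
      exact hN₁.le.trans (by exact_mod_cast hNN₁)
    rw [le_div_iff₀ (by positivity)]
    have h2 : Real.sqrt N * Real.sqrt N = N := Real.mul_self_sqrt hNpos.le
    calc |C'| * Real.sqrt N * (2 * K) = (2 * K * |C'|) * Real.sqrt N := by ring
      _ ≤ Real.sqrt N * Real.sqrt N := mul_le_mul_of_nonneg_right h1 (Real.sqrt_nonneg _)
      _ = N := h2
  rw [div_le_iff₀ hlogN]
  have h5 : (N : ℝ) / K = 1 / (2 * K) * N + N / (2 * K) := by field_simp; norm_num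
  linarith

end Pool.Agent.Lib.MP_d9bc60_nt.EN
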