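import Pool.Agent.Lib.MP_d9bc60_nt.EN.W2
import Pool.Agent.Lib.MP_d9bc60_nt.EN.D1b

/-! Row C1 (about 120 lines): many `m` with a window prime dividing `N - m`. -/

set_option autoImplicit false

open Finset

namespace Pool.Agent.Lib.MP_d9bc60_nt.EN

/-- `primes_mod3` for `N/2` gives `≥ 3 c N/log N` primes `m ≡ a`, `3 ≤ m ≤ N/2` (`c` = old `c`/8 or so),
`window` with `Q = P^A`, `log P/log Q = 1/A`, `C/A ≤ c`, removes at most `c N/log N`. -/
theorem many_m : ∃ c : ℝ, 0 < c ∧ ∃ A : ℕ, 1 ≤ A ∧ ∃ N₀ : ℕ, ∀ N : ℕ, N₀ ≤ N → ∀ P a : ℕ,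
    Real.log N ≤ P → P ^ (32 * A) ≤ N → a = 1 ∨ a = 2 →
    c * (N : ℝ) / Real.log N ≤ (((Icc 3 (N / 2)).filter fun m => m.Prime ∧ m % 3 = a ∧
      ∃ p ∈ Ioc P (P ^ A), p.Prime ∧ p ∣ N - m).card : ℝ) := by
  obtain ⟨c1, hc1, N1, h1⟩ := primes_mod3
  obtain ⟨C, hC, N2, h2⟩ := window
  obtain ⟨A, hA⟩ := exists_nat_ge (12 * C / c1 + 1)
  have hA1 : (1 : ℝ) ≤ A := le_trans (by
    have : 0 < 12 * C / c1 := by positivity
    linarith) hA
  have hA1' : 1 ≤ A := by exact_mod_cast hA1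
  have hCA : C / A ≤ c1 / 12 := by
    rw [div_le_div_iff₀ (by linarith) (by norm_num)]
    have h3 : 12 * C / c1 ≤ A := by linarith
    rw [div_le_iff₀ hc1] at h3
    linarith
  obtain ⟨N3, hN3⟩ := exists_nat_ge ((24 / c1) ^ 2)
  refine ⟨c1 / 6, by positivity, A, hA1', max (max (2 * N1 + 2) N2) (max N3 8), ?_⟩
  intro N hN P a hlP hPA ha
  have hNa : 2 * N1 + 2 ≤ N := le_trans (le_trans (le_max_left _ _) (le_max_left _ _)) hN
  have hNb : N2 ≤ N := le_trans (le_trans (le_max_right _ _) (le_max_left _ _)) hN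
  have hNc : N3 ≤ N := le_trans (le_trans (le_max_left _ _) (le_max_right _ _)) hN
  have hNd : 8 ≤ N := le_trans (le_trans (le_max_right _ _) (le_max_right _ _)) hN
  have hNd' : (8 : ℝ) ≤ N := by exact_mod_cast hNd
  have hlog1 : 1 < Real.log N := by
    have h3 : Real.exp 1 < N := lt_of_lt_of_le Real.exp_one_lt_d9 (by linarith)
    rw [Real.lt_log_iff_exp_lt (by linarith)]
    exact h3
  have hP1 : (1 : ℝ) < P := lt_of_lt_of_le hlog1 hlP
  have hP1' : 1 < P := by exact_mod_cast hP1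
  have hlogP : 0 < Real.log P := Real.log_pos hP1
  -- the first set
  have hS := h1 (N / 2) (by omega) a ha
  have hhalf : (N : ℝ) / 3 ≤ ((N / 2 : ℕ) : ℝ) := by
    have h3 : N ≤ 3 * (N / 2) := by omega
    have h4 : (N : ℝ) ≤ 3 * ((N / 2 : ℕ) : ℝ) := by exact_mod_cast h3
    linarith
  have hhalf2 : ((N / 2 : ℕ) : ℝ) ≤ N := by
    have h3 : N / 2 ≤ N := Nat.div_le_self _ _
    exact_mod_cast h3
  have hhalf3 : (2 : ℝ) ≤ ((N / 2 : ℕ) : ℝ) := by
    have h3 : 2 ≤ N / 2 := by omega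
    exact_mod_cast h3
  have hS' : c1 / 3 * (N / Real.log N) ≤
      (((Icc 1 (N / 2)).filter fun m => m.Prime ∧ m % 3 = a).card : ℝ) := by
    refine le_trans ?_ hS
    have h5 : Real.log ((N / 2 : ℕ) : ℝ) ≤ Real.log N :=
      Real.log_le_log (by linarith) hhalf2
    have h6 : 0 < Real.log ((N / 2 : ℕ) : ℝ) := Real.log_pos (by linarith)
    calc c1 / 3 * (N / Real.log N) = c1 * (N / 3) / Real.log N := by ring
      _ ≤ c1 * (N / 3) / Real.log ((N / 2 : ℕ) : ℝ) := by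
          apply div_le_div_of_nonneg_left _ h6 h5
          positivity
      _ ≤ c1 * ((N / 2 : ℕ) : ℝ) / Real.log ((N / 2 : ℕ) : ℝ) := by
          apply div_le_div_of_nonneg_right _ h6.le
          exact mul_le_mul_of_nonneg_left hhalf hc1.le
  -- the window set
  have hW := h2 N hNb P (P ^ A) hlP (Nat.le_self_pow (by omega) P)
    (by rw [← pow_mul, mul_comm A 32]; exact hPA)
  have hratio : Real.log P / Real.log ((P ^ A : ℕ) : ℝ) = 1 / A := by
    rw [Nat.cast_pow, Real.log_pow]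
    have : (A : ℝ) ≠ 0 := by linarith
    field_simp
  have hW' : (((Icc 1 N).filter fun m => m.Prime ∧ ∀ l ∈ Ioc P (P ^ A), l.Prime → ¬ l ∣ N →
      ¬ l ∣ N - m).card : ℝ) ≤ c1 / 12 * (N / Real.log N) := by
    refine le_trans hW ?_
    rw [hratio]
    apply mul_le_mul_of_nonneg_right _ (by positivity)
    calc C * (1 / A) = C / A := by ring
      _ ≤ c1 / 12 := hCA
  -- the small term
  have hone : 1 ≤ c1 / 12 * (N / Real.log N) := by
    have hs : (24 / c1) ^ 2 ≤ (N : ℝ) := le_trans hN3 (by exact_mod_cast hNc)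
    have hs2 : 24 / c1 ≤ Real.sqrt N := Real.le_sqrt_of_sq_le hs
    have hsp : 0 < Real.sqrt N := lt_of_lt_of_le (by positivity) hs2
    have hlogs : Real.log N ≤ 2 * Real.sqrt N := by
      have h7 : Real.log (Real.sqrt N) ≤ Real.sqrt N - 1 := Real.log_le_sub_one_of_pos hsp
      have h8 : Real.log (Real.sqrt N) = Real.log N / 2 := Real.log_sqrt (by linarith)
      linarith
    have h9 : Real.sqrt N / 2 ≤ N / Real.log N := by
      rw [div_le_div_iff₀ (by norm_num) (by linarith)]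
      calc Real.sqrt N * Real.log N ≤ Real.sqrt N * (2 * Real.sqrt N) :=
            mul_le_mul_of_nonneg_left hlogs hsp.le
        _ = (Real.sqrt N * Real.sqrt N) * 2 := by ring
        _ = N * 2 := by rw [Real.mul_self_sqrt (by linarith)]
    calc (1 : ℝ) = c1 / 12 * ((24 / c1) / 2) := by field_simp; norm_num
      _ ≤ c1 / 12 * (Real.sqrt N / 2) := by
          apply mul_le_mul_of_nonneg_left _ (by positivity)
          linarith
      _ ≤ c1 / 12 * (N / Real.log N) := mul_le_mul_of_nonneg_left h9 (by positivity)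
  -- inclusion
  have hsub : ((Icc 1 (N / 2)).filter fun m => m.Prime ∧ m % 3 = a) ⊆
      (((Icc 3 (N / 2)).filter fun m => m.Prime ∧ m % 3 = a ∧
        ∃ p ∈ Ioc P (P ^ A), p.Prime ∧ p ∣ N - m) ∪
      ((Icc 1 N).filter fun m => m.Prime ∧ ∀ l ∈ Ioc P (P ^ A), l.Prime → ¬ l ∣ N →
        ¬ l ∣ N - m)) ∪ {2} := by
    intro m hm
    rw [mem_filter, mem_Icc] at hm
    obtain ⟨⟨hm1, hm2⟩, hmp, hma⟩ := hm
    rw [mem_union, mem_union, mem_filter, mem_filter, mem_Icc, mem_Icc, mem_singleton]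
    by_cases hm3 : m = 2
    · exact Or.inr hm3
    · left
      by_cases hw : ∀ l ∈ Ioc P (P ^ A), l.Prime → ¬ l ∣ N → ¬ l ∣ N - m
      · right
        exact ⟨⟨hm1, le_trans hm2 (Nat.div_le_self _ _)⟩, hmp, hw⟩
      · left
        push Not at hw
        obtain ⟨l, hl, hlp, -, hld⟩ := hw
        have := hmp.two_le
        exact ⟨⟨by omega, hm2⟩, hmp, hma, l, hl, hlp, hld⟩
  have hcard := (card_le_card hsub).trans (le_trans (card_union_le _ _)
    (Nat.add_le_add_right (card_union_le _ _) _))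
  rw [card_singleton] at hcard
  have hcard' : (((Icc 1 (N / 2)).filter fun m => m.Prime ∧ m % 3 = a).card : ℝ) ≤
      (((Icc 3 (N / 2)).filter fun m => m.Prime ∧ m % 3 = a ∧
        ∃ p ∈ Ioc P (P ^ A), p.Prime ∧ p ∣ N - m).card : ℝ) +
      (((Icc 1 N).filter fun m => m.Prime ∧ ∀ l ∈ Ioc P (P ^ A), l.Prime → ¬ l ∣ N →
        ¬ l ∣ N - m).card : ℝ) + 1 := by exact_mod_cast hcard
  have hfin : c1 / 6 * (N : ℝ) / Real.log N = c1 / 6 * (N / Real.log N) := by ring
  rw [hfin]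
  linarith

end Pool.Agent.Lib.MP_d9bc60_nt.EN
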