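import Pool.Agent.Lib.MP_d9bc60_nt.EN.C1
import Pool.Agent.Lib.MP_d9bc60_nt.EN.B1

/-! Row C2 (about 150 lines): many dyadic blocks. -/

set_option autoImplicit false

open Finset

namespace Pool.Agent.Lib.MP_d9bc60_nt.EN

/-- dyadic localisation -/
lemma c2_dyadic (P p : ℕ) (hP : 0 < P) (hp : P < p) :
    ∃ i : ℕ, 2 ^ i * P < p ∧ p ≤ 2 * (2 ^ i * P) := by
  have h1 : (p - 1) / P ≠ 0 := by
    have : 1 ≤ (p - 1) / P := (Nat.le_div_iff_mul_le hP).2 (by omega)
    omega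
  refine ⟨Nat.log 2 ((p - 1) / P), ?_, ?_⟩
  · have h2 := Nat.pow_log_le_self 2 h1
    have h3 := (Nat.le_div_iff_mul_le hP).1 h2
    omega
  · have h2 := Nat.lt_pow_succ_log_self (b := 2) (by norm_num) ((p - 1) / P)
    have h3 := (Nat.div_lt_iff_lt_mul hP).1 h2
    rw [Nat.succ_eq_add_one, pow_succ] at h3
    have h4 : 2 ^ Nat.log 2 ((p - 1) / P) * 2 * P = 2 * (2 ^ Nat.log 2 ((p - 1) / P) * P) := by ring
    omega

/-- the `m` with a window prime are covered by the blocks -/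
lemma c2_cover (N P A a : ℕ) (hP : 0 < P) (J : Finset ℕ)
    (hJ : ∀ i : ℕ, 2 ^ i * P ≤ P ^ A → i ∈ J) :
    (((Icc 3 (N / 2)).filter fun m => m.Prime ∧ m % 3 = a ∧
      ∃ p ∈ Ioc P (P ^ A), p.Prime ∧ p ∣ N - m).card : ℝ) ≤ ∑ i ∈ J, (TT N (2 ^ i * P) a : ℝ) := by
  classical
  have h1 : ((Icc 3 (N / 2)).filter fun m => m.Prime ∧ m % 3 = a ∧
      ∃ p ∈ Ioc P (P ^ A), p.Prime ∧ p ∣ N - m) ⊆ J.biUnion fun i =>
      ((((Icc 3 (N / 2)) ×ˢ (Ioc (2 ^ i * P) (2 * (2 ^ i * P)))).filter fun x : ℕ × ℕ =>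
        x.1.Prime ∧ x.1 % 3 = a ∧ x.2.Prime ∧ x.2 ∣ N - x.1)).image Prod.fst := by
    intro m hm
    obtain ⟨hm1, hm2, hm3, p, hp1, hp2, hp3⟩ := Finset.mem_filter.1 hm
    rw [Finset.mem_Ioc] at hp1
    obtain ⟨i, hi1, hi2⟩ := c2_dyadic P p hP hp1.1
    rw [Finset.mem_biUnion]
    refine ⟨i, hJ i (by omega), ?_⟩
    rw [Finset.mem_image]
    exact ⟨(m, p), Finset.mem_filter.2 ⟨Finset.mem_product.2 ⟨hm1, Finset.mem_Ioc.2 ⟨hi1, hi2⟩⟩,
      hm2, hm3, hp2, hp3⟩, rfl⟩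
  have h2 := (Finset.card_le_card h1).trans Finset.card_biUnion_le
  have h3 : ∀ i ∈ J, (((((Icc 3 (N / 2)) ×ˢ (Ioc (2 ^ i * P) (2 * (2 ^ i * P)))).filter
      fun x : ℕ × ℕ =>
        x.1.Prime ∧ x.1 % 3 = a ∧ x.2.Prime ∧ x.2 ∣ N - x.1)).image Prod.fst).card ≤
        TT N (2 ^ i * P) a := by
    intro i _
    exact Finset.card_image_le
  exact_mod_cast h2.trans (Finset.sum_le_sum h3)

/-- `K = Nat.clog 2 (P^(A-1))`, blocks `U_i = 2^i P`, `i < K`, `U_i ≤ P^A`, cover `(P, P^A]`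
(take `A ≥ 2`); `K ≤ 2 A log P`. `∑_{i<K} TT N U_i a ≥ # of many_m ≥ c N/log N`. Each
`TT N U_i a ≤ TA N U_i ≤ C N/(log N log P)` (`TA_le`). The blocks with `TT < c' N/(log N log P)`,
`c' = c/(4A)`, contribute at most half, so the number of the others is at least
`(c/(2C)) log P`. Conclusion with the minimum of the constants (and `log U ≥ log P` is not needed). -/
theorem many_blocks : ∃ c : ℝ, 0 < c ∧ ∃ A : ℕ, 1 ≤ A ∧ ∃ N₀ : ℕ, ∀ N : ℕ, N₀ ≤ N → ∀ P a : ℕ,
    Real.log N ≤ P → P ^ (32 * A) ≤ N → a = 1 ∨ a = 2 →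
    ∃ J : Finset ℕ, c * Real.log P ≤ (J.card : ℝ) ∧ ∀ i ∈ J, 2 ^ i * P ≤ P ^ A ∧
      c * (N : ℝ) / (Real.log N * Real.log P) ≤ (TT N (2 ^ i * P) a : ℝ) := by
  obtain ⟨c₁, hc₁, A, hA, N₁, hmm⟩ := many_m
  obtain ⟨C, hC, U₀, hU₀, hTA⟩ := TA_le
  have hA' : (1 : ℝ) ≤ A := by exact_mod_cast hA
  have hApos : (0 : ℝ) < A := by linarith
  refine ⟨min (c₁ / (6 * A)) (c₁ / (2 * C)), lt_min (by positivity) (by positivity), A, hA,
    max N₁ ⌈Real.exp (U₀ + 3)⌉₊, ?_⟩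
  intro N hN P a hP1 hP2 ha
  set c := min (c₁ / (6 * A)) (c₁ / (2 * C)) with hcdef
  have hcpos : 0 < c := lt_min (by positivity) (by positivity)
  have hc1 : c ≤ c₁ / (6 * A) := min_le_left _ _
  have hc2 : c ≤ c₁ / (2 * C) := min_le_right _ _
  have hN1 : N₁ ≤ N := (le_max_left _ _).trans hN
  have hN2 : Real.exp (U₀ + 3) ≤ N := (Nat.le_ceil _).trans (by exact_mod_cast (le_max_right _ _).trans hN)
  have hNpos : (0 : ℝ) < N := (Real.exp_pos _).trans_le hN2
  have hlN : (U₀ : ℝ) + 3 ≤ Real.log N := (Real.le_log_iff_exp_le hNpos).2 hN2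
  have hU₀' : (0 : ℝ) ≤ U₀ := Nat.cast_nonneg _
  have hlNpos : 0 < Real.log N := by linarith
  have hP3 : (U₀ : ℝ) + 3 ≤ P := hlN.trans hP1
  have hP4 : (3 : ℝ) ≤ P := by linarith
  have hP5 : 3 ≤ P := by exact_mod_cast hP4
  have hP6 : U₀ ≤ P := by
    have : (U₀ : ℝ) ≤ P := by linarith
    exact_mod_cast this
  have hlP : 1 ≤ Real.log P := by
    rw [Real.le_log_iff_exp_le (by linarith)]
    have := Real.exp_one_lt_d9
    linarith
  have hlPpos : 0 < Real.log P := by linarith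
  set J₀ := (range (Nat.log 2 (P ^ A) + 1)).filter (fun i => 2 ^ i * P ≤ P ^ A) with hJ₀
  have hPA0 : P ^ A ≠ 0 := pow_ne_zero _ (by omega)
  have hmem : ∀ i : ℕ, 2 ^ i * P ≤ P ^ A → i ∈ J₀ := by
    intro i hi
    rw [hJ₀, Finset.mem_filter, Finset.mem_range]
    refine ⟨?_, hi⟩
    have h1 : 2 ^ i ≤ P ^ A := le_trans (Nat.le_mul_of_pos_right _ (by omega)) hi
    have h2 : i ≤ Nat.log 2 (P ^ A) := Nat.le_log_of_pow_le (by norm_num) h1
    omega
  have hJ₀card : (J₀.card : ℝ) ≤ 3 * A * Real.log P := by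
    have h1 : J₀.card ≤ Nat.log 2 (P ^ A) + 1 := by
      calc J₀.card ≤ (range (Nat.log 2 (P ^ A) + 1)).card := Finset.card_filter_le _ _
        _ = _ := Finset.card_range _
    have h2 : (2 : ℝ) ^ (Nat.log 2 (P ^ A)) ≤ (P : ℝ) ^ A := by
      exact_mod_cast Nat.pow_log_le_self 2 hPA0
    have h3 := Real.log_le_log (by positivity) h2
    rw [Real.log_pow, Real.log_pow] at h3
    have h4 := Real.log_two_gt_d9
    have h5 : (Nat.log 2 (P ^ A) : ℝ) ≤ 2 * (A * Real.log P) := by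
      have h6 : (Nat.log 2 (P ^ A) : ℝ) * (1 / 2) ≤ (Nat.log 2 (P ^ A) : ℝ) * Real.log 2 := by
        apply mul_le_mul_of_nonneg_left (by linarith) (Nat.cast_nonneg _)
      linarith
    have h7 : (J₀.card : ℝ) ≤ (Nat.log 2 (P ^ A) : ℝ) + 1 := by exact_mod_cast h1
    have h8 : 1 ≤ (A : ℝ) * Real.log P := by nlinarith
    linarith
  have hcov := c2_cover N P A a (by omega) J₀ hmem
  have hmany := hmm N hN1 P a hP1 hP2 ha
  set J := J₀.filter (fun i => c * (N : ℝ) / (Real.log N * Real.log P) ≤ (TT N (2 ^ i * P) a : ℝ))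
    with hJ
  have hupper : ∀ i ∈ J, (TT N (2 ^ i * P) a : ℝ) ≤ C * (N : ℝ) / (Real.log N * Real.log P) := by
    intro i hi
    have hi2 : 2 ^ i * P ≤ P ^ A := (Finset.mem_filter.1 (Finset.mem_filter.1 hi).1).2
    have h1 : P ≤ 2 ^ i * P := Nat.le_mul_of_pos_left P (by positivity)
    have h2 : (2 * (2 ^ i * P)) ^ 2 ≤ N := by
      calc (2 * (2 ^ i * P)) ^ 2 ≤ (P * P ^ A) ^ 2 := by
            apply Nat.pow_le_pow_left
            exact Nat.mul_le_mul (by omega) hi2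
        _ = P ^ ((1 + A) * 2) := by rw [pow_mul, pow_add, pow_one]
        _ ≤ P ^ (32 * A) := Nat.pow_le_pow_right (by omega) (by omega)
        _ ≤ N := hP2
    have h3 := hTA N (2 ^ i * P) (hP6.trans h1) h2
    have h4 : (TT N (2 ^ i * P) a : ℝ) ≤ (TA N (2 ^ i * P) : ℝ) := by
      exact_mod_cast TT_le_TA N (2 ^ i * P) a
    refine h4.trans (h3.trans ?_)
    have h5 : Real.log P ≤ Real.log ((2 ^ i * P : ℕ) : ℝ) :=
      Real.log_le_log (by linarith) (by exact_mod_cast h1)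
    apply div_le_div_of_nonneg_left (by positivity) (by positivity)
    gcongr
  have hsplit : ∑ i ∈ J₀, (TT N (2 ^ i * P) a : ℝ) ≤
      (J.card : ℝ) * (C * (N : ℝ) / (Real.log N * Real.log P)) +
      (J₀.card : ℝ) * (c * (N : ℝ) / (Real.log N * Real.log P)) := by
    rw [← Finset.sum_filter_add_sum_filter_not J₀
      (fun i => c * (N : ℝ) / (Real.log N * Real.log P) ≤ (TT N (2 ^ i * P) a : ℝ))]
    apply add_le_add
    · rw [← nsmul_eq_mul, ← Finset.sum_const]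
      exact Finset.sum_le_sum hupper
    · calc ∑ i ∈ J₀.filter (fun i => ¬ (c * (N : ℝ) / (Real.log N * Real.log P) ≤
            (TT N (2 ^ i * P) a : ℝ))), (TT N (2 ^ i * P) a : ℝ)
          ≤ ∑ i ∈ J₀.filter (fun i => ¬ (c * (N : ℝ) / (Real.log N * Real.log P) ≤
            (TT N (2 ^ i * P) a : ℝ))), (c * (N : ℝ) / (Real.log N * Real.log P)) := by
            apply Finset.sum_le_sum
            intro i hi
            exact (not_le.1 (Finset.mem_filter.1 hi).2).le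
        _ = ((J₀.filter (fun i => ¬ (c * (N : ℝ) / (Real.log N * Real.log P) ≤
            (TT N (2 ^ i * P) a : ℝ)))).card : ℝ) * (c * (N : ℝ) / (Real.log N * Real.log P)) := by
            rw [Finset.sum_const, nsmul_eq_mul]
        _ ≤ _ := by
            apply mul_le_mul_of_nonneg_right _ (by positivity)
            exact_mod_cast Finset.card_filter_le _ _
  refine ⟨J, ?_, ?_⟩
  · -- main inequality
    have h1 := hmany.trans (hcov.trans hsplit)
    have h2 : (J₀.card : ℝ) * (c * (N : ℝ) / (Real.log N * Real.log P)) ≤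
        (c₁ / 2) * ((N : ℝ) / Real.log N) := by
      calc (J₀.card : ℝ) * (c * (N : ℝ) / (Real.log N * Real.log P))
          ≤ (3 * A * Real.log P) * (c * (N : ℝ) / (Real.log N * Real.log P)) := by
            apply mul_le_mul_of_nonneg_right hJ₀card (by positivity)
        _ = (3 * A * c) * ((N : ℝ) / Real.log N) := by field_simp
        _ ≤ (3 * A * (c₁ / (6 * A))) * ((N : ℝ) / Real.log N) := by gcongr
        _ = _ := by field_simp; ring
    have h3 : (c₁ / 2) * ((N : ℝ) / Real.log N) ≤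
        (J.card : ℝ) * (C * (N : ℝ) / (Real.log N * Real.log P)) := by
      have h4 : c₁ * (N : ℝ) / Real.log N = c₁ * ((N : ℝ) / Real.log N) := by ring
      rw [h4] at h1
      linarith
    have h5 : (c₁ / 2) ≤ (J.card : ℝ) * (C / Real.log P) := by
      have h6 : (J.card : ℝ) * (C * (N : ℝ) / (Real.log N * Real.log P)) =
          ((J.card : ℝ) * (C / Real.log P)) * ((N : ℝ) / Real.log N) := by field_simp
      rw [h6] at h3
      exact le_of_mul_le_mul_right h3 (by positivity)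
    have h7 : (c₁ / (2 * C)) * Real.log P ≤ (J.card : ℝ) := by
      have h8 := mul_le_mul_of_nonneg_right h5 (show 0 ≤ Real.log P / C by positivity)
      have h9 : (J.card : ℝ) * (C / Real.log P) * (Real.log P / C) = J.card := by field_simp
      rw [h9] at h8
      calc (c₁ / (2 * C)) * Real.log P = c₁ / 2 * (Real.log P / C) := by field_simp
        _ ≤ _ := h8
    calc c * Real.log P ≤ (c₁ / (2 * C)) * Real.log P := by gcongr
      _ ≤ _ := h7
  · intro i hi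
    exact ⟨(Finset.mem_filter.1 (Finset.mem_filter.1 hi).1).2, (Finset.mem_filter.1 hi).2⟩

end Pool.Agent.Lib.MP_d9bc60_nt.EN
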