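import Pool.Agent.Lib.MP_d9bc60_nt.EN.C2
import Pool.Agent.Lib.MP_d9bc60_nt.EN.B4

/-! Row C3 (about 200 lines): sum over the blocks. -/

set_option autoImplicit false

open Finset

namespace Pool.Agent.Lib.MP_d9bc60_nt.EN

/-- indices of blocks containing `b` lie in a short interval -/
lemma c3_card_le (N P b : ℕ) (J : Finset ℕ) (hb : 0 < b) (hP : 0 < P)
    (h : ∀ i ∈ J, 2 ^ i * P * b ≤ N ∧ N ≤ 8 * (2 ^ i * P) * b) : J.card ≤ 4 := by
  rcases J.eq_empty_or_nonempty with rfl | hne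
  · simp
  obtain ⟨i0, hi0, hmin⟩ := J.exists_min_image id hne
  have hsub : J ⊆ Finset.Icc i0 (i0 + 3) := by
    intro i hi
    rw [Finset.mem_Icc]
    refine ⟨hmin i hi, ?_⟩
    have h1 := (h i hi).1
    have h2 := (h i0 hi0).2
    have h3 : 2 ^ i * (P * b) ≤ 2 ^ (i0 + 3) * (P * b) := by
      calc 2 ^ i * (P * b) = 2 ^ i * P * b := by ring
        _ ≤ N := h1
        _ ≤ 8 * (2 ^ i0 * P) * b := h2
        _ = 2 ^ (i0 + 3) * (P * b) := by ring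
    have h4 : 2 ^ i ≤ 2 ^ (i0 + 3) := Nat.le_of_mul_le_mul_right h3 (Nat.mul_pos hP hb)
    exact (Nat.pow_le_pow_iff_right (by norm_num)).1 h4
  calc J.card ≤ (Finset.Icc i0 (i0 + 3)).card := Finset.card_le_card hsub
    _ = 4 := by rw [Nat.card_Icc]; omega

/-- the condition on the number of representations for `b` in the block of `U` -/
lemma c3_cond (κ κ₀ r : ℝ) (hκ : 0 < κ) (hκ₀ : κ ≤ κ₀ / 8) (N U b : ℕ) (hb : 0 < b) (hU : 2 ≤ U)
    (h1 : N ≤ 8 * U * b) (h2 : U * b ≤ N) (hN : 2 ≤ N)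
    (h : κ₀ * (U : ℝ) / (Real.log U * Real.log N) ≤ r) :
    κ * ((N : ℝ) / b) / (Real.log ((N : ℝ) / b) * Real.log N) ≤ r := by
  have hb' : (0 : ℝ) < b := by exact_mod_cast hb
  have hU' : (2 : ℝ) ≤ U := by exact_mod_cast hU
  have hN' : (2 : ℝ) ≤ N := by exact_mod_cast hN
  have hlU : 0 < Real.log U := Real.log_pos (by linarith)
  have hlN : 0 < Real.log N := Real.log_pos (by linarith)
  have e1 : (N : ℝ) / b ≤ 8 * U := by
    rw [div_le_iff₀ hb']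
    exact_mod_cast h1
  have e2 : (U : ℝ) ≤ (N : ℝ) / b := by
    rw [le_div_iff₀ hb']
    exact_mod_cast h2
  have e3 : Real.log U ≤ Real.log ((N : ℝ) / b) := Real.log_le_log (by linarith) e2
  refine le_trans ?_ h
  have e4 : κ * ((N : ℝ) / b) ≤ κ₀ * (U : ℝ) := by
    calc κ * ((N : ℝ) / b) ≤ κ * (8 * U) := by gcongr
      _ ≤ (κ₀ / 8) * (8 * U) := by gcongr
      _ = κ₀ * U := by ring
  have e5 : 0 ≤ κ₀ * (U : ℝ) := by
    have : 0 < κ₀ := by linarith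
    positivity
  exact div_le_div₀ e5 e4 (by positivity) (by gcongr)

/-- `a = 2` if `N % 3 = 2`, else `a = 1`, so `(a+1) % 3 ≠ N % 3`. `J` from `many_blocks`; for `i ∈ J`,
`U = 2^i P`, `log U ≥ log P`, so `block` applies (`(2U)⁴ ≤ (2 P^A)^4 ≤ N`) and gives `≥ κ N/U` admissible `b`,
`N/(8U) ≤ b ≤ N/U`, `rr N b ≥ κ U/(log U log N)`. As `U ≤ N/b ≤ 8U`: `(N/b)/(log (N/b)) ≤ 8U/log U`, so
`rr N b ≥ (κ/8) (N/b)/(log (N/b) log N)`; `1/b ≥ U/N`, so the sum of `1/b` over this block is `≥ κ`.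
Each `b` is in at most `4` blocks (`N/(8b) ≤ 2^i P ≤ N/b`). Hence the sum is `≥ (κ/4) c log P`.
`N ≤ 8 U b ≤ P^(32 A) b`, `b P ≤ b U ≤ N`. -/
theorem main : ∃ κ : ℝ, 0 < κ ∧ ∃ A N₀ : ℕ, ∀ N : ℕ, N₀ ≤ N → ∀ P : ℕ,
    Real.log N * Real.log (Real.log N) ≤ P → P ^ A ≤ N →
    κ * Real.log P ≤ ∑ b ∈ (Icc 1 N).filter (fun b => N ≤ b * P ^ A ∧ b * P ≤ N ∧ adm N b ∧
      κ * ((N : ℝ) / b) / (Real.log ((N : ℝ) / b) * Real.log N) ≤ (rr N b : ℝ)), (b : ℝ)⁻¹ := by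
  obtain ⟨c, hc, A, hA, N₁, hmb⟩ := many_blocks
  obtain ⟨κ₀, hκ₀, N₂, hbl⟩ := block c hc
  refine ⟨min (κ₀ / 8) (κ₀ * c / 4), lt_min (by positivity) (by positivity), 32 * A,
    max (max N₁ N₂) 100, ?_⟩
  intro N hN P hP1 hP2
  set κ := min (κ₀ / 8) (κ₀ * c / 4) with hκdef
  have hκpos : 0 < κ := lt_min (by positivity) (by positivity)
  have hκ1 : κ ≤ κ₀ / 8 := min_le_left _ _
  have hκ2 : κ ≤ κ₀ * c / 4 := min_le_right _ _
  have hN1 : N₁ ≤ N := le_trans (le_trans (le_max_left _ _) (le_max_left _ _)) hN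
  have hN2 : N₂ ≤ N := le_trans (le_trans (le_max_right _ _) (le_max_left _ _)) hN
  have hN3 : 100 ≤ N := le_trans (le_max_right _ _) hN
  have hN3' : (100 : ℝ) ≤ N := by exact_mod_cast hN3
  -- log N ≥ 4
  have hl4 : 4 ≤ Real.log N := by
    rw [Real.le_log_iff_exp_le (by linarith)]
    have h1 := Real.exp_one_lt_d9
    have h2 : Real.exp 4 = Real.exp 1 ^ 4 := by
      rw [← Real.exp_nat_mul]; norm_num
    rw [h2]
    have h3 : Real.exp 1 ^ 4 ≤ (2.7182818286 : ℝ) ^ 4 :=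
      pow_le_pow_left₀ (Real.exp_pos 1).le h1.le 4
    have h4 : (2.7182818286 : ℝ) ^ 4 ≤ 100 := by norm_num
    linarith
  have hll : 1 ≤ Real.log (Real.log N) := by
    rw [Real.le_log_iff_exp_le (by linarith)]
    have h1 := Real.exp_one_lt_d9
    linarith
  have hP3 : Real.log N ≤ P := by
    have h1 : Real.log N * 1 ≤ Real.log N * Real.log (Real.log N) :=
      mul_le_mul_of_nonneg_left hll (by linarith)
    linarith
  have hP4 : (4 : ℝ) ≤ P := le_trans hl4 hP3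
  have hP5 : 4 ≤ P := by exact_mod_cast hP4
  have hlP : 0 < Real.log P := Real.log_pos (by linarith)
  -- the residue class
  obtain ⟨a, ha12, ha⟩ : ∃ a : ℕ, (a = 1 ∨ a = 2) ∧ (a + 1) % 3 ≠ N % 3 := by
    by_cases h : N % 3 = 2
    · exact ⟨2, Or.inr rfl, by omega⟩
    · exact ⟨1, Or.inl rfl, by omega⟩
  obtain ⟨J, hJ1, hJ2⟩ := hmb N hN1 P a hP3 hP2 ha12
  -- the blocks
  set S : ℕ → Finset ℕ := fun i => (Icc 1 N).filter (fun b => N ≤ 8 * (2 ^ i * P) * b ∧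
    (2 ^ i * P) * b ≤ N ∧ adm N b ∧
      κ₀ * ((2 ^ i * P : ℕ) : ℝ) / (Real.log ((2 ^ i * P : ℕ) : ℝ) * Real.log N) ≤ (rr N b : ℝ))
    with hS
  set T := (Icc 1 N).filter (fun b => N ≤ b * P ^ (32 * A) ∧ b * P ≤ N ∧ adm N b ∧
      κ * ((N : ℝ) / b) / (Real.log ((N : ℝ) / b) * Real.log N) ≤ (rr N b : ℝ)) with hT
  have hUP : ∀ i : ℕ, P ≤ 2 ^ i * P := fun i => Nat.le_mul_of_pos_left P (by positivity)
  have hpow : ∀ i ∈ J, 8 * (2 ^ i * P) ≤ P ^ (32 * A) := by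
    intro i hi
    have h1 := (hJ2 i hi).1
    calc 8 * (2 ^ i * P) ≤ P ^ 3 * P ^ A := by
          apply Nat.mul_le_mul _ h1
          calc 8 = 2 ^ 3 := by norm_num
            _ ≤ P ^ 3 := Nat.pow_le_pow_left (by omega) 3
      _ = P ^ (3 + A) := by rw [← pow_add]
      _ ≤ P ^ (32 * A) := Nat.pow_le_pow_right (by omega) (by omega)
  have hpow4 : ∀ i ∈ J, (2 * (2 ^ i * P)) ^ 4 ≤ N := by
    intro i hi
    have h1 := (hJ2 i hi).1
    calc (2 * (2 ^ i * P)) ^ 4 ≤ (P * P ^ A) ^ 4 := by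
          apply Nat.pow_le_pow_left
          exact Nat.mul_le_mul (by omega) h1
      _ = P ^ ((1 + A) * 4) := by
          rw [pow_mul, pow_add, pow_one]
      _ ≤ P ^ (32 * A) := Nat.pow_le_pow_right (by omega) (by omega)
      _ ≤ N := hP2
  have hScard : ∀ i ∈ J, κ₀ * (N : ℝ) / ((2 ^ i * P : ℕ) : ℝ) ≤ ((S i).card : ℝ) := by
    intro i hi
    have hTT := (hJ2 i hi).2
    have hUP' : (P : ℝ) ≤ ((2 ^ i * P : ℕ) : ℝ) := by exact_mod_cast hUP i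
    refine hbl N hN2 (2 ^ i * P) a (hP1.trans hUP') (hpow4 i hi) ha ?_
    refine le_trans ?_ hTT
    apply div_le_div_of_nonneg_left (by positivity) (by positivity)
    gcongr
  have hSsum : ∀ i ∈ J, κ₀ ≤ ∑ b ∈ S i, (b : ℝ)⁻¹ := by
    intro i hi
    have hUP' : (P : ℝ) ≤ ((2 ^ i * P : ℕ) : ℝ) := by exact_mod_cast hUP i
    have hUpos : (0 : ℝ) < ((2 ^ i * P : ℕ) : ℝ) := by linarith
    have hNpos : (0 : ℝ) < N := by linarith
    have h1 : ∀ b ∈ S i, ((2 ^ i * P : ℕ) : ℝ) / N ≤ (b : ℝ)⁻¹ := by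
      intro b hb
      rw [hS, Finset.mem_filter, Finset.mem_Icc] at hb
      have hbpos : (0 : ℝ) < b := by exact_mod_cast hb.1.1
      have h2 : ((2 ^ i * P : ℕ) : ℝ) * b ≤ N := by exact_mod_cast hb.2.2.1
      rw [div_le_iff₀ hNpos, ← div_eq_inv_mul, le_div_iff₀ hbpos]
      exact h2
    calc κ₀ = (κ₀ * (N : ℝ) / ((2 ^ i * P : ℕ) : ℝ)) * (((2 ^ i * P : ℕ) : ℝ) / N) := by
          field_simp
      _ ≤ ((S i).card : ℝ) * (((2 ^ i * P : ℕ) : ℝ) / N) := by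
          apply mul_le_mul_of_nonneg_right (hScard i hi) (by positivity)
      _ = ∑ b ∈ S i, (((2 ^ i * P : ℕ) : ℝ) / N) := by rw [Finset.sum_const, nsmul_eq_mul]
      _ ≤ _ := Finset.sum_le_sum h1
  have hST : ∀ i ∈ J, S i ⊆ T := by
    intro i hi b hb
    rw [hS, Finset.mem_filter, Finset.mem_Icc] at hb
    rw [hT, Finset.mem_filter, Finset.mem_Icc]
    obtain ⟨hb1, hb2, hb3, hb4, hb5⟩ := hb
    refine ⟨hb1, ?_, ?_, hb4, ?_⟩
    · calc N ≤ 8 * (2 ^ i * P) * b := hb2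
        _ ≤ P ^ (32 * A) * b := Nat.mul_le_mul_right b (hpow i hi)
        _ = b * P ^ (32 * A) := Nat.mul_comm _ _
    · calc b * P = P * b := Nat.mul_comm _ _
        _ ≤ (2 ^ i * P) * b := Nat.mul_le_mul_right b (hUP i)
        _ ≤ N := hb3
    · exact c3_cond κ κ₀ _ hκpos hκ1 N (2 ^ i * P) b hb1.1 (le_trans (by omega) (hUP i)) hb2 hb3
        (by omega) hb5
  -- double counting
  have hdc : ∑ i ∈ J, ∑ b ∈ S i, (b : ℝ)⁻¹ ≤ 4 * ∑ b ∈ T, (b : ℝ)⁻¹ := by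
    have h1 : ∀ i ∈ J, ∑ b ∈ S i, (b : ℝ)⁻¹ = ∑ b ∈ T, if b ∈ S i then (b : ℝ)⁻¹ else 0 := by
      intro i hi
      rw [← Finset.sum_filter]
      apply Finset.sum_congr _ (fun _ _ => rfl)
      ext b
      exact ⟨fun hb => Finset.mem_filter.2 ⟨hST i hi hb, hb⟩, fun hb => (Finset.mem_filter.1 hb).2⟩
    rw [Finset.sum_congr rfl h1, Finset.sum_comm, Finset.mul_sum]
    apply Finset.sum_le_sum
    intro b hb
    rw [← Finset.sum_filter, Finset.sum_const, nsmul_eq_mul]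
    have hb1 : 1 ≤ b := by
      rw [hT, Finset.mem_filter, Finset.mem_Icc] at hb
      exact hb.1.1
    have h2 : (J.filter (fun i => b ∈ S i)).card ≤ 4 := by
      apply c3_card_le N P b _ (by omega) (by omega)
      intro i hi
      rw [Finset.mem_filter, hS, Finset.mem_filter] at hi
      exact ⟨hi.2.2.2.1, hi.2.2.1⟩
    have h3 : ((J.filter (fun i => b ∈ S i)).card : ℝ) ≤ 4 := by exact_mod_cast h2
    apply mul_le_mul_of_nonneg_right h3 (by positivity)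
  have hlow : κ₀ * (J.card : ℝ) ≤ ∑ i ∈ J, ∑ b ∈ S i, (b : ℝ)⁻¹ := by
    calc κ₀ * (J.card : ℝ) = ∑ i ∈ J, κ₀ := by rw [Finset.sum_const, nsmul_eq_mul]; ring
      _ ≤ _ := Finset.sum_le_sum hSsum
  have hfin : κ₀ * (c * Real.log P) ≤ 4 * ∑ b ∈ T, (b : ℝ)⁻¹ :=
    (mul_le_mul_of_nonneg_left hJ1 hκ₀.le).trans (hlow.trans hdc)
  calc κ * Real.log P ≤ (κ₀ * c / 4) * Real.log P := mul_le_mul_of_nonneg_right hκ2 hlP.le
    _ = (κ₀ * (c * Real.log P)) / 4 := by ring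
    _ ≤ ∑ b ∈ T, (b : ℝ)⁻¹ := by linarith

end Pool.Agent.Lib.MP_d9bc60_nt.EN
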