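import Pool.Agent.Lib.MP_d9bc60_nt.EN.M1

/-! Row D1a (about 180 lines): `∑_{n ≤ x} χ(n) Λ(n)/n = O(1)` for the character modulo `3`. -/

set_option autoImplicit false

open Finset

namespace Pool.Agent.Lib.MP_d9bc60_nt.EN

theorem chi3_mul (m n : ℕ) : chi3 (m * n) = chi3 m * chi3 n := by
  have hm : m % 3 = 0 ∨ m % 3 = 1 ∨ m % 3 = 2 := by omega
  have hn : n % 3 = 0 ∨ n % 3 = 1 ∨ n % 3 = 2 := by omega
  unfold chi3
  rw [Nat.mul_mod]
  rcases hm with h | h | h <;> rcases hn with h' | h' | h' <;> rw [h, h'] <;> norm_num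

theorem d1a_chi0 (m : ℕ) : chi3 (3 * m) = 0 := by
  unfold chi3
  rw [if_neg (by omega), if_neg (by omega)]

theorem d1a_chi1 (m : ℕ) : chi3 (3 * m + 1) = 1 := by
  unfold chi3
  rw [if_pos (by omega)]

theorem d1a_chi2 (m : ℕ) : chi3 (3 * m + 2) = -1 := by
  unfold chi3
  rw [if_neg (by omega), if_pos (by omega)]

theorem d1a_abs (n : ℕ) : |chi3 n| ≤ 1 := by
  unfold chi3
  split_ifs <;> norm_num

/-- partial sums -/
noncomputable def d1a_S (f : ℕ → ℝ) (n : ℕ) : ℝ := ∑ k ∈ Icc 1 n, chi3 k * f k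

theorem d1a_S1 (f : ℕ → ℝ) (m : ℕ) : d1a_S f (3 * m + 1) = d1a_S f (3 * m) + f (3 * m + 1) := by
  unfold d1a_S
  rw [Finset.sum_Icc_succ_top (by omega), d1a_chi1, one_mul]

theorem d1a_S2 (f : ℕ → ℝ) (m : ℕ) :
    d1a_S f (3 * m + 2) = d1a_S f (3 * m + 1) - f (3 * m + 2) := by
  unfold d1a_S
  rw [Finset.sum_Icc_succ_top (by omega), d1a_chi2]
  ring

theorem d1a_S3 (f : ℕ → ℝ) (m : ℕ) : d1a_S f (3 * (m + 1)) = d1a_S f (3 * m + 2) := by
  unfold d1a_S
  rw [show 3 * (m + 1) = (3 * m + 2) + 1 by ring, Finset.sum_Icc_succ_top (by omega),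
    show (3 * m + 2) + 1 = 3 * (m + 1) by ring, d1a_chi0]
  ring

/-- the limit of the partial sums lies between them -/
theorem d1a_lim (f : ℕ → ℝ) (h0 : ∀ k, 0 ≤ f k) (hf : ∀ k, 3 ≤ k → f (k + 1) ≤ f k) :
    ∃ L : ℝ, ∀ m : ℕ, d1a_S f (3 * (m + 1)) ≤ L ∧ L ≤ d1a_S f (3 * (m + 1) + 1) ∧
      d1a_S f 3 ≤ d1a_S f (3 * (m + 1)) ∧ d1a_S f (3 * (m + 1) + 1) ≤ d1a_S f 4 := by
  set a : ℕ → ℝ := fun m => d1a_S f (3 * (m + 1)) with ha
  set u : ℕ → ℝ := fun m => d1a_S f (3 * (m + 1) + 1) with hu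
  have hmono : Monotone a := by
    refine monotone_nat_of_le_succ fun m => ?_
    show d1a_S f (3 * (m + 1)) ≤ d1a_S f (3 * ((m + 1) + 1))
    rw [d1a_S3 f (m + 1), d1a_S2, d1a_S1]
    have := hf (3 * (m + 1) + 1) (by omega)
    linarith
  have hanti : Antitone u := by
    refine antitone_nat_of_succ_le fun m => ?_
    show d1a_S f (3 * ((m + 1) + 1) + 1) ≤ d1a_S f (3 * (m + 1) + 1)
    rw [d1a_S1 f ((m + 1) + 1), d1a_S3 f (m + 1), d1a_S2]
    have h1 := hf (3 * (m + 1) + 2) (by omega)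
    have h2 := hf (3 * (m + 1) + 2 + 1) (by omega)
    have h3 : f (3 * ((m + 1) + 1) + 1) = f (3 * (m + 1) + 2 + 1 + 1) := by
      congr 1
    rw [h3]
    linarith
  have hau : ∀ m, a m ≤ u m := fun m => by
    show d1a_S f (3 * (m + 1)) ≤ d1a_S f (3 * (m + 1) + 1)
    rw [d1a_S1]
    have := h0 (3 * (m + 1) + 1)
    linarith
  have hau' : ∀ m k, a m ≤ u k := fun m k =>
    (hmono (le_max_left m k)).trans ((hau _).trans (hanti (le_max_right m k)))
  refine ⟨⨆ m, a m, fun m => ⟨?_, ?_, ?_, ?_⟩⟩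
  · exact le_ciSup (f := a) ⟨u 0, by rintro _ ⟨k, rfl⟩; exact hau' k 0⟩ m
  · exact ciSup_le fun k => hau' k m
  · exact hmono (Nat.zero_le m)
  · exact hanti (Nat.zero_le m)

/-- There is a limit `L ≥ 1/2` with `|∑_{k ≤ n} χ(k)/k - L| ≤ 3/(n+1)`. Proof: the partial sums up to
`3 k + 2` increase (`1/(3k+1) - 1/(3k+2) > 0`), those up to `3 k + 1` decrease, differences at most
`1/(3k+1)`; the first sum `1 - 1/2 = 1/2`. -/
theorem chi3_sum_inv : ∃ L : ℝ, 1 / 2 ≤ L ∧ ∀ n : ℕ,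
    |∑ k ∈ Icc 1 n, chi3 k / (k : ℝ) - L| ≤ 3 / ((n : ℝ) + 1) := by
  obtain ⟨L, hL⟩ := d1a_lim (fun k => 1 / (k : ℝ)) (fun k => by positivity) (fun k hk => by
    have h1 : (0 : ℝ) < k := by exact_mod_cast (by omega : 0 < k)
    push_cast
    gcongr
    linarith)
  have hS : ∀ n : ℕ, ∑ k ∈ Icc 1 n, chi3 k / (k : ℝ) = d1a_S (fun k => 1 / (k : ℝ)) n := by
    intro n
    unfold d1a_S
    exact Finset.sum_congr rfl fun k _ => by ring
  set f : ℕ → ℝ := fun k => 1 / (k : ℝ) with hf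
  have s0 : d1a_S f 0 = 0 := by unfold d1a_S; simp
  have s1 : d1a_S f 1 = 1 := by
    have := d1a_S1 f 0
    simp only [Nat.mul_zero, Nat.zero_add] at this
    rw [this, s0, hf]; norm_num
  have s2 : d1a_S f 2 = 1 / 2 := by
    have := d1a_S2 f 0
    simp only [Nat.mul_zero, Nat.zero_add] at this
    rw [this, s1, hf]; norm_num
  have s3 : d1a_S f 3 = 1 / 2 := by
    have := d1a_S3 f 0
    simp only [Nat.mul_zero, Nat.zero_add, Nat.mul_one] at this
    rw [this, s2]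
  have s4 : d1a_S f 4 = 3 / 4 := by
    have := d1a_S1 f 1
    simp only [Nat.mul_one] at this
    rw [this, s3, hf]; norm_num
  have hL0 := hL 0
  simp only [Nat.zero_add, Nat.mul_one] at hL0
  rw [s3] at hL0
  have hL4 : L ≤ 3 / 4 := by
    have := hL0.2.1
    rwa [show 3 + 1 = 4 from rfl, s4] at this
  have hL2 : 1 / 2 ≤ L := hL0.1
  refine ⟨L, hL2, fun n => ?_⟩
  rw [hS n]
  obtain ⟨m, r, hr, hn⟩ : ∃ m r, r < 3 ∧ n = 3 * m + r := ⟨n / 3, n % 3, by omega, by omega⟩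
  rcases Nat.eq_zero_or_pos m with hm | hm
  · subst hm
    rw [Nat.mul_zero, Nat.zero_add] at hn
    subst hn
    rw [abs_le]
    interval_cases n
    · rw [s0]; constructor <;> norm_num <;> linarith
    · rw [s1]; constructor <;> norm_num <;> linarith
    · rw [s2]; constructor <;> norm_num <;> linarith
  · obtain ⟨k, rfl⟩ : ∃ k, m = k + 1 := ⟨m - 1, by omega⟩
    have hk := hL k
    have hk' := hL (k + 1)
    have e1 := d1a_S1 f (k + 1)
    have e2 := d1a_S2 f (k + 1)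
    have e3 := d1a_S3 f (k + 1)
    have hkpos : (0 : ℝ) ≤ k := Nat.cast_nonneg k
    have f1 : f (3 * (k + 1) + 1) = 1 / (3 * (k : ℝ) + 4) := by
      rw [hf]; push_cast; ring
    have f2 : f (3 * ((k + 1) + 1) + 1) = 1 / (3 * (k : ℝ) + 7) := by
      rw [hf]; push_cast; ring
    have e1' := d1a_S1 f ((k + 1) + 1)
    rw [f1] at e1
    rw [f2] at e1'
    rw [abs_le]
    have hr' : r = 0 ∨ r = 1 ∨ r = 2 := by omega
    rcases hr' with rfl | rfl | rfl
    · rw [hn, Nat.add_zero]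
      have hb : 1 / (3 * (k : ℝ) + 4) ≤ 3 / (((3 * (k + 1) : ℕ) : ℝ) + 1) := by
        push_cast
        rw [div_le_div_iff₀ (by positivity) (by positivity)]
        nlinarith
      constructor
      · linarith [hk.1, hk.2.1]
      · have : (0 : ℝ) ≤ 3 / (((3 * (k + 1) : ℕ) : ℝ) + 1) := by positivity
        linarith [hk.1]
    · rw [hn]
      have hb : 1 / (3 * (k : ℝ) + 4) ≤ 3 / (((3 * (k + 1) + 1 : ℕ) : ℝ) + 1) := by
        push_cast
        rw [div_le_div_iff₀ (by positivity) (by positivity)]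
        nlinarith
      constructor
      · have : (0 : ℝ) ≤ 3 / (((3 * (k + 1) + 1 : ℕ) : ℝ) + 1) := by positivity
        linarith [hk.2.1]
      · linarith [hk.1, hk.2.1]
    · rw [hn, ← e3]
      have hb : 1 / (3 * (k : ℝ) + 7) ≤ 3 / (((3 * (k + 1) + 2 : ℕ) : ℝ) + 1) := by
        push_cast
        rw [div_le_div_iff₀ (by positivity) (by positivity)]
        nlinarith
      constructor
      · linarith [hk'.1, hk'.2.1]
      · have : (0 : ℝ) ≤ 3 / (((3 * (k + 1) + 2 : ℕ) : ℝ) + 1) := by positivity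
        linarith [hk'.1]

/-- `∑_{k ≤ n} χ(k) log k / k` is bounded (`log x / x` decreases for `x ≥ 3`, the sums of `χ` over
intervals have absolute value at most one). -/
theorem chi3_sum_log : ∃ C : ℝ, ∀ n : ℕ,
    |∑ k ∈ Icc 1 n, chi3 k * Real.log k / (k : ℝ)| ≤ C := by
  set f : ℕ → ℝ := fun k => Real.log k / (k : ℝ) with hf
  have hS : ∀ n : ℕ, ∑ k ∈ Icc 1 n, chi3 k * Real.log k / (k : ℝ) = d1a_S f n := by
    intro n
    unfold d1a_S
    exact Finset.sum_congr rfl fun k _ => by rw [hf]; ring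
  obtain ⟨L, hL⟩ := d1a_lim f (fun k => div_nonneg (Real.log_natCast_nonneg k) (Nat.cast_nonneg k))
    (fun k hk => by
      have he : Real.exp 1 ≤ (k : ℝ) := by
        have h1 := Real.exp_one_lt_d9
        have h2 : (3 : ℝ) ≤ k := by exact_mod_cast hk
        linarith
      have := Real.log_div_self_antitoneOn (a := (k : ℝ)) (b := ((k + 1 : ℕ) : ℝ)) he
        (by simp only [Set.mem_Ici]; push_cast; linarith) (by push_cast; linarith)
      exact this)
  have key : ∀ x : ℝ, d1a_S f 3 ≤ x → x ≤ d1a_S f 4 → |x| ≤ |d1a_S f 3| + |d1a_S f 4| := by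
    intro x h1 h2
    rw [abs_le]
    constructor
    · have := neg_abs_le (d1a_S f 3)
      have := abs_nonneg (d1a_S f 4)
      linarith
    · have := le_abs_self (d1a_S f 4)
      have := abs_nonneg (d1a_S f 3)
      linarith
  refine ⟨|d1a_S f 0| + |d1a_S f 1| + |d1a_S f 2| + (|d1a_S f 3| + |d1a_S f 4|), fun n => ?_⟩
  rw [hS n]
  have n0 := abs_nonneg (d1a_S f 0)
  have n1 := abs_nonneg (d1a_S f 1)
  have n2 := abs_nonneg (d1a_S f 2)
  have n3 := abs_nonneg (d1a_S f 3)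
  have n4 := abs_nonneg (d1a_S f 4)
  obtain ⟨m, r, hr, hn⟩ : ∃ m r, r < 3 ∧ n = 3 * m + r := ⟨n / 3, n % 3, by omega, by omega⟩
  rcases Nat.eq_zero_or_pos m with hm | hm
  · subst hm
    rw [Nat.mul_zero, Nat.zero_add] at hn
    subst hn
    interval_cases n <;> linarith
  · obtain ⟨k, rfl⟩ : ∃ k, m = k + 1 := ⟨m - 1, by omega⟩
    have hk := hL k
    have hk' := hL (k + 1)
    have e3 := d1a_S3 f (k + 1)
    have hr' : r = 0 ∨ r = 1 ∨ r = 2 := by omega
    rcases hr' with rfl | rfl | rfl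
    · rw [hn, Nat.add_zero]
      have := key _ hk.2.2.1 (hk.1.trans (hk.2.1.trans hk.2.2.2))
      linarith
    · rw [hn]
      have := key _ (hk.2.2.1.trans (hk.1.trans hk.2.1)) hk.2.2.2
      linarith
    · rw [hn, ← e3]
      have := key _ hk'.2.2.1 (hk'.1.trans (hk'.2.1.trans hk'.2.2.2))
      linarith

/-- `χ Λ / id` as an arithmetic function -/
noncomputable def d1a_F : ArithmeticFunction ℝ :=
  ⟨fun d => chi3 d * ArithmeticFunction.vonMangoldt d / (d : ℝ), by simp⟩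

/-- `χ / id` as an arithmetic function -/
noncomputable def d1a_G : ArithmeticFunction ℝ :=
  ⟨fun d => chi3 d / (d : ℝ), by simp⟩

theorem d1a_F_apply (d : ℕ) :
    d1a_F d = chi3 d * ArithmeticFunction.vonMangoldt d / (d : ℝ) := rfl

theorem d1a_G_apply (d : ℕ) : d1a_G d = chi3 d / (d : ℝ) := rfl

theorem d1a_FG (n : ℕ) : (d1a_F * d1a_G) n = chi3 n * Real.log n / (n : ℝ) := by
  rw [ArithmeticFunction.mul_apply]
  have h1 : ∀ x ∈ n.divisorsAntidiagonal, d1a_F x.1 * d1a_G x.2 =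
      chi3 n / n * ArithmeticFunction.vonMangoldt x.1 := by
    intro x hx
    obtain ⟨hx1, hx2⟩ := Nat.mem_divisorsAntidiagonal.1 hx
    rw [d1a_F_apply, d1a_G_apply, ← hx1, chi3_mul]
    push_cast
    rw [div_mul_div_comm, div_mul_eq_mul_div]
    ring
  rw [Finset.sum_congr rfl h1, ← Finset.mul_sum,
    Nat.sum_divisorsAntidiagonal (fun i _ => ArithmeticFunction.vonMangoldt i),
    ArithmeticFunction.vonMangoldt_sum]
  ring

/-- `∑_{d ≤ n} χ(d) Λ(d)/d` is bounded: `log k = ∑_{d ∣ k} Λ(d)` gives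
`∑_{k ≤ n} χ(k) log k/k = ∑_{d ≤ n} (χ(d)Λ(d)/d) S(n/d)`, `S(u) = ∑_{j ≤ u} χ(j)/j = L + O(1/(u+1))`
(`n/d` = natural division, `1/(n/d + 1) ≤ d/n`), so
`L |∑ χ(d)Λ(d)/d| ≤ C + ∑_{d ≤ n} (Λ(d)/d)(3 d/n) = C + 3 ψ(n)/n ≤ C'`, and `L ≥ 1/2`. -/
theorem chi3_sum_mangoldt : ∃ C : ℝ, 0 < C ∧ ∀ n : ℕ,
    |∑ d ∈ Icc 1 n, chi3 d * ArithmeticFunction.vonMangoldt d / (d : ℝ)| ≤ C := by
  obtain ⟨L, hL2, hL⟩ := chi3_sum_inv
  obtain ⟨C, hC⟩ := chi3_sum_log
  have hC0 : 0 ≤ C := (abs_nonneg _).trans (hC 0)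
  have hl4 : 0 < Real.log 4 := Real.log_pos (by norm_num)
  refine ⟨2 * (C + 3 * (Real.log 4 + 4)), by linarith, fun n => ?_⟩
  rcases Nat.eq_zero_or_pos n with hn | hn
  · subst hn
    simp only [Nat.lt_one_iff, pos_of_gt, Finset.Icc_eq_empty_of_lt, Finset.sum_empty, abs_zero]
    linarith
  have hn' : (0 : ℝ) < n := by exact_mod_cast hn
  have hIcc : ∀ n : ℕ, Icc 1 n = Ioc 0 n := by
    intro n
    ext d; simp only [Finset.mem_Icc, Finset.mem_Ioc]; omega
  have h1 := ArithmeticFunction.sum_Ioc_mul_eq_sum_sum d1a_F d1a_G n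
  have h2 : ∑ k ∈ Ioc 0 n, (d1a_F * d1a_G) k =
      ∑ k ∈ Icc 1 n, chi3 k * Real.log k / (k : ℝ) := by
    rw [hIcc]
    exact Finset.sum_congr rfl fun k _ => d1a_FG k
  rw [h2] at h1
  have h3 : L * ∑ d ∈ Icc 1 n, chi3 d * ArithmeticFunction.vonMangoldt d / (d : ℝ) =
      ∑ k ∈ Icc 1 n, chi3 k * Real.log k / (k : ℝ) -
        ∑ d ∈ Ioc 0 n, d1a_F d * (∑ m ∈ Ioc 0 (n / d), d1a_G m - L) := by
    rw [h1, hIcc, Finset.mul_sum, ← Finset.sum_sub_distrib]
    refine Finset.sum_congr rfl fun d _ => ?_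
    rw [← d1a_F_apply]
    ring
  have h4 : |∑ d ∈ Ioc 0 n, d1a_F d * (∑ m ∈ Ioc 0 (n / d), d1a_G m - L)| ≤
      3 * (Real.log 4 + 4) := by
    calc |∑ d ∈ Ioc 0 n, d1a_F d * (∑ m ∈ Ioc 0 (n / d), d1a_G m - L)|
        ≤ ∑ d ∈ Ioc 0 n, |d1a_F d * (∑ m ∈ Ioc 0 (n / d), d1a_G m - L)| :=
          Finset.abs_sum_le_sum_abs _ _
      _ ≤ ∑ d ∈ Ioc 0 n, ArithmeticFunction.vonMangoldt d * (3 / n) := by
          refine Finset.sum_le_sum fun d hd => ?_
          rw [Finset.mem_Ioc] at hd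
          have hd' : (0 : ℝ) < d := by exact_mod_cast hd.1
          have h5 : |∑ m ∈ Ioc 0 (n / d), d1a_G m - L| ≤ 3 * d / n := by
            have h6 := hL (n / d)
            rw [hIcc] at h6
            have h7 : (n : ℝ) / d ≤ ((n / d : ℕ) : ℝ) + 1 := by
              have h3 := (Nat.lt_floor_add_one ((n : ℝ) / (d : ℝ))).le
              rwa [Nat.floor_div_eq_div] at h3
            refine h6.trans ?_
            calc 3 / (((n / d : ℕ) : ℝ) + 1) ≤ 3 / ((n : ℝ) / d) := by gcongr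
              _ = 3 * d / n := by field_simp
          have h6 : |d1a_F d| ≤ ArithmeticFunction.vonMangoldt d / d := by
            rw [d1a_F_apply, abs_div, abs_mul, abs_of_nonneg hd'.le,
              abs_of_nonneg ArithmeticFunction.vonMangoldt_nonneg]
            gcongr
            exact mul_le_of_le_one_left ArithmeticFunction.vonMangoldt_nonneg (d1a_abs d)
          rw [abs_mul]
          calc |d1a_F d| * |∑ m ∈ Ioc 0 (n / d), d1a_G m - L|
              ≤ (ArithmeticFunction.vonMangoldt d / d) * (3 * d / n) :=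
                mul_le_mul h6 h5 (abs_nonneg _)
                  (div_nonneg ArithmeticFunction.vonMangoldt_nonneg hd'.le)
            _ = ArithmeticFunction.vonMangoldt d * (3 / n) := by field_simp
      _ = (∑ d ∈ Ioc 0 n, ArithmeticFunction.vonMangoldt d) * (3 / n) := by
          rw [Finset.sum_mul]
      _ ≤ ((Real.log 4 + 4) * n) * (3 / n) := by
          have h5 := Chebyshev.psi_le_const_mul_self (x := (n : ℝ)) hn'.le
          have h6 : Chebyshev.psi (n : ℝ) = ∑ d ∈ Ioc 0 n, ArithmeticFunction.vonMangoldt d := by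
            rw [Chebyshev.psi, Nat.floor_natCast]
          rw [h6] at h5
          gcongr
      _ = 3 * (Real.log 4 + 4) := by field_simp
  have h5 : |L * ∑ d ∈ Icc 1 n, chi3 d * ArithmeticFunction.vonMangoldt d / (d : ℝ)| ≤
      C + 3 * (Real.log 4 + 4) := by
    rw [h3]
    exact (abs_sub _ _).trans (add_le_add (hC n) h4)
  rw [abs_mul, abs_of_nonneg (by linarith : (0 : ℝ) ≤ L)] at h5
  have h6 := abs_nonneg (∑ d ∈ Icc 1 n, chi3 d * ArithmeticFunction.vonMangoldt d / (d : ℝ))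
  nlinarith

end Pool.Agent.Lib.MP_d9bc60_nt.EN
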