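import Pool.Agent.Lib.MP_d9bc60_nt.EN.Defs

/-! Row G1 (about 150 lines): lower bound of the sieve sum by a product of two linear sums. -/

set_option autoImplicit false

open Finset

namespace Pool.Agent.Lib.MP_d9bc60_nt.EN

theorem g1_fib (D W e : ℕ) (hD : Squarefree D) (he : e ∣ D) (_ : W ∣ D) (S : Finset (ℕ × ℕ))
    (hS : ∀ x ∈ S, x.1 ∣ D ∧ x.2 ∣ W ∧ Nat.lcm x.1 x.2 = e) (g h : ℕ) (hg : g = Nat.gcd e W)
    (hh : e = h * g) :
    ∑ x ∈ S, Sieve.iphi x.1 * Sieve.iphi x.2 ≤ Sieve.iphi h *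
      ∏ p ∈ g.primeFactors, ((2 * (p : ℝ) - 1) / ((p : ℝ) - 1) ^ 2) := by
  classical
  have hpos : ∀ n : ℕ, 0 ≤ Sieve.iphi n := fun n => by rw [Sieve.iphi_apply]; positivity
  have hesq : Squarefree e := Squarefree.squarefree_of_dvd he hD
  have he0 : e ≠ 0 := hesq.ne_zero
  have hge : g ∣ e := hg ▸ Nat.gcd_dvd_left _ _
  have hgsq : Squarefree g := Squarefree.squarefree_of_dvd hge hesq
  have hg0 : g ≠ 0 := hgsq.ne_zero
  have hh0 : h ≠ 0 := by
    rintro rfl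
    exact he0 (by rw [hh, zero_mul])
  have hhpos : 0 < h := Nat.pos_of_ne_zero hh0
  have hcop : Nat.Coprime h g := by
    apply Nat.coprime_of_squarefree_mul
    rw [← hh]
    exact hesq
  have key : ∀ x ∈ S, ∃ a' : ℕ, x.1 = h * a' ∧ a' ∣ g ∧ x.2 ∣ g ∧ g ∣ a' * x.2 := by
    intro x hx
    obtain ⟨h1, h2, h3⟩ := hS x hx
    have h4 : x.1 ∣ e := h3 ▸ Nat.dvd_lcm_left _ _
    have h5 : x.2 ∣ e := h3 ▸ Nat.dvd_lcm_right _ _
    have h6 : x.2 ∣ g := hg ▸ Nat.dvd_gcd h5 h2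
    have h7 : e ∣ x.1 * x.2 := h3 ▸ Nat.lcm_dvd_mul _ _
    have h8 : h ∣ x.1 := by
      have h9 : h ∣ x.1 * x.2 := (Dvd.intro g hh.symm).trans h7
      exact (Nat.Coprime.coprime_dvd_right h6 hcop).dvd_of_dvd_mul_right h9
    obtain ⟨a', ha'⟩ := h8
    refine ⟨a', ha', ?_, h6, ?_⟩
    · rw [ha', hh] at h4
      exact (Nat.mul_dvd_mul_iff_left hhpos).1 h4
    · rw [ha', hh, mul_assoc] at h7
      exact (Nat.mul_dvd_mul_iff_left hhpos).1 h7
  rw [← Sieve.T_eq g hgsq]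
  have h2 : ∑ a ∈ g.divisors, Sieve.iphi a *
        ∑ b ∈ g.divisors.filter (fun b => (g / a) ∣ b), Sieve.iphi b =
      ∑ x ∈ g.divisors.sigma (fun a => g.divisors.filter (fun b => (g / a) ∣ b)),
        Sieve.iphi x.1 * Sieve.iphi x.2 := by
    rw [Finset.sum_sigma]
    apply Finset.sum_congr rfl
    intro a _
    rw [Finset.mul_sum]
  rw [h2, Finset.mul_sum]
  have h3 : ∑ x ∈ S, Sieve.iphi x.1 * Sieve.iphi x.2 =
      ∑ x ∈ S.image (fun x => (⟨x.1 / h, x.2⟩ : (_ : ℕ) × ℕ)),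
        Sieve.iphi h * (Sieve.iphi x.1 * Sieve.iphi x.2) := by
    rw [Finset.sum_image]
    · refine Finset.sum_congr rfl fun x hx => ?_
      obtain ⟨a', ha', hag, _, _⟩ := key x hx
      simp only
      rw [ha', Nat.mul_div_cancel_left _ hhpos,
        Sieve.iphi_mult.map_mul_of_coprime (Nat.Coprime.coprime_dvd_right hag hcop), mul_assoc]
    · intro x hx y hy hxy
      simp only [Sigma.mk.injEq, heq_eq_eq] at hxy
      obtain ⟨a', ha', _, _, _⟩ := key x hx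
      obtain ⟨b', hb', _, _, _⟩ := key y hy
      rw [ha', hb', Nat.mul_div_cancel_left _ hhpos, Nat.mul_div_cancel_left _ hhpos] at hxy
      refine Prod.ext ?_ hxy.2
      rw [ha', hb', hxy.1]
  rw [h3]
  apply Finset.sum_le_sum_of_subset_of_nonneg
  · intro y hy
    rw [Finset.mem_image] at hy
    obtain ⟨x, hx, rfl⟩ := hy
    obtain ⟨a', ha', hag, hbg, hgab⟩ := key x hx
    rw [Finset.mem_sigma, Nat.mem_divisors, Finset.mem_filter, Nat.mem_divisors]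
    simp only
    rw [ha', Nat.mul_div_cancel_left _ hhpos]
    refine ⟨⟨hag, hg0⟩, ⟨hbg, hg0⟩, ?_⟩
    rw [Nat.div_dvd_iff_dvd_mul hag (Nat.pos_of_dvd_of_pos hag (Nat.pos_of_ne_zero hg0))]
    exact hgab
  · intro x _ _
    exact mul_nonneg (hpos _) (mul_nonneg (hpos _) (hpos _))

/-- Like `Sieve.sq_le` (SieveTwo.lean, copy its proof): group the pairs `(a, b)`, `a ∣ D`, `b ∣ W`,
`a, b ≤ y`, by `e = lcm a b ∣ D`, `e ≤ y² ≤ z`. The sum of `1/(φ(a) φ(b))` over all pairs with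
`lcm a b = e`, `b ∣ W`, is `∏_{l ∣ e, l ∤ W} 1/(l-1) · ∏_{l ∣ e, l ∣ W} (2 l - 1)/(l-1)²` and
`1/(l-1) ≤ k/(l-k)` for `k ≥ 1`, `(2l-1)/(l-1)² ≤ 2/(l-2)`. (An upper bound for the sum over
the pairs is enough; alternatively: map `(a, b)` to `(e, a)` and use
`∑_{a ∣ e} (1/φ(a)) ∑_{b : lcm = e}` as in `Sieve.T_eq`.) -/
theorem mixed_lower (D W y z : ℕ) (hD : Squarefree D) (hW : W ∣ D) (hyz : y * y ≤ z)
    (k : ℕ → ℕ) (hk : ∀ l ∈ D.primeFactors, 1 ≤ k l ∧ k l < l ∧ (l ∣ W → k l = 2)) :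
    (∑ a ∈ D.divisors.filter (· ≤ y), Sieve.iphi a) *
      (∑ b ∈ W.divisors.filter (· ≤ y), Sieve.iphi b) ≤
      ∑ e ∈ D.divisors.filter (· ≤ z), ∏ l ∈ e.primeFactors,
        (((k l : ℕ) : ℝ) / ((l : ℝ) - ((k l : ℕ) : ℝ))) := by
  classical
  have hpos : ∀ n : ℕ, 0 ≤ Sieve.iphi n := fun n => by rw [Sieve.iphi_apply]; positivity
  obtain ⟨A, hA⟩ : ∃ A : Finset ℕ, A = D.divisors.filter (· ≤ y) := ⟨_, rfl⟩
  obtain ⟨B, hB⟩ : ∃ B : Finset ℕ, B = W.divisors.filter (· ≤ y) := ⟨_, rfl⟩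
  obtain ⟨E, hE⟩ : ∃ E : Finset ℕ, E = D.divisors.filter (· ≤ z) := ⟨_, rfl⟩
  rw [← hA, ← hB, ← hE]
  have hD0 : D ≠ 0 := hD.ne_zero
  have h1 : (∑ a ∈ A, Sieve.iphi a) * (∑ b ∈ B, Sieve.iphi b) =
      ∑ x ∈ A ×ˢ B, Sieve.iphi x.1 * Sieve.iphi x.2 := by
    rw [Finset.sum_mul_sum, Finset.sum_product]
  rw [h1]
  have hmaps : ∀ x ∈ A ×ˢ B, Nat.lcm x.1 x.2 ∈ E := by
    intro x hx
    rw [Finset.mem_product, hA, hB, Finset.mem_filter, Finset.mem_filter, Nat.mem_divisors,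
      Nat.mem_divisors] at hx
    rw [hE, Finset.mem_filter, Nat.mem_divisors]
    have hx2D := hx.2.1.1.trans hW
    refine ⟨⟨Nat.lcm_dvd hx.1.1.1 hx2D, hD0⟩, ?_⟩
    have hx1 : 0 < x.1 := Nat.pos_of_dvd_of_pos hx.1.1.1 (Nat.pos_of_ne_zero hD0)
    have hx2 : 0 < x.2 := Nat.pos_of_dvd_of_pos hx2D (Nat.pos_of_ne_zero hD0)
    calc Nat.lcm x.1 x.2 ≤ x.1 * x.2 :=
          Nat.le_of_dvd (Nat.mul_pos hx1 hx2) (Nat.lcm_dvd_mul _ _)
      _ ≤ y * y := Nat.mul_le_mul hx.1.2 hx.2.2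
      _ ≤ z := hyz
  rw [← Finset.sum_fiberwise_of_maps_to hmaps]
  refine Finset.sum_le_sum fun e he => ?_
  rw [hE, Finset.mem_filter, Nat.mem_divisors] at he
  have hesq : Squarefree e := Squarefree.squarefree_of_dvd he.1.1 hD
  have hge : Nat.gcd e W ∣ e := Nat.gcd_dvd_left _ _
  obtain ⟨h, hh⟩ : ∃ h : ℕ, e = h * Nat.gcd e W := ⟨e / Nat.gcd e W, (Nat.div_mul_cancel hge).symm⟩
  obtain ⟨g, hg⟩ : ∃ g : ℕ, g = Nat.gcd e W := ⟨_, rfl⟩
  rw [← hg] at hh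
  refine (g1_fib D W e hD he.1.1 hW _ ?_ g h hg hh).trans ?_
  · intro x hx
    rw [Finset.mem_filter, Finset.mem_product, hA, hB, Finset.mem_filter, Finset.mem_filter,
      Nat.mem_divisors, Nat.mem_divisors] at hx
    exact ⟨hx.1.1.1.1, hx.1.2.1.1, hx.2⟩
  have hcop : Nat.Coprime h g := by
    apply Nat.coprime_of_squarefree_mul
    rw [← hh]
    exact hesq
  have hhsq : Squarefree h := Squarefree.squarefree_of_dvd (Dvd.intro g hh.symm) hesq
  have hhe : h ∣ e := Dvd.intro g hh.symm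
  rw [hh, hcop.primeFactors_mul, Finset.prod_union hcop.disjoint_primeFactors,
    ← Sieve.iphi_mult.prod_primeFactors hhsq]
  refine mul_le_mul ?_ ?_ ?_ ?_
  · refine Finset.prod_le_prod (fun l _ => hpos l) ?_
    intro l hl
    have hlp := Nat.prime_of_mem_primeFactors hl
    have hlD : l ∈ D.primeFactors := Nat.mem_primeFactors.2 ⟨hlp,
      ((Nat.dvd_of_mem_primeFactors hl).trans hhe).trans he.1.1, hD0⟩
    obtain ⟨k1, k2, _⟩ := hk l hlD
    have k1' : (1 : ℝ) ≤ ((k l : ℕ) : ℝ) := by exact_mod_cast k1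
    have k2' : ((k l : ℕ) : ℝ) < l := by exact_mod_cast k2
    rw [Sieve.iphi_prime l hlp, inv_eq_one_div,
      div_le_div_iff₀ (by linarith) (by linarith)]
    nlinarith
  · refine Finset.prod_le_prod ?_ ?_
    · intro l hl
      have hlp := Nat.prime_of_mem_primeFactors hl
      have : (2 : ℝ) ≤ l := by exact_mod_cast hlp.two_le
      exact div_nonneg (by linarith) (sq_nonneg _)
    · intro l hl
      have hlp := Nat.prime_of_mem_primeFactors hl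
      have hlg := Nat.dvd_of_mem_primeFactors hl
      have hlW : l ∣ W := hlg.trans (hg ▸ Nat.gcd_dvd_right _ _)
      have hlD : l ∈ D.primeFactors := Nat.mem_primeFactors.2 ⟨hlp, hlW.trans hW, hD0⟩
      obtain ⟨_, k2, k3⟩ := hk l hlD
      have k4 := k3 hlW
      rw [k4] at k2 ⊢
      have k2' : (2 : ℝ) < l := by exact_mod_cast k2
      push_cast
      rw [div_le_div_iff₀ (by nlinarith) (by linarith)]
      nlinarith
  · refine Finset.prod_nonneg fun l hl => ?_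
    have hlp := Nat.prime_of_mem_primeFactors hl
    have : (2 : ℝ) ≤ l := by exact_mod_cast hlp.two_le
    exact div_nonneg (by linarith) (sq_nonneg _)
  · refine Finset.prod_nonneg fun l hl => ?_
    have hlp := Nat.prime_of_mem_primeFactors hl
    have hlD : l ∈ D.primeFactors := Nat.mem_primeFactors.2 ⟨hlp,
      ((Nat.dvd_of_mem_primeFactors hl).trans hhe).trans he.1.1, hD0⟩
    obtain ⟨k1, k2, _⟩ := hk l hlD
    have k2' : ((k l : ℕ) : ℝ) < l := by exact_mod_cast k2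
    exact div_nonneg (Nat.cast_nonneg _) (by linarith)

end Pool.Agent.Lib.MP_d9bc60_nt.EN
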