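import Pool.Agent.Lib.MP_d9bc60_nt.EN.M1

/-! Row M2 (about 200 lines): Mertens' product, both bounds. -/

set_option autoImplicit false

open Finset

namespace Pool.Agent.Lib.MP_d9bc60_nt.EN

/-- adding one index to a filtered sum -/
theorem m2_succ (F : ℕ → ℝ) (n : ℕ) :
    ∑ p ∈ (Icc 1 (n + 1)).filter Nat.Prime, F p =
      ∑ p ∈ (Icc 1 n).filter Nat.Prime, F p + (if (n + 1).Prime then F (n + 1) else 0) := by
  rw [Finset.sum_filter, Finset.sum_Icc_succ_top (by omega), Finset.sum_filter]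

/-- the upper bound in Mertens' first theorem, for primes -/
theorem m2_S : ∃ C : ℝ, 0 < C ∧ ∀ n : ℕ, 1 ≤ n →
    ∑ p ∈ (Icc 1 n).filter Nat.Prime, Real.log p / p ≤ Real.log n + C := by
  obtain ⟨C, hC, h⟩ := mertens_one
  refine ⟨C, hC, ?_⟩
  intro n hn
  have h1 := (abs_le.mp (h n hn)).2
  have h2 : ∑ p ∈ (Icc 1 n).filter Nat.Prime, Real.log p / p ≤
      ∑ d ∈ Icc 1 n, ArithmeticFunction.vonMangoldt d / (d : ℝ) := by
    calc ∑ p ∈ (Icc 1 n).filter Nat.Prime, Real.log p / p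
        = ∑ p ∈ (Icc 1 n).filter Nat.Prime, ArithmeticFunction.vonMangoldt p / (p : ℝ) := by
          refine Finset.sum_congr rfl ?_
          intro p hp
          rw [Finset.mem_filter] at hp
          rw [ArithmeticFunction.vonMangoldt_apply_prime hp.2]
      _ ≤ ∑ d ∈ Icc 1 n, ArithmeticFunction.vonMangoldt d / (d : ℝ) := by
          refine Finset.sum_le_sum_of_subset_of_nonneg (Finset.filter_subset _ _) ?_
          intro d _ _
          exact div_nonneg ArithmeticFunction.vonMangoldt_nonneg (Nat.cast_nonneg d)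
  linarith

/-- `∑_{p ≤ n} 1/p ≤ log log n + C` (`n ≥ 3`). Proof: `S(x) = ∑_{p ≤ x} (log p)/p` satisfies
`S(x) ≤ log x + C` and `S(x) ≥ log x - C'` (Mertens one; the prime powers contribute
`∑_p log p/(p(p-1)) < ∞` - only the upper bound for `S(y) - S(x)`, i.e. both bounds, is used).
Discrete Abel summation along `x_k = exp k`: for `exp k < p ≤ exp (k+1)`, `k ≥ 1`,
`1/p ≤ (1/k) (log p)/p`, so with `T_k = S(exp k) = k + O(1)` and `K = ⌈log n⌉`
`∑_{p ≤ n} 1/p ≤ ∑_{p ≤ e} 1/p + ∑_{k=1}^{K-1} (T_{k+1} - T_k)/k`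
`= 1/2 + T_K/(K-1) - T_1 + ∑_{k=2}^{K-1} T_k (1/(k-1) - 1/k) ≤ C + ∑_{k=2}^{K-1} 1/(k-1) ≤ log K + C`.
(Any other proof is fine, e.g. Mathlib's Abel summation.) -/
theorem sum_inv_prime_le : ∃ C : ℝ, 0 < C ∧ ∀ n : ℕ, 3 ≤ n →
    ∑ p ∈ (Icc 1 n).filter Nat.Prime, (p : ℝ)⁻¹ ≤ Real.log (Real.log n) + C := by
  obtain ⟨C, hC, hS⟩ := m2_S
  have hl2 : 0 < Real.log 2 := Real.log_pos (by norm_num)
  have hl2' : Real.log 2 < 1 := by
    have := Real.log_two_lt_d9; linarith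
  have hll : Real.log (Real.log 2) < 0 := Real.log_neg hl2 hl2'
  -- induction
  have main : ∀ n : ℕ, 2 ≤ n → ∑ p ∈ (Icc 1 n).filter Nat.Prime, (p : ℝ)⁻¹ ≤
      (∑ p ∈ (Icc 1 n).filter Nat.Prime, Real.log p / p) / Real.log n + C / Real.log 2 -
        C / Real.log n + Real.log (Real.log n) - Real.log (Real.log 2) := by
    intro n hn
    induction n, hn using Nat.le_induction with
    | base =>
      have h2 : (Icc 1 2).filter Nat.Prime = {2} := by decide
      rw [h2]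
      simp only [Finset.sum_singleton, Nat.cast_ofNat]
      field_simp
      ring_nf
      exact le_refl _
    | succ n hn ih =>
      have hn1 : (0 : ℝ) < Real.log n := Real.log_pos (by exact_mod_cast (by omega : 1 < n))
      have hn2 : (0 : ℝ) < Real.log ((n + 1 : ℕ) : ℝ) :=
        Real.log_pos (by exact_mod_cast (by omega : 1 < n + 1))
      have hle : Real.log n ≤ Real.log ((n + 1 : ℕ) : ℝ) :=
        Real.log_le_log (by exact_mod_cast (by omega : 0 < n)) (by push_cast; linarith)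
      rw [m2_succ (fun p => (p : ℝ)⁻¹), m2_succ (fun p => Real.log p / p)]
      set S := ∑ p ∈ (Icc 1 n).filter Nat.Prime, Real.log p / p with hSdef
      have hSn : S ≤ Real.log n + C := hS n (by omega)
      have hc : (if (n + 1).Prime then ((n + 1 : ℕ) : ℝ)⁻¹ else 0) =
          (if (n + 1).Prime then Real.log ((n + 1 : ℕ) : ℝ) / ((n + 1 : ℕ) : ℝ) else 0) /
            Real.log ((n + 1 : ℕ) : ℝ) := by
        split_ifs
        · rw [div_div_cancel_left' hn2.ne']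
        · simp
      rw [hc]
      set c := (if (n + 1).Prime then Real.log ((n + 1 : ℕ) : ℝ) / ((n + 1 : ℕ) : ℝ) else 0)
        with hcdef
      -- the loss
      have h3 : S / Real.log n - S / Real.log ((n + 1 : ℕ) : ℝ) ≤
          1 - Real.log n / Real.log ((n + 1 : ℕ) : ℝ) + C / Real.log n -
            C / Real.log ((n + 1 : ℕ) : ℝ) := by
        have h4 : 0 ≤ 1 / Real.log n - 1 / Real.log ((n + 1 : ℕ) : ℝ) := by
          rw [sub_nonneg]
          exact one_div_le_one_div_of_le hn1 hle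
        have h5 := mul_le_mul_of_nonneg_right hSn h4
        have h6 : S * (1 / Real.log n - 1 / Real.log ((n + 1 : ℕ) : ℝ)) =
            S / Real.log n - S / Real.log ((n + 1 : ℕ) : ℝ) := by ring
        have h7 : (Real.log n + C) * (1 / Real.log n - 1 / Real.log ((n + 1 : ℕ) : ℝ)) =
            1 - Real.log n / Real.log ((n + 1 : ℕ) : ℝ) + C / Real.log n -
            C / Real.log ((n + 1 : ℕ) : ℝ) := by
          field_simp
          ring
        linarith
      have h8 : 1 - Real.log n / Real.log ((n + 1 : ℕ) : ℝ) ≤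
          Real.log (Real.log ((n + 1 : ℕ) : ℝ)) - Real.log (Real.log n) := by
        have h9 : 0 < Real.log n / Real.log ((n + 1 : ℕ) : ℝ) := by positivity
        have h10 := Real.log_le_sub_one_of_pos h9
        rw [Real.log_div hn1.ne' hn2.ne'] at h10
        linarith
      have h11 : (S + c) / Real.log ((n + 1 : ℕ) : ℝ) =
          S / Real.log ((n + 1 : ℕ) : ℝ) + c / Real.log ((n + 1 : ℕ) : ℝ) := add_div _ _ _
      rw [h11]
      linarith
  refine ⟨1 + 2 * (C / Real.log 2) - Real.log (Real.log 2), ?_, ?_⟩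
  · have : 0 < C / Real.log 2 := by positivity
    linarith
  · intro n hn
    have h1 := main n (by omega)
    have hn1 : (0 : ℝ) < Real.log n := Real.log_pos (by exact_mod_cast (by omega : 1 < n))
    have h2 := hS n (by omega)
    have h3 : (∑ p ∈ (Icc 1 n).filter Nat.Prime, Real.log p / p) / Real.log n ≤
        1 + C / Real.log n := by
      rw [div_le_iff₀ hn1, add_mul, div_mul_cancel₀ _ hn1.ne', one_mul]
      exact h2
    have h4 : 0 ≤ C / Real.log 2 := by positivity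
    linarith

theorem m2_tel (n : ℕ) (hn : 1 ≤ n) :
    ∑ p ∈ (Icc 1 n).filter Nat.Prime, ((p : ℝ) * ((p : ℝ) - 1))⁻¹ ≤ 1 - 1 / n := by
  induction n, hn using Nat.le_induction with
  | base => norm_num [Finset.filter_singleton]
  | succ n hn ih =>
    rw [m2_succ (fun p => ((p : ℝ) * ((p : ℝ) - 1))⁻¹)]
    have hn0 : (0 : ℝ) < n := by exact_mod_cast hn
    have h1 : (if (n + 1).Prime then (((n + 1 : ℕ) : ℝ) * (((n + 1 : ℕ) : ℝ) - 1))⁻¹ else 0) ≤
        1 / (n : ℝ) - 1 / ((n + 1 : ℕ) : ℝ) := by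
      have h0 : ((n + 1 : ℕ) : ℝ) - 1 = n := by push_cast; ring
      have h2 : 1 / (n : ℝ) - 1 / ((n + 1 : ℕ) : ℝ) =
          (((n + 1 : ℕ) : ℝ) * (((n + 1 : ℕ) : ℝ) - 1))⁻¹ := by
        rw [h0]
        push_cast
        have h3 : (n : ℝ) + 1 ≠ 0 := by positivity
        rw [div_sub_div _ _ hn0.ne' h3, inv_eq_one_div]
        congr 1 <;> ring
      rw [h2]
      split_ifs
      · exact le_refl _
      · rw [h0]
        positivity
    linarith

/-- `∏_{p ≤ n} (1 - 1/p) ≥ c / log n`. From `sum_inv_prime_le` and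
`log (1 - 1/p) ≥ -1/p - 1/p^2`-type bounds (`1 - x ≥ exp(-x - x^2)` for `0 ≤ x ≤ 1/2`, and
`∑ 1/p^2 ≤ ∑ 1/k^2 ≤ 2`). -/
theorem prod_lower : ∃ c : ℝ, 0 < c ∧ c ≤ 1 ∧ ∀ n : ℕ, 2 ≤ n →
    c / Real.log n ≤ ∏ p ∈ (Icc 1 n).filter Nat.Prime, (1 - (p : ℝ)⁻¹) := by
  obtain ⟨C, hC, hS⟩ := sum_inv_prime_le
  refine ⟨min (1 / 4) (Real.exp (-(C + 1))), by positivity,
    (min_le_left _ _).trans (by norm_num), ?_⟩
  intro n hn
  rcases Nat.lt_or_ge n 3 with h3 | h3
  · have hn2 : n = 2 := by omega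
    subst hn2
    have h2 : (Icc 1 2).filter Nat.Prime = {2} := by decide
    rw [h2]
    simp only [Finset.prod_singleton, Nat.cast_ofNat]
    have hl2 : 0 < Real.log 2 := Real.log_pos (by norm_num)
    rw [div_le_iff₀ hl2]
    have := Real.log_two_gt_d9
    have h5 : min (1 / 4) (Real.exp (-(C + 1))) ≤ 1 / 4 := min_le_left _ _
    have h6 : (1 - (2 : ℝ)⁻¹) * Real.log 2 = Real.log 2 / 2 := by ring
    rw [h6]
    norm_num at this
    linarith
  · have hn1 : (0 : ℝ) < Real.log n := Real.log_pos (by exact_mod_cast (by omega : 1 < n))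
    have hfac : ∀ p ∈ (Icc 1 n).filter Nat.Prime,
        Real.exp (-((p : ℝ)⁻¹ + ((p : ℝ) * ((p : ℝ) - 1))⁻¹)) ≤ 1 - (p : ℝ)⁻¹ := by
      intro p hp
      rw [Finset.mem_filter] at hp
      have hp2 : (2 : ℝ) ≤ p := by exact_mod_cast hp.2.two_le
      have hpos : 0 < 1 - (p : ℝ)⁻¹ := by
        have : (p : ℝ)⁻¹ ≤ 2⁻¹ := inv_anti₀ (by norm_num) hp2
        linarith
      rw [← Real.le_log_iff_exp_le hpos]
      have h6 := Real.one_sub_inv_le_log_of_pos hpos
      have h7 : 1 - (1 - (p : ℝ)⁻¹)⁻¹ = -((p : ℝ)⁻¹ + ((p : ℝ) * ((p : ℝ) - 1))⁻¹) := by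
        have a1 : (p : ℝ) ≠ 0 := by positivity
        have a2 : (p : ℝ) - 1 ≠ 0 := by
          have : (0 : ℝ) < (p : ℝ) - 1 := by linarith
          exact this.ne'
        have a3 : 1 - (p : ℝ)⁻¹ = ((p : ℝ) - 1) / p := by field_simp
        rw [a3, inv_div]
        field_simp
        ring
      rw [h7] at h6
      exact h6
    have hprod : ∏ p ∈ (Icc 1 n).filter Nat.Prime,
        Real.exp (-((p : ℝ)⁻¹ + ((p : ℝ) * ((p : ℝ) - 1))⁻¹)) ≤
        ∏ p ∈ (Icc 1 n).filter Nat.Prime, (1 - (p : ℝ)⁻¹) :=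
      Finset.prod_le_prod (fun p _ => (Real.exp_pos _).le) hfac
    rw [← Real.exp_sum, Finset.sum_neg_distrib, Finset.sum_add_distrib] at hprod
    refine le_trans ?_ hprod
    have h8 := hS n h3
    have h9 := m2_tel n (by omega)
    have h10 : (0 : ℝ) ≤ 1 / n := by positivity
    calc min (1 / 4) (Real.exp (-(C + 1))) / Real.log n
        ≤ Real.exp (-(C + 1)) / Real.log n :=
          div_le_div_of_nonneg_right (min_le_right _ _) hn1.le
      _ = Real.exp (-(Real.log (Real.log n) + C + 1)) := by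
          rw [show -(Real.log (Real.log n) + C + 1) = -(C + 1) - Real.log (Real.log n) by ring,
            Real.exp_sub, Real.exp_log hn1]
      _ ≤ _ := by
          apply Real.exp_le_exp.mpr
          linarith

/-- The trivial bound in the other direction: `∏_{p ≤ n} (1 - 1/p)^{-1} ≥ ∑_{k ≤ n} 1/k ≥ log (n+1)`.
Quick proof: `Sieve.log_le_sum` with `k = 1` bounds `log (n+1)` by
`∑_{a ≤ n, a squarefree} 1/φ(a) ≤ ∏_{p ≤ n} (1 + 1/(p-1))`; or Mathlib's
`Nat.primesBelow`/`EulerProduct` lemmas. -/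
theorem prod_upper (n : ℕ) :
    (∏ p ∈ (Icc 1 n).filter Nat.Prime, (1 - (p : ℝ)⁻¹)) * Real.log ((n : ℝ) + 1) ≤ 1 := by
  let f : ℕ →*₀ ℝ :=
    { toFun := fun k => (k : ℝ)⁻¹
      map_zero' := by simp
      map_one' := by simp
      map_mul' := fun a b => by push_cast; rw [mul_inv] }
  have hf : ∀ {p : ℕ}, p.Prime → ‖(f : ℕ →* ℝ) p‖ < 1 := by
    intro p hp
    change ‖(p : ℝ)⁻¹‖ < 1
    rw [Real.norm_of_nonneg (by positivity)]
    exact inv_lt_one_of_one_lt₀ (by exact_mod_cast hp.one_lt)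
  obtain ⟨h1, h2⟩ :=
    EulerProduct.summable_and_hasSum_smoothNumbers_prod_primesBelow_geometric hf (n + 1)
  have hset : (n + 1).primesBelow = (Icc 1 n).filter Nat.Prime := by
    ext p
    rw [Nat.mem_primesBelow, Finset.mem_filter, Finset.mem_Icc]
    constructor
    · rintro ⟨a, b⟩
      exact ⟨⟨b.one_lt.le, by omega⟩, b⟩
    · rintro ⟨⟨a, b⟩, c⟩
      exact ⟨by omega, c⟩
  rw [hset] at h2
  have hlog : Real.log ((n : ℝ) + 1) ≤
      ∏ p ∈ (Icc 1 n).filter Nat.Prime, (1 - (p : ℝ)⁻¹)⁻¹ := by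
    have h3 : Real.log ((n : ℝ) + 1) ≤ ∑ k ∈ Icc 1 n, (k : ℝ)⁻¹ := by
      have h := log_add_one_le_harmonic n
      have h2 : ((harmonic n : ℚ) : ℝ) = ∑ k ∈ Icc 1 n, (k : ℝ)⁻¹ := by
        rw [harmonic_eq_sum_Icc]
        push_cast
        rfl
      rw [h2] at h
      exact_mod_cast h
    refine h3.trans ?_
    have h4 : ∑ k ∈ Icc 1 n, (k : ℝ)⁻¹ = ∑ k ∈ (Icc 1 n).attach, ((k : ℕ) : ℝ)⁻¹ :=
      (Finset.sum_attach (Icc 1 n) (fun k => (k : ℝ)⁻¹)).symm
    rw [h4]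
    let φ : {k // k ∈ Icc 1 n} → (n + 1).smoothNumbers := fun k =>
      ⟨k.1, by
        have := Finset.mem_Icc.mp k.2
        exact Nat.mem_smoothNumbers_of_lt (by omega) (by omega)⟩
    have hφ : Function.Injective φ := by
      intro a b hab
      have : (φ a).1 = (φ b).1 := by rw [hab]
      exact Subtype.ext this
    have h5 : ∑ k ∈ (Icc 1 n).attach, ((k : ℕ) : ℝ)⁻¹ =
        ∑ m ∈ (Icc 1 n).attach.map ⟨φ, hφ⟩, (f : ℕ →* ℝ) m := by
      rw [Finset.sum_map]
      rfl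
    rw [h5]
    exact sum_le_hasSum _ (fun m _ => by
      change 0 ≤ ((m : ℕ) : ℝ)⁻¹
      positivity) h2
  have hpos : 0 < ∏ p ∈ (Icc 1 n).filter Nat.Prime, (1 - (p : ℝ)⁻¹) := by
    refine Finset.prod_pos ?_
    intro p hp
    rw [Finset.mem_filter] at hp
    have : (p : ℝ)⁻¹ < 1 := inv_lt_one_of_one_lt₀ (by exact_mod_cast hp.2.one_lt)
    linarith
  rw [Finset.prod_inv_distrib] at hlog
  calc (∏ p ∈ (Icc 1 n).filter Nat.Prime, (1 - (p : ℝ)⁻¹)) * Real.log ((n : ℝ) + 1)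
      ≤ (∏ p ∈ (Icc 1 n).filter Nat.Prime, (1 - (p : ℝ)⁻¹)) *
        (∏ p ∈ (Icc 1 n).filter Nat.Prime, (1 - (p : ℝ)⁻¹))⁻¹ :=
        mul_le_mul_of_nonneg_left hlog hpos.le
    _ = 1 := mul_inv_cancel₀ hpos.ne'

end Pool.Agent.Lib.MP_d9bc60_nt.EN
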