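import Pool.Agent.Lib.MP_d9bc60_nt.EN.S2
import Pool.Agent.Lib.MP_d9bc60_nt.EN.G1

/-! Row P1 (about 250 lines): the pair sieve. -/

set_option autoImplicit false

open Finset

namespace Pool.Agent.Lib.MP_d9bc60_nt.EN

/-- the residues `r < l` with `p (p + r) ≡ N mod l` -/
def p1_F (N p l : ℕ) : Finset ℕ := (range l).filter fun r => p * (p + r) ≡ N [MOD l]

lemma p1_mem (N p l r : ℕ) : r ∈ p1_F N p l ↔ r < l ∧ p * (p + r) ≡ N [MOD l] := by
  unfold p1_F
  rw [Finset.mem_filter, Finset.mem_range]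

/-- exactly one residue -/
lemma p1_card (N p l : ℕ) (hl : l.Prime) (hlp : ¬ l ∣ p) : (p1_F N p l).card = 1 := by
  rw [Finset.card_eq_one]
  have : Fact l.Prime := ⟨hl⟩
  have hp0 : (p : ZMod l) ≠ 0 := by
    rw [Ne, ZMod.natCast_eq_zero_iff]
    exact hlp
  have hcop : Nat.Coprime l p := (Nat.Prime.coprime_iff_not_dvd hl).2 hlp
  refine ⟨((N : ZMod l) / p - p).val, ?_⟩
  ext r
  rw [p1_mem, Finset.mem_singleton]
  constructor
  · rintro ⟨h1, h2⟩
    have h3 := (ZMod.natCast_eq_natCast_iff _ _ _).2 h2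
    push_cast at h3
    have h4 : (r : ZMod l) = (N : ZMod l) / p - p := by
      rw [← h3]
      field_simp
      ring
    rw [← h4, ZMod.val_natCast, Nat.mod_eq_of_lt h1]
  · rintro rfl
    refine ⟨ZMod.val_lt _, ?_⟩
    rw [← ZMod.natCast_eq_natCast_iff]
    push_cast
    rw [ZMod.natCast_zmod_val]
    field_simp
    ring

/-- the two residues differ -/
lemma p1_disj (N p q l : ℕ) (hpq : p < q) (hl : l.Prime)
    (h : ¬ l ∣ (q - p) * (N + p * q)) : Disjoint (p1_F N p l) (p1_F N q l) := by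
  rw [Finset.disjoint_left]
  intro r h1 h2
  rw [p1_mem] at h1 h2
  apply h
  have : Fact l.Prime := ⟨hl⟩
  have h3 := (ZMod.natCast_eq_natCast_iff _ _ _).2 h1.2
  have h4 := (ZMod.natCast_eq_natCast_iff _ _ _).2 h2.2
  rw [← ZMod.natCast_eq_zero_iff]
  push_cast at h3 h4
  rw [Nat.cast_mul, Nat.cast_sub hpq.le]
  push_cast
  linear_combination (-(q : ZMod l)) * h3 + (p : ZMod l) * h4

/-- both residue classes -/
def p1_G (N p q l : ℕ) : Finset ℕ := p1_F N p l ∪ p1_F N q l

lemma p1_G_card (N p q l : ℕ) (hpq : p < q) (hl : l.Prime)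
    (h : ¬ l ∣ 2 * p * q * (q - p) * (N + p * q)) : (p1_G N p q l).card = 2 := by
  have h1 : ¬ l ∣ p := by
    intro h1
    apply h
    have : 2 * p * q * (q - p) * (N + p * q) = p * (2 * q * (q - p) * (N + p * q)) := by ring
    rw [this]
    exact dvd_mul_of_dvd_left h1 _
  have h2 : ¬ l ∣ q := by
    intro h1
    apply h
    have : 2 * p * q * (q - p) * (N + p * q) = q * (2 * p * (q - p) * (N + p * q)) := by ring
    rw [this]
    exact dvd_mul_of_dvd_left h1 _
  have h3 : ¬ l ∣ (q - p) * (N + p * q) := by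
    intro h1
    apply h
    have : 2 * p * q * (q - p) * (N + p * q) = (2 * p * q) * ((q - p) * (N + p * q)) := by ring
    rw [this]
    exact dvd_mul_of_dvd_right h1 _
  unfold p1_G
  rw [Finset.card_union_of_disjoint (p1_disj N p q l hpq hl h3), p1_card N p l hl h1,
    p1_card N q l hl h2]

/-- a prime `> z` in the first form avoids the class -/
lemma p1_avoid (N p b l z : ℕ) (hlt : p * (p + b) < N) (hl : l.Prime) (hlz : l ≤ z)
    (hP : (N - p * (p + b)).Prime) (hz : z < N - p * (p + b)) : b % l ∉ p1_F N p l := by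
  intro hmem
  rw [p1_mem] at hmem
  have h1 : p * (p + b) ≡ p * (p + b % l) [MOD l] := by
    apply Nat.ModEq.mul_left
    apply Nat.ModEq.add_left
    exact (Nat.mod_modEq b l).symm
  have h2 : p * (p + b) ≡ N [MOD l] := h1.trans hmem.2
  have h3 : l ∣ N - p * (p + b) := (Nat.modEq_iff_dvd' hlt.le).1 h2
  have h4 := (Nat.prime_dvd_prime_iff_eq hl hP).1 h3
  omega

/-- few `b` with a small value -/
lemma p1_small (N p X z : ℕ) (hp : 0 < p) (hX : p * (p + X) < N) :
    (((Icc 1 X).filter fun b => N - p * (p + b) ≤ z).card) ≤ z := by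
  have h1 : (((Icc 1 X).filter fun b => N - p * (p + b) ≤ z).card) ≤ (Icc 1 z).card := by
    apply Finset.card_le_card_of_injOn (fun b => N - p * (p + b))
    · intro b hb
      rw [Finset.mem_coe, Finset.mem_filter, Finset.mem_Icc] at hb
      rw [Finset.mem_coe, Finset.mem_Icc]
      have h2 : p * (p + b) ≤ p * (p + X) := Nat.mul_le_mul_left _ (by omega)
      show 1 ≤ N - p * (p + b) ∧ N - p * (p + b) ≤ z
      have h3 : p * (p + b) < N := lt_of_le_of_lt h2 hX
      exact ⟨Nat.sub_pos_of_lt h3, hb.2⟩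
    · intro a ha b hb hab
      rw [Finset.mem_coe, Finset.mem_filter, Finset.mem_Icc] at ha hb
      have h2 : p * (p + b) ≤ p * (p + X) := Nat.mul_le_mul_left _ (by omega)
      have h3 : p * (p + a) ≤ p * (p + X) := Nat.mul_le_mul_left _ (by omega)
      have h4 : p * (p + a) = p * (p + b) := by
        simp only at hab
        omega
      have h5 := Nat.eq_of_mul_eq_mul_left hp h4
      omega
  rw [Nat.card_Icc, Nat.add_sub_cancel] at h1
  exact h1

/-- The two forms `N - p (p + b)`, `N - q (q + b)`. Let `k = 2 p q (q-p) (N + p q)`,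
`D = Sieve.PP k (y²)` (primes `l ≤ y²`, `l ∤ k`), `z = y²`. For such `l` let `r₁ < l` be the solution of
`p (p + r₁) ≡ N`, `r₂` of `q (q + r₂) ≡ N mod l` (`p`, `q` invertible); `r₁ ≠ r₂`, as otherwise
`(q - p)(N + p q) ≡ 0`: `q N - q p² ≡ p q r ≡ p N - p q²`. `F l = {r₁, r₂}`, two elements, `l ≥ 3`. If both
numbers are primes `> z` then `b % l ∉ F l` for all `l ∣ D`. The `b` with `N - p (p+b) ≤ z` are at most
`z` (injective in `b`), same for `q`. So `# ≤ 2 z + X/G + z⁴`, and `G ≥ ((φ(k)/k) log(y+1))²` by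
`mixed_lower` with `W = D` and `Sieve.linear_lower k y z`. (`b ≤ X` gives `q (q+b) < N`.) -/
theorem pair_forms (N p q X y : ℕ) (hp : p.Prime) (hq : q.Prime) (hpq : p < q)
    (hX : q * q + q * X < N) (hy : 1 ≤ y) :
    (((Icc 1 X).filter fun b => (N - p * (p + b)).Prime ∧ (N - q * (q + b)).Prime).card : ℝ) ≤
      (X : ℝ) * (Sieve.rphi (2 * p * q * (q - p) * (N + p * q))) ^ 2 /
        (Real.log ((y : ℝ) + 1)) ^ 2 + 2 * (y : ℝ) ^ 2 + (y : ℝ) ^ 8 := by
  classical
  set k := 2 * p * q * (q - p) * (N + p * q) with hk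
  have hk0 : 0 < k := by
    have h1 := hp.pos
    have h2 := hq.pos
    have h3 : 0 < q - p := by omega
    have h4 : 0 < N + p * q := by positivity
    positivity
  set z := y * y with hz
  have hz1 : 1 ≤ z := Nat.one_le_iff_ne_zero.2 (by positivity)
  have hyz : y ≤ z := Nat.le_mul_self y
  set D := Sieve.PP k z with hD
  have hDsq : Squarefree D := Sieve.PP_squarefree k z
  have hprime : ∀ l ∈ D.primeFactors, l.Prime ∧ l ≤ z ∧ ¬ l ∣ k := by
    intro l hl
    have h1 := Nat.prime_of_mem_primeFactors hl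
    have h2 := Sieve.prime_dvd_PP k z l h1 (Nat.dvd_of_mem_primeFactors hl)
    exact ⟨h1, h2.1, h2.2⟩
  have hcard : ∀ l ∈ D.primeFactors, (p1_G N p q l).card = 2 := by
    intro l hl
    obtain ⟨h1, _, h3⟩ := hprime l hl
    exact p1_G_card N p q l hpq h1 h3
  have hthree : ∀ l ∈ D.primeFactors, 2 < l := by
    intro l hl
    obtain ⟨h1, _, h3⟩ := hprime l hl
    have h4 : l ≠ 2 := by
      rintro rfl
      apply h3
      have : k = 2 * (p * q * (q - p) * (N + p * q)) := by rw [hk]; ring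
      rw [this]
      exact dvd_mul_right _ _
    have := h1.two_le
    omega
  have hsieve := residue_sieve X z hz1 D hDsq (p1_G N p q) (by
    intro l hl
    rw [hcard l hl]
    refine ⟨?_, by norm_num, le_rfl, hthree l hl⟩
    intro r hr
    unfold p1_G at hr
    rw [Finset.mem_union, p1_mem, p1_mem] at hr
    rw [Finset.mem_range]
    rcases hr with h | h <;> exact h.1)
  have hG := mixed_lower D D y z hDsq dvd_rfl le_rfl (fun l => (p1_G N p q l).card) (by
    intro l hl
    simp only [hcard l hl]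
    exact ⟨by norm_num, hthree l hl, fun _ => trivial⟩)
  have hlin := Sieve.linear_lower k y z hk0 hyz
  rw [← hD] at hlin
  set G := ∑ e ∈ D.divisors.filter (· ≤ z), ∏ l ∈ e.primeFactors,
        (((p1_G N p q l).card : ℝ) / ((l : ℝ) - ((p1_G N p q l).card : ℝ))) with hGdef
  have hlog : 0 < Real.log ((y : ℝ) + 1) := by
    apply Real.log_pos
    have : (1 : ℝ) ≤ y := by exact_mod_cast hy
    linarith
  have hkR : (0 : ℝ) < k := by exact_mod_cast hk0
  have ht : (0 : ℝ) < k.totient := by exact_mod_cast Nat.totient_pos.2 hk0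
  have hGlow : (((k.totient : ℝ) / k) * Real.log ((y : ℝ) + 1)) ^ 2 ≤ G := by
    refine le_trans ?_ hG
    rw [← sq]
    gcongr
  have hpos : 0 < (((k.totient : ℝ) / k) * Real.log ((y : ℝ) + 1)) ^ 2 := by positivity
  have hM : (X : ℝ) / G ≤ (X : ℝ) * (Sieve.rphi k) ^ 2 / (Real.log ((y : ℝ) + 1)) ^ 2 := by
    calc (X : ℝ) / G ≤ (X : ℝ) / (((k.totient : ℝ) / k) * Real.log ((y : ℝ) + 1)) ^ 2 := by
          gcongr
      _ = _ := by
          rw [Sieve.rphi_apply]
          field_simp
  -- the set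
  have hsub : ((Icc 1 X).filter fun b => (N - p * (p + b)).Prime ∧ (N - q * (q + b)).Prime) ⊆
      (((Icc 1 X).filter fun b => N - p * (p + b) ≤ z) ∪
        ((Icc 1 X).filter fun b => N - q * (q + b) ≤ z)) ∪
      ((Icc 1 X).filter fun m => ∀ l ∈ D.primeFactors, m % l ∉ p1_G N p q l) := by
    intro b hb
    rw [Finset.mem_filter, Finset.mem_Icc] at hb
    rw [Finset.mem_union, Finset.mem_union, Finset.mem_filter, Finset.mem_filter,
      Finset.mem_filter, Finset.mem_Icc]
    by_cases h1 : N - p * (p + b) ≤ z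
    · left; left; exact ⟨hb.1, h1⟩
    by_cases h2 : N - q * (q + b) ≤ z
    · left; right; exact ⟨hb.1, h2⟩
    right
    refine ⟨hb.1, ?_⟩
    intro l hl hmem
    obtain ⟨h3, h4, _⟩ := hprime l hl
    unfold p1_G at hmem
    rw [Finset.mem_union] at hmem
    rcases hmem with h | h
    · exact p1_avoid N p b l z (by omega) h3 h4 hb.2.1 (by omega) h
    · exact p1_avoid N q b l z (by omega) h3 h4 hb.2.2 (by omega) h
  have hXq : q * (q + X) < N := by
    have : q * (q + X) = q * q + q * X := by ring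
    omega
  have hXp : p * (p + X) < N := by
    refine lt_of_le_of_lt ?_ hXq
    exact Nat.mul_le_mul hpq.le (by omega)
  have hc := (Finset.card_le_card hsub).trans ((Finset.card_union_le _ _).trans
    (Nat.add_le_add_right (Finset.card_union_le _ _) _))
  have hc1 := p1_small N p X z hp.pos hXp
  have hc2 := p1_small N q X z hq.pos hXq
  have hc3 : (((Icc 1 X).filter fun b => (N - p * (p + b)).Prime ∧ (N - q * (q + b)).Prime).card : ℝ)
      ≤ ((z : ℝ) + z) +
      (((Icc 1 X).filter fun m => ∀ l ∈ D.primeFactors, m % l ∉ p1_G N p q l).card : ℝ) := by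
    have : ((Icc 1 X).filter fun b => (N - p * (p + b)).Prime ∧ (N - q * (q + b)).Prime).card ≤
      (z + z) + ((Icc 1 X).filter fun m => ∀ l ∈ D.primeFactors, m % l ∉ p1_G N p q l).card := by
      omega
    exact_mod_cast this
  have hzy : (z : ℝ) = (y : ℝ) ^ 2 := by rw [hz]; push_cast; ring
  have hz4 : (z : ℝ) ^ 4 = (y : ℝ) ^ 8 := by rw [hzy]; ring
  rw [hz4] at hsieve
  rw [hzy] at hc3
  linarith

end Pool.Agent.Lib.MP_d9bc60_nt.EN
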