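import Pool.Agent.Lib.MP_d9bc60_nt.EN.Defs

/-! Row S1 (about 150 lines): Chinese remainder counting. -/

set_option autoImplicit false

open Finset

namespace Pool.Agent.Lib.MP_d9bc60_nt.EN

/-- The number of `r < d` with `r mod l ∈ F l` for all primes `l ∣ d` is `∏ #(F l)` (induction on the
prime factors, `Nat.chineseRemainder`; or `Nat.recOnMul`-type induction on squarefree `d`). -/
theorem crt_card (d : ℕ) (hd : Squarefree d) (F : ℕ → Finset ℕ)
    (hF : ∀ l ∈ d.primeFactors, F l ⊆ range l) :
    ((range d).filter fun r => ∀ l ∈ d.primeFactors, r % l ∈ F l).card =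
      ∏ l ∈ d.primeFactors, (F l).card := by
  induction d using Nat.strong_induction_on with
  | _ d ih =>
    rcases eq_or_ne d 1 with hd1 | hd1
    · subst hd1
      simp
    · have hd0 : d ≠ 0 := hd.ne_zero
      have hp : d.minFac.Prime := Nat.minFac_prime hd1
      obtain ⟨e, he⟩ := Nat.minFac_dvd d
      generalize d.minFac = p at hp he
      subst he
      have hsq := Nat.squarefree_mul_iff.1 hd
      have hcop : Nat.Coprime p e := hsq.1
      have hesq : Squarefree e := hsq.2.2
      have he0 : 0 < e := Nat.pos_of_ne_zero hesq.ne_zero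
      have hlt : e < p * e := by
        have := hp.two_le
        nlinarith
      have hpf : (p * e).primeFactors = insert p e.primeFactors := by
        rw [hcop.primeFactors_mul, hp.primeFactors]
        rfl
      have hpe : p ∉ e.primeFactors := by
        intro h
        have h1 := Nat.dvd_of_mem_primeFactors h
        have h2 := Nat.dvd_gcd dvd_rfl h1
        rw [hcop] at h2
        exact hp.one_lt.ne' (Nat.dvd_one.1 h2)
      have hFp : F p ⊆ range p := hF p (by rw [hpf]; exact Finset.mem_insert_self _ _)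
      have hFe : ∀ l ∈ e.primeFactors, F l ⊆ range l := fun l hl =>
        hF l (by rw [hpf]; exact Finset.mem_insert_of_mem hl)
      rw [hpf, Finset.prod_insert hpe, ← ih e hlt hesq hFe, ← Finset.card_product]
      refine Finset.card_bij' (fun r _ => (r % p, r % e))
        (fun x _ => (Nat.chineseRemainder hcop x.1 x.2 : ℕ)) ?_ ?_ ?_ ?_
      · intro r hr
        rw [Finset.mem_filter, Finset.mem_range] at hr
        rw [Finset.mem_product]
        refine ⟨hr.2 p (Finset.mem_insert_self _ _), ?_⟩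
        rw [Finset.mem_filter, Finset.mem_range]
        refine ⟨Nat.mod_lt _ he0, fun l hl => ?_⟩
        show r % e % l ∈ F l
        rw [Nat.mod_mod_of_dvd _ (Nat.dvd_of_mem_primeFactors hl)]
        exact hr.2 l (Finset.mem_insert_of_mem hl)
      · intro x hx
        rw [Finset.mem_product, Finset.mem_filter, Finset.mem_range] at hx
        obtain ⟨hx1, hx2, hx3⟩ := hx
        have hcr := (Nat.chineseRemainder hcop x.1 x.2).2
        rw [Finset.mem_filter, Finset.mem_range]
        refine ⟨Nat.chineseRemainder_lt_mul hcop x.1 x.2 hp.ne_zero he0.ne', ?_⟩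
        intro l hl
        rw [Finset.mem_insert] at hl
        rcases hl with rfl | hl
        · have h1 : (Nat.chineseRemainder hcop x.1 x.2 : ℕ) % l = x.1 % l := hcr.1
          show (Nat.chineseRemainder hcop x.1 x.2 : ℕ) % l ∈ F l
          rw [h1, Nat.mod_eq_of_lt (Finset.mem_range.1 (hFp hx1))]
          exact hx1
        · have h1 : (Nat.chineseRemainder hcop x.1 x.2 : ℕ) % l = x.2 % l :=
            Nat.ModEq.of_dvd (Nat.dvd_of_mem_primeFactors hl) hcr.2
          show (Nat.chineseRemainder hcop x.1 x.2 : ℕ) % l ∈ F l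
          rw [h1]
          exact hx3 l hl
      · intro r hr
        rw [Finset.mem_filter, Finset.mem_range] at hr
        have h1 : r ≡ r % p [MOD p] := (Nat.mod_modEq r p).symm
        have h2 : r ≡ r % e [MOD e] := (Nat.mod_modEq r e).symm
        have h3 := Nat.chineseRemainder_modEq_unique hcop h1 h2
        exact (Nat.ModEq.eq_of_lt_of_lt h3 hr.1
          (Nat.chineseRemainder_lt_mul hcop _ _ hp.ne_zero he0.ne')).symm
      · intro x hx
        rw [Finset.mem_product, Finset.mem_filter, Finset.mem_range] at hx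
        obtain ⟨hx1, hx2, hx3⟩ := hx
        have hcr := (Nat.chineseRemainder hcop x.1 x.2).2
        have h1 : (Nat.chineseRemainder hcop x.1 x.2 : ℕ) % p = x.1 % p := hcr.1
        have h2 : (Nat.chineseRemainder hcop x.1 x.2 : ℕ) % e = x.2 % e := hcr.2
        show ((Nat.chineseRemainder hcop x.1 x.2 : ℕ) % p,
          (Nat.chineseRemainder hcop x.1 x.2 : ℕ) % e) = x
        rw [h1, h2, Nat.mod_eq_of_lt (Finset.mem_range.1 (hFp hx1)), Nat.mod_eq_of_lt hx2]

/-- Sum of `Sieve.count_ap` over the residue classes of `crt_card` (`m % l = (m % d) % l` for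
`l ∣ d`); `∏_{l ∣ d} (#(F l)/l) = (∏ #(F l))/d` for squarefree `d`. -/
theorem crt_count (d : ℕ) (hd : Squarefree d) (F : ℕ → Finset ℕ)
    (hF : ∀ l ∈ d.primeFactors, F l ⊆ range l) (X : ℕ) :
    |(((Icc 1 X).filter fun m => ∀ l ∈ d.primeFactors, m % l ∈ F l).card : ℝ) -
      (X : ℝ) * ∏ l ∈ d.primeFactors, (((F l).card : ℝ) / (l : ℝ))| ≤
      ∏ l ∈ d.primeFactors, ((F l).card : ℝ) := by
  have hd0 : 0 < d := Nat.pos_of_ne_zero hd.ne_zero
  set R := (range d).filter fun r => ∀ l ∈ d.primeFactors, r % l ∈ F l with hR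
  have hRcard : (R.card : ℝ) = ∏ l ∈ d.primeFactors, ((F l).card : ℝ) := by
    rw [hR, crt_card d hd F hF]
    push_cast
    rfl
  have hprod : ∏ l ∈ d.primeFactors, (((F l).card : ℝ) / (l : ℝ)) = (R.card : ℝ) / d := by
    rw [Finset.prod_div_distrib, ← hRcard]
    congr 1
    rw [← Nat.cast_prod, Nat.prod_primeFactors_of_squarefree hd]
  set S := (Icc 1 X).filter fun m => ∀ l ∈ d.primeFactors, m % l ∈ F l with hS
  have hmaps : ∀ m ∈ S, m % d ∈ R := by
    intro m hm
    rw [hS, Finset.mem_filter] at hm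
    rw [hR, Finset.mem_filter, Finset.mem_range]
    refine ⟨Nat.mod_lt _ hd0, fun l hl => ?_⟩
    rw [Nat.mod_mod_of_dvd _ (Nat.dvd_of_mem_primeFactors hl)]
    exact hm.2 l hl
  have hcard := Finset.card_eq_sum_card_fiberwise (f := fun m => m % d) (s := S) (t := R)
    (fun m hm => hmaps m hm)
  have hfib : ∀ r ∈ R, (S.filter fun m => m % d = r) = (Icc 1 X).filter (fun m => m ≡ r [MOD d]) := by
    intro r hr
    rw [hR, Finset.mem_filter, Finset.mem_range] at hr
    ext m
    rw [hS, Finset.mem_filter, Finset.mem_filter, Finset.mem_filter]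
    constructor
    · rintro ⟨⟨h1, _⟩, h3⟩
      refine ⟨h1, ?_⟩
      show m % d = r % d
      rw [h3, Nat.mod_eq_of_lt hr.1]
    · rintro ⟨h1, h2⟩
      have h3 : m % d = r := by
        have : m % d = r % d := h2
        rw [this, Nat.mod_eq_of_lt hr.1]
      refine ⟨⟨h1, fun l hl => ?_⟩, h3⟩
      rw [← Nat.mod_mod_of_dvd _ (Nat.dvd_of_mem_primeFactors hl), h3]
      exact hr.2 l hl
  have hcard' : (S.card : ℝ) = ∑ r ∈ R, (((Icc 1 X).filter (fun m => m ≡ r [MOD d])).card : ℝ) := by
    rw [hcard]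
    push_cast
    exact Finset.sum_congr rfl fun r hr => by rw [hfib r hr]
  have hX : (X : ℝ) * ((R.card : ℝ) / d) = ∑ r ∈ R, (X : ℝ) / d := by
    rw [Finset.sum_const, nsmul_eq_mul]; ring
  rw [hprod, hX, hcard', ← Finset.sum_sub_distrib, ← hRcard]
  refine (Finset.abs_sum_le_sum_abs _ _).trans ?_
  calc ∑ r ∈ R, |(((Icc 1 X).filter (fun m => m ≡ r [MOD d])).card : ℝ) - (X : ℝ) / d|
      ≤ ∑ r ∈ R, (1 : ℝ) := Finset.sum_le_sum fun r _ => Sieve.count_ap X d r hd0
    _ = R.card := by rw [Finset.sum_const, nsmul_eq_mul, mul_one]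

end Pool.Agent.Lib.MP_d9bc60_nt.EN
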