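import Pool.Agent.Lib.MP_d9bc60_nt.EN.S1

/-! Row S2 (about 250 lines): Selberg's sieve for residue classes. -/

set_option autoImplicit false

open Finset

namespace Pool.Agent.Lib.MP_d9bc60_nt.EN

/-- the primes `l ∣ D` with `m % l ∈ F l` -/
noncomputable def s2_pf (D : ℕ) (F : ℕ → Finset ℕ) (m : ℕ) : Finset ℕ :=
  D.primeFactors.filter fun l => m % l ∈ F l

/-- the product of these primes -/
noncomputable def s2_w (D : ℕ) (F : ℕ → Finset ℕ) (m : ℕ) : ℕ := ∏ l ∈ s2_pf D F m, l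

lemma s2_w_primeFactors (D : ℕ) (F : ℕ → Finset ℕ) (m : ℕ) :
    (s2_w D F m).primeFactors = s2_pf D F m :=
  Nat.primeFactors_prod (fun p hp => Nat.prime_of_mem_primeFactors (Finset.mem_filter.1 hp).1)

lemma s2_w_dvd (D : ℕ) (hD : Squarefree D) (F : ℕ → Finset ℕ) (m : ℕ) : s2_w D F m ∣ D := by
  conv_rhs => rw [← Nat.prod_primeFactors_of_squarefree hD]
  exact Finset.prod_dvd_prod_of_subset _ _ _ (Finset.filter_subset _ _)

lemma s2_dvd_w_iff (D : ℕ) (hD : Squarefree D) (F : ℕ → Finset ℕ) (m e : ℕ) (he : e ∣ D) :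
    e ∣ s2_w D F m ↔ ∀ l ∈ e.primeFactors, m % l ∈ F l := by
  have hw0 : s2_w D F m ≠ 0 := ne_zero_of_dvd_ne_zero hD.ne_zero (s2_w_dvd D hD F m)
  constructor
  · intro h l hl
    have h1 : l ∈ (s2_w D F m).primeFactors := Nat.primeFactors_mono h hw0 hl
    rw [s2_w_primeFactors] at h1
    exact (Finset.mem_filter.1 h1).2
  · intro h
    have hesq : Squarefree e := Squarefree.squarefree_of_dvd he hD
    rw [← Nat.prod_primeFactors_of_squarefree hesq]
    apply Finset.prod_dvd_prod_of_subset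
    intro l hl
    exact Finset.mem_filter.2 ⟨Nat.primeFactors_mono he hD.ne_zero hl, h l hl⟩

/-- the density function -/
noncomputable def s2_nu (F : ℕ → Finset ℕ) : ArithmeticFunction ℝ :=
  ArithmeticFunction.prodPrimeFactors (fun l => ((F l).card : ℝ) / (l : ℝ))

lemma s2_nu_mult (F : ℕ → Finset ℕ) : (s2_nu F).IsMultiplicative :=
  ArithmeticFunction.IsMultiplicative.prodPrimeFactors _

lemma s2_nu_apply (F : ℕ → Finset ℕ) (n : ℕ) (hn : n ≠ 0) :
    s2_nu F n = ∏ l ∈ n.primeFactors, (((F l).card : ℝ) / (l : ℝ)) := by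
  unfold s2_nu
  rw [ArithmeticFunction.prodPrimeFactors_apply hn]

lemma s2_nu_prime (F : ℕ → Finset ℕ) (p : ℕ) (hp : p.Prime) :
    s2_nu F p = ((F p).card : ℝ) / (p : ℝ) := by
  rw [s2_nu_apply F p hp.ne_zero, hp.primeFactors, Finset.prod_singleton]

/-- the sieve -/
noncomputable def s2_sieve (X : ℕ) (D : ℕ) (hD : Squarefree D) (F : ℕ → Finset ℕ)
    (hF : ∀ l ∈ D.primeFactors, F l ⊆ range l ∧ 1 ≤ (F l).card ∧ (F l).card ≤ 2 ∧
      (F l).card < l) : BoundingSieve where
  support := D.divisors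
  prodPrimes := D
  prodPrimes_squarefree := hD
  weights := fun v => (((Icc 1 X).filter fun m => s2_w D F m = v).card : ℝ)
  weights_nonneg := fun _ => Nat.cast_nonneg _
  totalMass := X
  nu := s2_nu F
  nu_mult := s2_nu_mult F
  nu_pos_of_prime := by
    intro p hp hpD
    rw [s2_nu_prime F p hp]
    have h := hF p (Nat.mem_primeFactors.2 ⟨hp, hpD, hD.ne_zero⟩)
    have h1 : (0 : ℝ) < (F p).card := by exact_mod_cast h.2.1
    have h2 : (0 : ℝ) < p := by exact_mod_cast hp.pos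
    positivity
  nu_lt_one_of_prime := by
    intro p hp hpD
    rw [s2_nu_prime F p hp]
    have h := hF p (Nat.mem_primeFactors.2 ⟨hp, hpD, hD.ne_zero⟩)
    have h1 : ((F p).card : ℝ) < p := by exact_mod_cast h.2.2.2
    have h2 : (0 : ℝ) < p := by exact_mod_cast hp.pos
    rw [div_lt_one h2]
    exact h1

lemma s2_multSum (X : ℕ) (D : ℕ) (hD : Squarefree D) (F : ℕ → Finset ℕ) (e : ℕ) (he : e ∣ D) :
    (∑ v ∈ D.divisors, if e ∣ v then (((Icc 1 X).filter fun m => s2_w D F m = v).card : ℝ)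
      else 0) = (((Icc 1 X).filter fun m => ∀ l ∈ e.primeFactors, m % l ∈ F l).card : ℝ) := by
  have h1 : ((Icc 1 X).filter fun m => ∀ l ∈ e.primeFactors, m % l ∈ F l) =
      (Icc 1 X).filter fun m => e ∣ s2_w D F m := by
    apply Finset.filter_congr
    intro m _
    exact (s2_dvd_w_iff D hD F m e he).symm
  rw [h1, ← Finset.sum_filter]
  have h2 : ((Icc 1 X).filter fun m => e ∣ s2_w D F m).card =
      ∑ v ∈ D.divisors.filter (fun v => e ∣ v),
        (((Icc 1 X).filter fun m => e ∣ s2_w D F m).filter fun m => s2_w D F m = v).card := by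
    apply Finset.card_eq_sum_card_fiberwise
    intro m hm
    have hm' := (Finset.mem_filter.1 (Finset.mem_coe.1 hm)).2
    exact Finset.mem_coe.2 (Finset.mem_filter.2
      ⟨Nat.mem_divisors.2 ⟨s2_w_dvd D hD F m, hD.ne_zero⟩, hm'⟩)
  rw [h2]
  push_cast
  apply Finset.sum_congr rfl
  intro v hv
  have hv' := (Finset.mem_filter.1 hv).2
  rw [Finset.filter_filter]
  congr 2
  apply Finset.filter_congr
  intro m _
  constructor
  · intro h
    exact ⟨h ▸ hv', h⟩
  · intro h
    exact h.2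

lemma s2_rem (X : ℕ) (D : ℕ) (hD : Squarefree D) (F : ℕ → Finset ℕ)
    (hF : ∀ l ∈ D.primeFactors, F l ⊆ range l ∧ 1 ≤ (F l).card ∧ (F l).card ≤ 2 ∧
      (F l).card < l) (e : ℕ) (he : e ∣ D) :
    |(s2_sieve X D hD F hF).rem e| ≤ (e : ℝ) := by
  have hesq : Squarefree e := Squarefree.squarefree_of_dvd he hD
  have hrem : (s2_sieve X D hD F hF).rem e =
      (∑ v ∈ D.divisors, if e ∣ v then (((Icc 1 X).filter fun m => s2_w D F m = v).card : ℝ)
      else 0) - s2_nu F e * (X : ℝ) := rfl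
  rw [hrem, s2_multSum X D hD F e he, s2_nu_apply F e hesq.ne_zero, mul_comm _ (X : ℝ)]
  have hsub : e.primeFactors ⊆ D.primeFactors := Nat.primeFactors_mono he hD.ne_zero
  refine (crt_count e hesq F (fun l hl => (hF l (hsub hl)).1) X).trans ?_
  have h1 : (e : ℝ) = ∏ l ∈ e.primeFactors, (l : ℝ) := by
    conv_lhs => rw [← Nat.prod_primeFactors_of_squarefree hesq]
    push_cast
    rfl
  rw [h1]
  apply Finset.prod_le_prod
  · intro l _
    exact Nat.cast_nonneg _
  · intro l hl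
    exact_mod_cast (hF l (hsub hl)).2.2.2.le

lemma s2_terms (X : ℕ) (D : ℕ) (hD : Squarefree D) (F : ℕ → Finset ℕ)
    (hF : ∀ l ∈ D.primeFactors, F l ⊆ range l ∧ 1 ≤ (F l).card ∧ (F l).card ≤ 2 ∧
      (F l).card < l) (e : ℕ) (he : e ∣ D) :
    (s2_sieve X D hD F hF).selbergTerms e =
      ∏ l ∈ e.primeFactors, (((F l).card : ℝ) / ((l : ℝ) - ((F l).card : ℝ))) := by
  have hesq : Squarefree e := Squarefree.squarefree_of_dvd he hD
  rw [BoundingSieve.selbergTerms_apply]
  show s2_nu F e * ∏ p ∈ e.primeFactors, (1 - s2_nu F p)⁻¹ = _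
  rw [s2_nu_apply F e hesq.ne_zero, ← Finset.prod_mul_distrib]
  apply Finset.prod_congr rfl
  intro p hp
  have hpp := Nat.prime_of_mem_primeFactors hp
  have hsub : e.primeFactors ⊆ D.primeFactors := Nat.primeFactors_mono he hD.ne_zero
  have h := hF p (hsub hp)
  rw [s2_nu_prime F p hpp]
  have h1 : ((F p).card : ℝ) < p := by exact_mod_cast h.2.2.2
  have h2 : (0 : ℝ) < p := by exact_mod_cast hpp.pos
  have h3 : (p : ℝ) - (F p).card ≠ 0 := by linarith
  have h4 : 1 - ((F p).card : ℝ) / (p : ℝ) = ((p : ℝ) - (F p).card) / p := by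
    field_simp
  rw [h4, inv_div]
  field_simp

/-- Selberg's sieve, at most two residue classes modulo each prime. Apply `Sieve.selberg` to the
`BoundingSieve` with `prodPrimes = D`, `support = D.divisors`,
`weights v = #{m ∈ [1,X] : w m = v}`, `w m = ∏_{l ∣ D, m % l ∈ F l} l`, `totalMass = X`,
`nu = ArithmeticFunction.prodPrimeFactors (fun l => #(F l)/l)` (see `Sieve.psi_mult` in Average.lean).
Then `e ∣ w m ↔ ∀ l ∣ e, m % l ∈ F l` for `e ∣ D`, so `|rem e| ≤ ∏_{l ∣ e} #(F l) ≤ 2^{ω(e)} ≤ τ(e) ≤ e`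
by `crt_count`; `lcm d₁ d₂ ≤ z²`, at most `z²` pairs, total error `≤ z⁴` (as in
`Sieve.prime_pairs`). `siftedSum` = weight of `v = 1` = the left side (`Nat.Coprime D v`, `v ∣ D`
iff `v = 1`); `selbergTerms e = ∏_{l ∣ e} #(F l)/(l - #(F l))` (`BoundingSieve.selbergTerms_apply`,
see `Sieve.ap_selberg`). -/
theorem residue_sieve (X z : ℕ) (hz : 1 ≤ z) (D : ℕ) (hD : Squarefree D) (F : ℕ → Finset ℕ)
    (hF : ∀ l ∈ D.primeFactors, F l ⊆ range l ∧ 1 ≤ (F l).card ∧ (F l).card ≤ 2 ∧ (F l).card < l) :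
    (((Icc 1 X).filter fun m => ∀ l ∈ D.primeFactors, m % l ∉ F l).card : ℝ) ≤
      (X : ℝ) / (∑ e ∈ D.divisors.filter (· ≤ z), ∏ l ∈ e.primeFactors,
        (((F l).card : ℝ) / ((l : ℝ) - ((F l).card : ℝ)))) + (z : ℝ) ^ 4 := by
  classical
  set s := s2_sieve X D hD F hF with hs
  have hmain := Sieve.selberg s z hz
  -- the Selberg sum
  have hSS : Sieve.SS s z = ∑ e ∈ D.divisors.filter (· ≤ z), ∏ l ∈ e.primeFactors,
        (((F l).card : ℝ) / ((l : ℝ) - ((F l).card : ℝ))) := by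
    unfold Sieve.SS
    apply Finset.sum_congr rfl
    intro e he
    exact s2_terms X D hD F hF e (Nat.dvd_of_mem_divisors (Finset.mem_filter.1 he).1)
  have hM : s.totalMass * (Sieve.SS s z)⁻¹ =
      (X : ℝ) / (∑ e ∈ D.divisors.filter (· ≤ z), ∏ l ∈ e.primeFactors,
        (((F l).card : ℝ) / ((l : ℝ) - ((F l).card : ℝ)))) := by
    rw [hSS, div_eq_mul_inv]
    rfl
  -- the error
  have hE : ∑ d₁ ∈ (s.prodPrimes.divisors).filter (· ≤ z),
      ∑ d₂ ∈ (s.prodPrimes.divisors).filter (· ≤ z), |s.rem (Nat.lcm d₁ d₂)| ≤ (z : ℝ) ^ 4 := by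
    have hcard : (((s.prodPrimes.divisors).filter (· ≤ z)).card : ℝ) ≤ z := by
      have : ((s.prodPrimes.divisors).filter (· ≤ z)).card ≤ (Finset.Icc 1 z).card := by
        apply Finset.card_le_card
        intro d hd
        rw [Finset.mem_filter] at hd
        rw [Finset.mem_Icc]
        exact ⟨Nat.pos_of_mem_divisors hd.1, hd.2⟩
      rw [Nat.card_Icc, Nat.add_sub_cancel] at this
      exact_mod_cast this
    calc ∑ d₁ ∈ (s.prodPrimes.divisors).filter (· ≤ z),
        ∑ d₂ ∈ (s.prodPrimes.divisors).filter (· ≤ z), |s.rem (Nat.lcm d₁ d₂)|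
        ≤ ∑ d₁ ∈ (s.prodPrimes.divisors).filter (· ≤ z),
        ∑ d₂ ∈ (s.prodPrimes.divisors).filter (· ≤ z), ((z : ℝ) * z) := by
          apply Finset.sum_le_sum
          intro d₁ h1
          apply Finset.sum_le_sum
          intro d₂ h2
          rw [Finset.mem_filter] at h1 h2
          have hd1 := Nat.pos_of_mem_divisors h1.1
          have hd2 := Nat.pos_of_mem_divisors h2.1
          refine (s2_rem X D hD F hF _ (Nat.lcm_dvd (Nat.dvd_of_mem_divisors h1.1)
            (Nat.dvd_of_mem_divisors h2.1))).trans ?_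
          have h3 : Nat.lcm d₁ d₂ ≤ z * z :=
            (Nat.le_of_dvd (Nat.mul_pos hd1 hd2) (Nat.lcm_dvd_mul _ _)).trans
              (Nat.mul_le_mul h1.2 h2.2)
          exact_mod_cast h3
      _ = (((s.prodPrimes.divisors).filter (· ≤ z)).card : ℝ) *
          ((((s.prodPrimes.divisors).filter (· ≤ z)).card : ℝ) * ((z : ℝ) * z)) := by
          rw [Finset.sum_const, Finset.sum_const]
          simp
      _ ≤ (z : ℝ) * ((z : ℝ) * ((z : ℝ) * z)) := by gcongr
      _ = (z : ℝ) ^ 4 := by ring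
  -- the sifted set
  have hsift : (((Icc 1 X).filter fun m => ∀ l ∈ D.primeFactors, m % l ∉ F l).card : ℝ) ≤
      s.siftedSum := by
    have h1 : s.siftedSum = ∑ v ∈ D.divisors, (if Nat.Coprime D v then
      (((Icc 1 X).filter fun m => s2_w D F m = v).card : ℝ) else 0) := rfl
    rw [h1]
    have h2 : (if Nat.Coprime D 1 then
      (((Icc 1 X).filter fun m => s2_w D F m = 1).card : ℝ) else 0) ≤
      ∑ v ∈ D.divisors, (if Nat.Coprime D v then
      (((Icc 1 X).filter fun m => s2_w D F m = v).card : ℝ) else 0) := by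
      apply Finset.single_le_sum (f := fun v => (if Nat.Coprime D v then
        (((Icc 1 X).filter fun m => s2_w D F m = v).card : ℝ) else 0))
      · intro v _
        split_ifs
        · exact Nat.cast_nonneg _
        · exact le_rfl
      · exact Nat.mem_divisors.2 ⟨one_dvd _, hD.ne_zero⟩
    rw [if_pos (Nat.coprime_one_right D)] at h2
    refine le_trans ?_ h2
    have h3 : ((Icc 1 X).filter fun m => ∀ l ∈ D.primeFactors, m % l ∉ F l) ⊆
        (Icc 1 X).filter fun m => s2_w D F m = 1 := by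
      intro m hm
      rw [Finset.mem_filter] at hm ⊢
      refine ⟨hm.1, ?_⟩
      have h4 : s2_pf D F m = ∅ := by
        unfold s2_pf
        rw [Finset.filter_eq_empty_iff]
        exact hm.2
      unfold s2_w
      rw [h4, Finset.prod_empty]
    exact_mod_cast Finset.card_le_card h3
  rw [hM] at hmain
  linarith

end Pool.Agent.Lib.MP_d9bc60_nt.EN
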