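import Pool.Agent.Lib.MP_d9bc60_nt.EN.M2

/-! Row W1 (about 120 lines): lower bound for the window sum. -/

set_option autoImplicit false

open Finset

namespace Pool.Agent.Lib.MP_d9bc60_nt.EN

theorem w1_prod_ge {ι : Type*} (s : Finset ι) (x : ι → ℝ) (h0 : ∀ i ∈ s, 0 ≤ x i)
    (h1 : ∀ i ∈ s, x i ≤ 1) : 1 - ∑ i ∈ s, x i ≤ ∏ i ∈ s, (1 - x i) := by
  classical
  induction s using Finset.induction_on with
  | empty => simp
  | insert a s ha ih =>
    rw [Finset.sum_insert ha, Finset.prod_insert ha]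
    have ih' := ih (fun i hi => h0 i (Finset.mem_insert_of_mem hi))
      (fun i hi => h1 i (Finset.mem_insert_of_mem hi))
    have ha0 := h0 a (Finset.mem_insert_self _ _)
    have ha1 := h1 a (Finset.mem_insert_self _ _)
    have hs0 : 0 ≤ ∑ i ∈ s, x i := Finset.sum_nonneg fun i hi => h0 i (Finset.mem_insert_of_mem hi)
    have h2 : (1 - x a) * (1 - ∑ i ∈ s, x i) ≤ (1 - x a) * ∏ i ∈ s, (1 - x i) :=
      mul_le_mul_of_nonneg_left ih' (by linarith)
    have h3 : 1 - (x a + ∑ i ∈ s, x i) ≤ (1 - x a) * (1 - ∑ i ∈ s, x i) := by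
      nlinarith [mul_nonneg ha0 hs0]
    linarith

/-- the product of the primes up to `P` -/
def w1_K (P : ℕ) : ℕ := ∏ l ∈ (Icc 1 P).filter Nat.Prime, l

theorem w1_K_primeFactors (P : ℕ) : (w1_K P).primeFactors = (Icc 1 P).filter Nat.Prime :=
  Nat.primeFactors_prod (fun _ hp => (Finset.mem_filter.1 hp).2)

theorem w1_K_pos (P : ℕ) : 0 < w1_K P :=
  Finset.prod_pos fun l hl => (Finset.mem_filter.1 hl).2.pos

/-- the number of big prime factors -/
theorem w1_card (N P : ℕ) (hN : 1 ≤ N) (hP : 8 ≤ P) :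
    ((N.primeFactors.filter (fun l => P < l)).card : ℝ) * Real.log P ≤ Real.log N := by
  have h1 : P ^ (N.primeFactors.filter (fun l => P < l)).card ≤ N := by
    calc P ^ (N.primeFactors.filter (fun l => P < l)).card
        = ∏ _l ∈ N.primeFactors.filter (fun l => P < l), P := by rw [Finset.prod_const]
      _ ≤ ∏ l ∈ N.primeFactors.filter (fun l => P < l), l :=
          Finset.prod_le_prod' fun l hl => (Finset.mem_filter.1 hl).2.le
      _ ≤ N := Nat.le_of_dvd hN ((Finset.prod_dvd_prod_of_subset _ _ _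
          (Finset.filter_subset _ _)).trans (Nat.prod_primeFactors_dvd N))
  have h2 : ((P : ℝ)) ^ (N.primeFactors.filter (fun l => P < l)).card ≤ N := by exact_mod_cast h1
  have hP0 : (0 : ℝ) < P := by positivity
  have h3 := Real.log_le_log (by positivity) h2
  rwa [Real.log_pow] at h3

/-- Let `k = (∏_{l ≤ P} l) · ∏_{l ∣ N, l > P} l`. `Sieve.log_le_sum k Q` gives
`(φ(k)/k) log (Q+1) ≤ ∑ 1/φ(b)` over the squarefree `b ≤ Q` coprime to `k`; the prime factors of such a
`b` lie in `(P, Q]` and do not divide `N`, so `b ∣ W`. And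
`φ(k)/k = ∏_{l ≤ P} (1-1/l) ∏_{l ∣ N, l > P} (1 - 1/l)`; first factor `≥ c/log P` (`prod_lower`), the
second `≥ 1 - ∑_{l ∣ N, l > P} 1/l ≥ 1 - (log N/log P)/P ≥ 1/2`: the number of primes `l > P` dividing
`N` is at most `log N/log P` and `P ≥ log N`, `log P ≥ 2`. -/
theorem window_sum : ∃ c : ℝ, 0 < c ∧ ∀ N P Q : ℕ, 1 ≤ N → 8 ≤ P → Real.log N ≤ P → P ≤ Q →
    ∀ W : ℕ, W = ∏ l ∈ (Ioc P Q).filter (fun l => l.Prime ∧ ¬ l ∣ N), l →
    c * (Real.log Q / Real.log P) ≤ ∑ b ∈ W.divisors.filter (· ≤ Q), Sieve.iphi b := by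
  classical
  obtain ⟨c₀, hc₀, -, hlow⟩ := prod_lower
  refine ⟨c₀ / 2, by positivity, ?_⟩
  intro N P Q hN hP hlog hPQ W hW
  set k := w1_K P * N with hk
  have hK := w1_K_pos P
  have hkpos : 0 < k := Nat.mul_pos hK hN
  have hPR : (8 : ℝ) ≤ P := by exact_mod_cast hP
  have hQR : (8 : ℝ) ≤ Q := by exact_mod_cast hP.trans hPQ
  have hlogP : 2 ≤ Real.log P := by
    have h1 : Real.log 8 ≤ Real.log P := Real.log_le_log (by norm_num) hPR
    have h2 : Real.log 8 = 3 * Real.log 2 := by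
      rw [show (8 : ℝ) = 2 ^ 3 by norm_num, Real.log_pow]; norm_num
    have h3 := Real.log_two_gt_d9
    linarith
  have hWne : W ≠ 0 := by
    rw [hW]
    exact Finset.prod_ne_zero_iff.2 fun l hl => (Finset.mem_filter.1 hl).2.1.ne_zero
  -- step 1
  have h := Sieve.log_le_sum k Q hkpos
  have h1 : ∑ a ∈ (Finset.Icc 1 Q).filter (fun a => Squarefree a ∧ a.Coprime k),
      ((a.totient : ℝ)⁻¹) ≤ ∑ a ∈ W.divisors.filter (· ≤ Q), Sieve.iphi a := by
    have hid : ∀ a, ((a.totient : ℝ)⁻¹) = Sieve.iphi a := fun a => (Sieve.iphi_apply a).symm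
    simp only [hid]
    apply Finset.sum_le_sum_of_subset_of_nonneg
    · intro a ha
      rw [Finset.mem_filter, Finset.mem_Icc] at ha
      obtain ⟨⟨ha1, haQ⟩, hsq, hcop⟩ := ha
      rw [Finset.mem_filter, Nat.mem_divisors]
      refine ⟨⟨?_, hWne⟩, haQ⟩
      rw [← Nat.prod_primeFactors_of_squarefree hsq, hW]
      apply Finset.prod_dvd_prod_of_subset
      intro p hp
      have hpp := Nat.prime_of_mem_primeFactors hp
      have hpa := Nat.dvd_of_mem_primeFactors hp
      have hpk : ¬ p ∣ k := by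
        intro hpk
        have := Nat.dvd_gcd hpa hpk
        rw [hcop] at this
        exact hpp.one_lt.ne' (Nat.dvd_one.1 this)
      have hpQ : p ≤ Q := (Nat.le_of_dvd (by omega) hpa).trans haQ
      rw [Finset.mem_filter, Finset.mem_Ioc]
      refine ⟨⟨?_, hpQ⟩, hpp, fun hpN => hpk (hpN.mul_left _)⟩
      by_contra hlt
      push Not at hlt
      apply hpk
      have : p ∈ (w1_K P).primeFactors := by
        rw [w1_K_primeFactors, Finset.mem_filter, Finset.mem_Icc]
        exact ⟨⟨hpp.one_lt.le, hlt⟩, hpp⟩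
      exact (Nat.dvd_of_mem_primeFactors this).mul_right _
    · intro a _ _
      rw [Sieve.iphi_apply]
      positivity
  have hk' : (0 : ℝ) < k := by exact_mod_cast hkpos
  have ht : (0 : ℝ) < k.totient := by exact_mod_cast Nat.totient_pos.2 hkpos
  have h2 : ((k.totient : ℝ) / k) * Real.log ((Q : ℝ) + 1) ≤
      ∑ a ∈ W.divisors.filter (· ≤ Q), Sieve.iphi a := by
    calc ((k.totient : ℝ) / k) * Real.log ((Q : ℝ) + 1)
        ≤ ((k.totient : ℝ) / k) * (((k : ℝ) / k.totient) *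
        ∑ a ∈ (Finset.Icc 1 Q).filter (fun a => Squarefree a ∧ a.Coprime k),
          ((a.totient : ℝ)⁻¹)) := by gcongr
      _ = ∑ a ∈ (Finset.Icc 1 Q).filter (fun a => Squarefree a ∧ a.Coprime k),
          ((a.totient : ℝ)⁻¹) := by field_simp
      _ ≤ _ := h1
  -- step 2: the ratio
  have hratio : (k.totient : ℝ) / k = ∏ p ∈ k.primeFactors, (1 - (p : ℝ)⁻¹) := by
    have h3 := Sieve.inv_ratio k hkpos
    rw [Finset.prod_inv_distrib] at h3
    rw [← inv_inj, inv_div, h3]
  have hpf : k.primeFactors = (Icc 1 P).filter Nat.Prime ∪ N.primeFactors.filter (fun l => P < l) := by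
    rw [hk, Nat.primeFactors_mul hK.ne' (by omega), w1_K_primeFactors]
    ext p
    simp only [Finset.mem_union, Finset.mem_filter, Finset.mem_Icc]
    constructor
    · rintro (h | h)
      · exact Or.inl h
      · have hpp := Nat.prime_of_mem_primeFactors h
        by_cases hle : p ≤ P
        · exact Or.inl ⟨⟨hpp.one_lt.le, hle⟩, hpp⟩
        · exact Or.inr ⟨h, by omega⟩
    · rintro (h | h)
      · exact Or.inl h
      · exact Or.inr h.1
  have hdisj : Disjoint ((Icc 1 P).filter Nat.Prime) (N.primeFactors.filter (fun l => P < l)) := by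
    rw [Finset.disjoint_left]
    intro p hp hp'
    rw [Finset.mem_filter, Finset.mem_Icc] at hp
    rw [Finset.mem_filter] at hp'
    omega
  rw [hratio, hpf, Finset.prod_union hdisj] at h2
  have h3 := hlow P (by omega)
  have h4 : (1 : ℝ) / 2 ≤ ∏ p ∈ N.primeFactors.filter (fun l => P < l), (1 - (p : ℝ)⁻¹) := by
    have h5 := w1_prod_ge (N.primeFactors.filter (fun l => P < l)) (fun p => ((p : ℝ)⁻¹))
      (fun i _ => by positivity)
      (fun i hi => by
        have hi' := Nat.prime_of_mem_primeFactors (Finset.mem_filter.1 hi).1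
        exact inv_le_one_of_one_le₀ (by exact_mod_cast hi'.one_lt.le))
    have h6 : ∑ p ∈ N.primeFactors.filter (fun l => P < l), ((p : ℝ)⁻¹) ≤
        (N.primeFactors.filter (fun l => P < l)).card * (P : ℝ)⁻¹ := by
      have : ∀ p ∈ N.primeFactors.filter (fun l => P < l), ((p : ℝ)⁻¹) ≤ (P : ℝ)⁻¹ := by
        intro p hp
        have h7 : (P : ℝ) ≤ p := by exact_mod_cast (Finset.mem_filter.1 hp).2.le
        exact inv_anti₀ (by linarith) h7
      have h8 := Finset.sum_le_card_nsmul _ _ _ this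
      rwa [nsmul_eq_mul] at h8
    have h7 := w1_card N P hN hP
    set m := ((N.primeFactors.filter (fun l => P < l)).card : ℝ) with hm
    have hm0 : 0 ≤ m := by positivity
    have hP0 : (0 : ℝ) < P := by linarith
    have h8 : m * (P : ℝ)⁻¹ ≤ 1 / 2 := by
      rw [← div_eq_mul_inv, div_le_div_iff₀ hP0 (by norm_num)]
      nlinarith
    linarith
  have hlogP0 : 0 < Real.log P := by linarith
  have hA0 : 0 ≤ c₀ / Real.log P := by positivity
  have h5 : (c₀ / Real.log P) * (1 / 2) ≤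
      (∏ p ∈ (Icc 1 P).filter Nat.Prime, (1 - (p : ℝ)⁻¹)) *
        ∏ p ∈ N.primeFactors.filter (fun l => P < l), (1 - (p : ℝ)⁻¹) := by
    apply mul_le_mul h3 h4 (by norm_num) (hA0.trans h3)
  have hlogQ : 0 ≤ Real.log Q := Real.log_nonneg (by linarith)
  have hlogQ1 : Real.log Q ≤ Real.log ((Q : ℝ) + 1) := Real.log_le_log (by linarith) (by linarith)
  calc c₀ / 2 * (Real.log Q / Real.log P) = (c₀ / Real.log P) * (1 / 2) * Real.log Q := by ring
    _ ≤ ((∏ p ∈ (Icc 1 P).filter Nat.Prime, (1 - (p : ℝ)⁻¹)) *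
        ∏ p ∈ N.primeFactors.filter (fun l => P < l), (1 - (p : ℝ)⁻¹)) * Real.log ((Q : ℝ) + 1) := by
          apply mul_le_mul h5 hlogQ1 hlogQ
          exact (by positivity : (0 : ℝ) ≤ (c₀ / Real.log P) * (1 / 2)).trans h5
    _ ≤ _ := h2

end Pool.Agent.Lib.MP_d9bc60_nt.EN
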