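import Pool.Agent.Lib.MP_d9bc60_nt.EN.S2
import Pool.Agent.Lib.MP_d9bc60_nt.EN.G1
import Pool.Agent.Lib.MP_d9bc60_nt.EN.W1

/-! Row W2 (about 200 lines): primes `m` such that `N - m` has no prime factor in a window. -/

set_option autoImplicit false

open Finset

namespace Pool.Agent.Lib.MP_d9bc60_nt.EN

/-- the window product -/
def w2_W (N P Q : ℕ) : ℕ := ∏ l ∈ (Ioc P Q).filter (fun l => l.Prime ∧ ¬ l ∣ N), l

lemma w2_primeFactors (N P Q : ℕ) :
    (w2_W N P Q).primeFactors = (Ioc P Q).filter (fun l => l.Prime ∧ ¬ l ∣ N) :=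
  Nat.primeFactors_prod (fun _ hp => (Finset.mem_filter.1 hp).2.1)

lemma w2_ne_zero (N P Q : ℕ) : w2_W N P Q ≠ 0 := by
  unfold w2_W
  rw [Finset.prod_ne_zero_iff]
  intro l hl
  exact (Finset.mem_filter.1 hl).2.1.ne_zero

lemma w2_dvd (N P Q l : ℕ) (hl : l.Prime) (h : l ∣ w2_W N P Q) : P < l ∧ l ≤ Q ∧ ¬ l ∣ N := by
  have h1 : l ∈ (w2_W N P Q).primeFactors := Nat.mem_primeFactors.2 ⟨hl, h, w2_ne_zero N P Q⟩
  rw [w2_primeFactors, Finset.mem_filter, Finset.mem_Ioc] at h1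
  exact ⟨h1.1.1, h1.1.2, h1.2.2⟩

lemma w2_W_dvd (N P Q y : ℕ) (hQ : Q ≤ y) : w2_W N P Q ∣ Sieve.PP 1 y := by
  unfold w2_W Sieve.PP
  apply Finset.prod_dvd_prod_of_subset
  intro l hl
  rw [Finset.mem_filter, Finset.mem_Ioc] at hl
  rw [Finset.mem_filter, Finset.mem_Icc]
  refine ⟨⟨hl.2.1.one_lt.le, hl.1.2.trans hQ⟩, hl.2.1, ?_⟩
  intro h
  exact hl.2.1.one_lt.ne' (Nat.dvd_one.1 h)

/-- the residue classes -/
def w2_F (N P Q l : ℕ) : Finset ℕ := if l ∣ w2_W N P Q then {0, N % l} else {0}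

lemma w2_card (N P Q l : ℕ) (hl : l.Prime) :
    (w2_F N P Q l).card = if l ∣ w2_W N P Q then 2 else 1 := by
  unfold w2_F
  split_ifs with h
  · rw [Finset.card_pair]
    intro h0
    exact (w2_dvd N P Q l hl h).2.2 (Nat.dvd_of_mod_eq_zero h0.symm)
  · exact Finset.card_singleton 0

lemma w2_F_sub (N P Q l : ℕ) (hl : l.Prime) : w2_F N P Q l ⊆ range l := by
  intro r hr
  rw [Finset.mem_range]
  unfold w2_F at hr
  split_ifs at hr with h
  · rw [Finset.mem_insert, Finset.mem_singleton] at hr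
    rcases hr with h | h
    · rw [h]; exact hl.pos
    · rw [h]; exact Nat.mod_lt _ hl.pos
  · rw [Finset.mem_singleton] at hr
    rw [hr]; exact hl.pos

/-- the analytic input: `t = x^8`, `x^32 = N` -/
lemma w2_small (x : ℝ) (N : ℕ) (hx : 0 < x) (hxN : x ^ 32 = N) (hN : 65536 ≤ N) :
    x ^ 8 * (Real.log N) ^ 2 ≤ N := by
  have hNR : (65536 : ℝ) ≤ N := by exact_mod_cast hN
  have h8 : 0 < x ^ 8 := by positivity
  have h1 : Real.log N ≤ 4 * x ^ 8 := by
    rw [← hxN]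
    have : x ^ 32 = (x ^ 8) ^ 4 := by ring
    rw [this, Real.log_pow]
    have := Real.log_le_sub_one_of_pos h8
    push_cast
    linarith
  have h0 : 0 ≤ Real.log N := Real.log_nonneg (by linarith)
  have h2 : (Real.log N) ^ 2 ≤ 16 * x ^ 16 := by
    calc (Real.log N) ^ 2 ≤ (4 * x ^ 8) ^ 2 := by gcongr
      _ = _ := by ring
  have h3 : 16 ≤ x ^ 8 := by
    by_contra h
    push Not at h
    have h4 : x ^ 32 < 65536 := by
      calc x ^ 32 = (x ^ 8) ^ 4 := by ring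
        _ < 16 ^ 4 := by gcongr
        _ = 65536 := by norm_num
    linarith
  calc x ^ 8 * (Real.log N) ^ 2 ≤ x ^ 8 * (16 * x ^ 16) := by gcongr
    _ = 16 * (x ^ 24) := by ring
    _ ≤ x ^ 8 * x ^ 24 := by gcongr
    _ = N := by rw [← hxN]; ring

/-- the sieve bound with parameter `y` -/
lemma w2_sieve (c : ℝ) (hc : 0 < c) (hwin : ∀ N P Q : ℕ, 1 ≤ N → 8 ≤ P → Real.log N ≤ P → P ≤ Q →
    ∀ W : ℕ, W = ∏ l ∈ (Ioc P Q).filter (fun l => l.Prime ∧ ¬ l ∣ N), l →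
    c * (Real.log Q / Real.log P) ≤ ∑ b ∈ W.divisors.filter (· ≤ Q), Sieve.iphi b)
    (N P Q y : ℕ) (hN : 1 ≤ N) (hP : 8 ≤ P) (hPN : Real.log N ≤ P) (hPQ : P ≤ Q) (hQy : Q ≤ y) :
    (((Icc 1 N).filter fun m => m.Prime ∧ ∀ l ∈ Ioc P Q, l.Prime → ¬ l ∣ N →
      ¬ l ∣ N - m).card : ℝ) ≤
      y + ((N : ℝ) / (Real.log ((y : ℝ) + 1) * (c * (Real.log Q / Real.log P))) + (y : ℝ) ^ 8) := by
  classical
  set z := y * y with hz
  have hy1 : 1 ≤ y := by omega
  have hz1 : 1 ≤ z := Nat.one_le_iff_ne_zero.2 (by positivity)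
  set D := Sieve.PP 1 y with hD
  have hDsq : Squarefree D := Sieve.PP_squarefree 1 y
  have hprime : ∀ l ∈ D.primeFactors, l.Prime ∧ l ≤ y := by
    intro l hl
    have h1 := Nat.prime_of_mem_primeFactors hl
    have h2 := Sieve.prime_dvd_PP 1 y l h1 (Nat.dvd_of_mem_primeFactors hl)
    exact ⟨h1, h2.1⟩
  have hWD : w2_W N P Q ∣ D := w2_W_dvd N P Q y hQy
  have hkey : ∀ l ∈ D.primeFactors, 1 ≤ (w2_F N P Q l).card ∧ (w2_F N P Q l).card ≤ 2 ∧
      (w2_F N P Q l).card < l ∧ (l ∣ w2_W N P Q → (w2_F N P Q l).card = 2) := by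
    intro l hl
    obtain ⟨h1, h2⟩ := hprime l hl
    rw [w2_card N P Q l h1]
    split_ifs with h
    · have h3 := (w2_dvd N P Q l h1 h).1
      exact ⟨by norm_num, le_rfl, by omega, fun _ => rfl⟩
    · exact ⟨le_rfl, by norm_num, h1.one_lt, fun h' => absurd h' h⟩
  have hsieve := residue_sieve N z hz1 D hDsq (w2_F N P Q) (by
    intro l hl
    have h1 := hkey l hl
    exact ⟨w2_F_sub N P Q l (hprime l hl).1, h1.1, h1.2.1, h1.2.2.1⟩)
  have hG := mixed_lower D (w2_W N P Q) y z hDsq hWD le_rfl (fun l => (w2_F N P Q l).card) (by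
    intro l hl
    have h1 := hkey l hl
    exact ⟨h1.1, h1.2.2.1, h1.2.2.2⟩)
  have hlin := Sieve.linear_lower 1 y y one_pos le_rfl
  rw [← hD] at hlin
  rw [Nat.totient_one, Nat.cast_one, div_one, one_mul] at hlin
  have hwin' := hwin N P Q hN hP hPN hPQ (w2_W N P Q) rfl
  have hwin2 : c * (Real.log Q / Real.log P) ≤
      ∑ b ∈ (w2_W N P Q).divisors.filter (· ≤ y), Sieve.iphi b := by
    refine hwin'.trans ?_
    apply Finset.sum_le_sum_of_subset_of_nonneg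
    · intro b hb
      rw [Finset.mem_filter] at hb ⊢
      exact ⟨hb.1, hb.2.trans hQy⟩
    · intro b _ _
      rw [Sieve.iphi_apply]
      positivity
  set G := ∑ e ∈ D.divisors.filter (· ≤ z), ∏ l ∈ e.primeFactors,
        (((w2_F N P Q l).card : ℝ) / ((l : ℝ) - ((w2_F N P Q l).card : ℝ))) with hGdef
  have hlog : 0 < Real.log ((y : ℝ) + 1) := by
    apply Real.log_pos
    have : (1 : ℝ) ≤ y := by exact_mod_cast hy1
    linarith
  have hPR : (8 : ℝ) ≤ P := by exact_mod_cast hP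
  have hQR : (8 : ℝ) ≤ Q := by exact_mod_cast hP.trans hPQ
  have hlogP : 0 < Real.log P := Real.log_pos (by linarith)
  have hlogQ : 0 < Real.log Q := Real.log_pos (by linarith)
  have hB : 0 < c * (Real.log Q / Real.log P) := by positivity
  have hGlow : Real.log ((y : ℝ) + 1) * (c * (Real.log Q / Real.log P)) ≤ G := by
    refine le_trans ?_ hG
    gcongr
    exact hlog.le.trans hlin
  have hM : (N : ℝ) / G ≤ (N : ℝ) / (Real.log ((y : ℝ) + 1) * (c * (Real.log Q / Real.log P))) := by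
    gcongr
  -- the set
  have hsub : ((Icc 1 N).filter fun m => m.Prime ∧ ∀ l ∈ Ioc P Q, l.Prime → ¬ l ∣ N →
      ¬ l ∣ N - m) ⊆ (Icc 1 y) ∪
      ((Icc 1 N).filter fun m => ∀ l ∈ D.primeFactors, m % l ∉ w2_F N P Q l) := by
    intro m hm
    rw [Finset.mem_filter, Finset.mem_Icc] at hm
    rw [Finset.mem_union, Finset.mem_Icc, Finset.mem_filter, Finset.mem_Icc]
    by_cases h1 : m ≤ y
    · left; exact ⟨hm.1.1, h1⟩
    right
    refine ⟨hm.1, ?_⟩
    intro l hl hmem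
    obtain ⟨h3, h4⟩ := hprime l hl
    have hzero : m % l ≠ 0 := by
      intro h0
      have h5 := (Nat.prime_dvd_prime_iff_eq h3 hm.2.1).1 (Nat.dvd_of_mod_eq_zero h0)
      omega
    unfold w2_F at hmem
    split_ifs at hmem with hW
    · rw [Finset.mem_insert, Finset.mem_singleton] at hmem
      rcases hmem with h | h
      · exact hzero h
      · obtain ⟨h5, h6, h7⟩ := w2_dvd N P Q l h3 hW
        exact hm.2.2 l (Finset.mem_Ioc.2 ⟨h5, h6⟩) h3 h7 ((Nat.modEq_iff_dvd' hm.1.2).1 h)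
    · rw [Finset.mem_singleton] at hmem
      exact hzero hmem
  have hcc := (Finset.card_le_card hsub).trans (Finset.card_union_le _ _)
  rw [Nat.card_Icc, Nat.add_sub_cancel] at hcc
  have hc3 : (((Icc 1 N).filter fun m => m.Prime ∧ ∀ l ∈ Ioc P Q, l.Prime → ¬ l ∣ N →
      ¬ l ∣ N - m).card : ℝ) ≤ (y : ℝ) +
      (((Icc 1 N).filter fun m => ∀ l ∈ D.primeFactors, m % l ∉ w2_F N P Q l).card : ℝ) := by
    exact_mod_cast hcc
  have hz4 : (z : ℝ) ^ 4 = (y : ℝ) ^ 8 := by rw [hz]; push_cast; ring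
  rw [hz4] at hsieve
  linarith

/-- `y = ⌊N^{1/32}⌋`, `z = y²`, `D = ∏_{l ≤ y} l` (`Sieve.PP 1 y`), `W = ∏_{P < l ≤ Q, l ∤ N} l`,
`F l = {0, N % l}` if `l ∣ W`, else `{0}`. A prime `m > y` with no window prime dividing `N - m` (`m ≤ N`)
is sifted: `m % l ≠ 0` for `l ≤ y`, and `m % l = N % l` would give `l ∣ N - m`. So
`# ≤ y + N/G + z⁴` by `residue_sieve`, `G ≥ log (y+1) · c log Q/log P` by `mixed_lower`,
`Sieve.linear_lower 1 y y`, `window_sum` (the filter `b ≤ Q` is contained in `b ≤ y`, as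
`Q ≤ y`: `Q^32 ≤ N`), `log (y+1) ≥ (log N)/32`, and `y + z⁴ ≤ 2 N^{1/4} ≤ N/log² N ≤ (log P/log Q) N/log N`
(`log P ≥ 1`, `log Q ≤ log N`). -/
theorem window : ∃ C : ℝ, 0 < C ∧ ∃ N₀ : ℕ, ∀ N : ℕ, N₀ ≤ N → ∀ P Q : ℕ, Real.log N ≤ P → P ≤ Q →
    Q ^ 32 ≤ N →
    (((Icc 1 N).filter fun m => m.Prime ∧ ∀ l ∈ Ioc P Q, l.Prime → ¬ l ∣ N →
      ¬ l ∣ N - m).card : ℝ) ≤ C * (Real.log P / Real.log Q) * ((N : ℝ) / Real.log N) := by
  obtain ⟨c, hc, hwin⟩ := window_sum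
  refine ⟨32 / c + 2, by positivity, 65536, ?_⟩
  intro N hN P Q hPN hPQ hQN
  have hNR : (65536 : ℝ) ≤ N := by exact_mod_cast hN
  have hlog8 : (8 : ℝ) ≤ Real.log N := by
    have h1 : Real.log 65536 ≤ Real.log N := Real.log_le_log (by norm_num) hNR
    have h2 : Real.log 65536 = 16 * Real.log 2 := by
      have : (65536 : ℝ) = 2 ^ 16 := by norm_num
      rw [this, Real.log_pow]
      norm_num
    have h3 := Real.log_two_gt_d9
    linarith
  have hP : 8 ≤ P := by exact_mod_cast hlog8.trans hPN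
  set x : ℝ := (N : ℝ) ^ ((1 : ℝ) / 32) with hx
  have hxpos : 0 < x := Real.rpow_pos_of_pos (by linarith) _
  have hxN : x ^ 32 = N := by
    rw [hx, ← Real.rpow_natCast, ← Real.rpow_mul (by linarith)]
    norm_num
  set y := ⌊x⌋₊ with hy
  have hyx : (y : ℝ) ≤ x := Nat.floor_le hxpos.le
  have hxy : x < (y : ℝ) + 1 := Nat.lt_floor_add_one x
  have hQy : Q ≤ y := by
    apply Nat.le_floor
    by_contra h
    push Not at h
    have h1 : x ^ 32 < (Q : ℝ) ^ 32 := by gcongr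
    rw [hxN] at h1
    have h2 : N < Q ^ 32 := by exact_mod_cast h1
    omega
  have hmain := w2_sieve c hc hwin N P Q y (by omega) hP hPN hPQ hQy
  have hy1 : (1 : ℝ) ≤ y := by
    have : 1 ≤ y := by omega
    exact_mod_cast this
  have hPR : (8 : ℝ) ≤ P := by exact_mod_cast hP
  have hPQR : (P : ℝ) ≤ Q := by exact_mod_cast hPQ
  have hlogP1 : 1 ≤ Real.log P := by
    rw [Real.le_log_iff_exp_le (by linarith)]
    have := Real.exp_one_lt_d9
    linarith
  have hlogQ : 0 < Real.log Q := Real.log_pos (by linarith)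
  have hlogN : 0 < Real.log N := by linarith
  have hQleN : Real.log Q ≤ Real.log N := by
    apply Real.log_le_log (by linarith)
    have h1 : Q ≤ Q ^ 32 := Nat.le_self_pow (by norm_num) Q
    exact_mod_cast h1.trans hQN
  -- main term
  have hlogy : Real.log N / 32 ≤ Real.log ((y : ℝ) + 1) := by
    have h1 : Real.log N = 32 * Real.log x := by
      rw [← hxN, Real.log_pow]
      norm_num
    have h2 : Real.log x ≤ Real.log ((y : ℝ) + 1) := Real.log_le_log hxpos hxy.le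
    linarith
  have hM : (N : ℝ) / (Real.log ((y : ℝ) + 1) * (c * (Real.log Q / Real.log P))) ≤
      32 / c * (Real.log P / Real.log Q) * ((N : ℝ) / Real.log N) := by
    calc (N : ℝ) / (Real.log ((y : ℝ) + 1) * (c * (Real.log Q / Real.log P)))
        ≤ (N : ℝ) / (Real.log N / 32 * (c * (Real.log Q / Real.log P))) := by gcongr
      _ = _ := by field_simp
  have hsmall := w2_small x N hxpos hxN hN
  have hE : (y : ℝ) + (y : ℝ) ^ 8 ≤ 2 * (Real.log P / Real.log Q) * ((N : ℝ) / Real.log N) := by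
    have h1 : (y : ℝ) ≤ (y : ℝ) ^ 8 := by
      calc (y : ℝ) = (y : ℝ) ^ 1 := by ring
        _ ≤ (y : ℝ) ^ 8 := pow_le_pow_right₀ hy1 (by norm_num)
    have h2 : (y : ℝ) ^ 8 ≤ x ^ 8 := by gcongr
    have h3 : x ^ 8 ≤ (N : ℝ) / (Real.log N) ^ 2 := by
      rw [le_div_iff₀ (by positivity)]
      exact hsmall
    have h4 : (N : ℝ) / (Real.log N) ^ 2 ≤ (Real.log P / Real.log Q) * ((N : ℝ) / Real.log N) := by
      have h5 : (1 : ℝ) / Real.log N ≤ Real.log P / Real.log Q := by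
        rw [div_le_div_iff₀ hlogN hlogQ]
        nlinarith
      calc (N : ℝ) / (Real.log N) ^ 2 = (1 / Real.log N) * ((N : ℝ) / Real.log N) := by
            field_simp
        _ ≤ _ := by gcongr
    linarith
  calc (((Icc 1 N).filter fun m => m.Prime ∧ ∀ l ∈ Ioc P Q, l.Prime → ¬ l ∣ N →
      ¬ l ∣ N - m).card : ℝ) ≤ _ := hmain
    _ ≤ 32 / c * (Real.log P / Real.log Q) * ((N : ℝ) / Real.log N) +
        2 * (Real.log P / Real.log Q) * ((N : ℝ) / Real.log N) := by linarith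
    _ = _ := by ring

end Pool.Agent.Lib.MP_d9bc60_nt.EN
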